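import Pool.Agent.U35.ZA.Main

set_option autoImplicit false

/-!
From one shift to all pairs of truth-table reductions.
-/

namespace Pool.Agent.U35.ZA

open Encodable Pool.Agent.Helper227
open Pool.Agent.H548R2.Post (chr)
open Pool.Agent.H869R3.RT (PostIndex)
open Nat.Partrec (Code)

theorem us_WE (e : ℕ) : US fun X (m : ℕ) => m ∈ WE X e := by
  have h1 : S1 fun y : List Bool × (ℕ × ℕ) =>
      ((Denumerable.ofNat Code e).eval (encode (y.1, y.2.1))).Dom := by
    exact S1.comp (f := fun y : List Bool × (ℕ × ℕ) =>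
      (Denumerable.ofNat Code e, encode (y.1, y.2.1))) s1_eval
      ((Primrec.const _).pair (Primrec.encode.comp (Primrec.fst.pair
        (Primrec.fst.comp Primrec.snd))))
  have h2 := US.of_pre (V := fun x : ℕ × ℕ => x.2) h1 Computable.snd
  exact US.ex (p := fun X (m : ℕ) (k : ℕ) =>
    ((Denumerable.ofNat Code e).eval (encode (pre X k, m))).Dom) h2

/-- a truth-table map -/
def TTm (φ : (ℕ → Bool) → ℕ → Bool) : Prop :=
  ∃ (δ : ℕ → List Bool → Bool) (u : ℕ → ℕ), Computable₂ δ ∧ Computable u ∧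
    ∀ X n, φ X n = δ n (pre X (u n))

theorem TTm.cf {φ : (ℕ → Bool) → ℕ → Bool} (h : TTm φ) : CF fun (_ : Unit) X => φ X := by
  obtain ⟨δ, u, hδ, hu, e⟩ := h
  obtain ⟨V, G, hV, hG, e'⟩ := exists_VG hδ hu e
  refine ⟨fun x => V x.2, fun x => G (x.1.2, x.2), hV.comp Computable.snd,
    hG.comp ((Computable.snd.comp Computable.fst).pair Computable.snd), fun _ X m => e' X m⟩

theorem TTm.us {φ : (ℕ → Bool) → ℕ → Bool} (h : TTm φ) {α : Type} [Primcodable α]
    {p : (ℕ → Bool) → α → Prop} (hp : US p) : US fun X a => p (φ X) a :=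
  (US.shift hp h.cf).comp (f := fun a : α => ((), a)) ((Primrec.const ()).pair Primrec.id)

theorem TTm.le {φ : (ℕ → Bool) → ℕ → Bool} (h : TTm φ) (X : ℕ → Bool) : TLe (φ X) X := by
  rw [tLe_iff_SI]
  exact (h.us us_query).to_si X

/-- an index for the operator at `φ X` -/
theorem transfer {φ : (ℕ → Bool) → ℕ → Bool} (h : TTm φ) (h' : ∀ X, TLe X (φ X)) {e : ℕ}
    (he : PostIndex e) : ∃ e', PostIndex e' ∧ ∀ X, WE X e' = WE (φ X) e := by
  obtain ⟨e', h1⟩ := (h.us (us_WE e)).exists_index
  have h2 : ∀ X, WE X e' = WE (φ X) e := fun X => by rw [h1 X]; rfl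
  refine ⟨e', fun X => ?_, h2⟩
  obtain ⟨a1, a2, a3, a4, a5⟩ := he (φ X)
  have l1 : TLe (φ X) X := h.le X
  have l2 : TLe X (φ X) := h' X
  rw [h2 X]
  exact ⟨TuringReducible.trans l2 a1, fun hc => a2 (TuringReducible.trans hc l2),
    TuringReducible.trans a3 l1.jump, fun hc => a4 (TuringReducible.trans l1.jump hc),
    TuringReducible.trans a5 l1.jump⟩

/-! ### the shift -/

/-- the successor of the integer with code `c`; the code of `j ≥ 0` is `2 j`, the code of
`-(j+1)` is `2 j + 1` -/
def nx (c : ℕ) : ℕ := if c % 2 = 0 then c + 2 else if c = 1 then 0 else c - 2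

def pv (c : ℕ) : ℕ := if c % 2 = 1 then c + 2 else if c = 0 then 1 else c - 2

theorem pv_nx (c : ℕ) : pv (nx c) = c := by
  by_cases h0 : c % 2 = 0
  · have e1 : nx c = c + 2 := by unfold nx; rw [if_pos h0]
    rw [e1]
    unfold pv
    rw [if_neg (by omega), if_neg (by omega)]
    omega
  · by_cases h1 : c = 1
    · subst h1; rfl
    · have e1 : nx c = c - 2 := by unfold nx; rw [if_neg h0, if_neg h1]
      rw [e1]
      unfold pv
      rw [if_pos (by omega)]
      omega

theorem nx_pv (c : ℕ) : nx (pv c) = c := by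
  by_cases h0 : c % 2 = 1
  · have e1 : pv c = c + 2 := by unfold pv; rw [if_pos h0]
    rw [e1]
    unfold nx
    rw [if_neg (by omega), if_neg (by omega)]
    omega
  · by_cases h1 : c = 0
    · subst h1; rfl
    · have e1 : pv c = c - 2 := by unfold pv; rw [if_neg h0, if_neg h1]
      rw [e1]
      unfold nx
      rw [if_pos (by omega)]
      omega

/-- the shift of the columns -/
def sf (c : ℕ → ℕ) (p : ℕ) : ℕ := Nat.pair (c p.unpair.1) p.unpair.2

/-- the shift, as a homeomorphism of the Cantor space -/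
def shf : Equiv.Perm (ℕ → Bool) where
  toFun Z := fun p => Z (sf nx p)
  invFun Z := fun p => Z (sf pv p)
  left_inv Z := by
    funext p
    simp [sf, nx_pv]
  right_inv Z := by
    funext p
    simp [sf, pv_nx]

theorem primrec_nx : Primrec nx := by
  unfold nx
  refine Primrec.ite ?_ (Primrec.nat_add.comp Primrec.id (Primrec.const 2)) (Primrec.ite ?_
    (Primrec.const 0) (Primrec.nat_sub.comp Primrec.id (Primrec.const 2)))
  · exact Primrec.eq.comp (Primrec.nat_mod.comp Primrec.id (Primrec.const 2)) (Primrec.const 0)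
  · exact Primrec.eq.comp Primrec.id (Primrec.const 1)

theorem primrec_pv : Primrec pv := by
  unfold pv
  refine Primrec.ite ?_ (Primrec.nat_add.comp Primrec.id (Primrec.const 2)) (Primrec.ite ?_
    (Primrec.const 1) (Primrec.nat_sub.comp Primrec.id (Primrec.const 2)))
  · exact Primrec.eq.comp (Primrec.nat_mod.comp Primrec.id (Primrec.const 2)) (Primrec.const 1)
  · exact Primrec.eq.comp Primrec.id (Primrec.const 0)

theorem primrec_sf {c : ℕ → ℕ} (hc : Primrec c) : Primrec (sf c) :=
  Primrec₂.natPair.comp (hc.comp (Primrec.fst.comp Primrec.unpair))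
    (Primrec.snd.comp Primrec.unpair)

theorem CH_shf : CH shf := by
  have hd : ∀ c : ℕ → ℕ, Primrec c →
      Computable₂ fun (n : ℕ) (q : List Bool) => q.getD (sf c n) false := fun c hc =>
    ((Primrec.list_getD false).comp Primrec.snd ((primrec_sf hc).comp Primrec.fst)).to_comp
  have hu : ∀ c : ℕ → ℕ, Primrec c → Computable fun n : ℕ => sf c n + 1 := fun c hc =>
    (Primrec.succ.comp (primrec_sf hc)).to_comp
  refine CH_of shf (hd nx primrec_nx) (hu nx primrec_nx) ?_ (hd pv primrec_pv)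
    (hu pv primrec_pv) ?_
  · intro X n
    rw [pre_getD X _ _ false (by omega)]
    rfl
  · intro X n
    rw [pre_getD X _ _ false (by omega)]
    rfl

/-- the orbit of `X` under `f` (forward) and `g` (backward), as one set -/
def orb (f g : (ℕ → Bool) → ℕ → Bool) (X : ℕ → Bool) : ℕ → Bool := fun p =>
  if p.unpair.1 % 2 = 0 then f^[p.unpair.1 / 2] X p.unpair.2
  else g^[p.unpair.1 / 2 + 1] X p.unpair.2

theorem orb_link {f g : (ℕ → Bool) → ℕ → Bool} {X Y : ℕ → Bool} (h1 : Y = f X) (h2 : X = g Y) :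
    orb f g Y = shf (orb f g X) := by
  funext p
  show orb f g Y p = orb f g X (sf nx p)
  unfold orb sf
  rw [Nat.unpair_pair]
  simp only
  by_cases hp : p.unpair.1 % 2 = 0
  · have e1 : nx p.unpair.1 = p.unpair.1 + 2 := by unfold nx; rw [if_pos hp]
    have e2 : (p.unpair.1 + 2) % 2 = 0 := by omega
    have e3 : (p.unpair.1 + 2) / 2 = p.unpair.1 / 2 + 1 := by omega
    rw [if_pos hp, e1, if_pos e2, e3, Function.iterate_succ_apply, ← h1]
  · by_cases h0 : p.unpair.1 = 1
    · have e1 : nx p.unpair.1 = 0 := by unfold nx; rw [if_neg hp, if_pos h0]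
      rw [if_neg hp, e1, h0]
      simp [← h2]
    · have e1 : nx p.unpair.1 = p.unpair.1 - 2 := by unfold nx; rw [if_neg hp, if_neg h0]
      have e2 : ¬ (p.unpair.1 - 2) % 2 = 0 := by omega
      have e3 : p.unpair.1 / 2 + 1 = ((p.unpair.1 - 2) / 2 + 1) + 1 := by omega
      rw [if_neg hp, e1, if_neg e2, e3, Function.iterate_succ_apply, ← h2]

theorem le_orb (f g : (ℕ → Bool) → ℕ → Bool) (X : ℕ → Bool) : TLe X (orb f g X) := by
  have hf : Computable fun n : ℕ => Nat.pair 0 n :=
    (Primrec₂.natPair.comp (Primrec.const 0) Primrec.id).to_comp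
  refine tLe_of_computable hf fun n => ?_
  unfold orb
  simp

theorem tt_orb {f g : (ℕ → Bool) → ℕ → Bool} (hf : TTm f) (hg : TTm g) : TTm (orb f g) := by
  obtain ⟨δ, u, hδ, hu, e⟩ := hf
  obtain ⟨δ', u', hδ', hu', e'⟩ := hg
  obtain ⟨V, G, hV, hG, h⟩ := exists_VG hδ hu e
  obtain ⟨V', G', hV', hG', h'⟩ := exists_VG hδ' hu' e'
  obtain ⟨A, B, hA, hB, hAB⟩ := CF.iterate hV hG h
  obtain ⟨A', B', hA', hB', hAB'⟩ := CF.iterate hV' hG' h'
  have q1 : Primrec fun p : ℕ => (p.unpair.1 / 2, p.unpair.2 + 1) :=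
    (Primrec.nat_div.comp (Primrec.fst.comp Primrec.unpair) (Primrec.const 2)).pair
      (Primrec.succ.comp (Primrec.snd.comp Primrec.unpair))
  have q2 : Primrec fun p : ℕ => (p.unpair.1 / 2 + 1, p.unpair.2 + 1) :=
    (Primrec.succ.comp (Primrec.nat_div.comp (Primrec.fst.comp Primrec.unpair)
      (Primrec.const 2))).pair (Primrec.succ.comp (Primrec.snd.comp Primrec.unpair))
  have hev : Primrec fun p : ℕ => decide (p.unpair.1 % 2 = 0) := by
    have : PrimrecPred fun p : ℕ => p.unpair.1 % 2 = 0 :=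
      Primrec.eq.comp (Primrec.nat_mod.comp (Primrec.fst.comp Primrec.unpair) (Primrec.const 2))
        (Primrec.const 0)
    exact this.decide
  have hgd : Computable₂ fun (l : List Bool) (n : ℕ) => l.getD n false :=
    (Primrec.list_getD false).to_comp
  refine ⟨fun p σ => bif decide (p.unpair.1 % 2 = 0) then
      (B ((p.unpair.1 / 2, p.unpair.2 + 1), σ.take (A (p.unpair.1 / 2, p.unpair.2 + 1)))).getD
        p.unpair.2 false
    else (B' ((p.unpair.1 / 2 + 1, p.unpair.2 + 1),
      σ.take (A' (p.unpair.1 / 2 + 1, p.unpair.2 + 1)))).getD p.unpair.2 false,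
    fun p => A (p.unpair.1 / 2, p.unpair.2 + 1) + A' (p.unpair.1 / 2 + 1, p.unpair.2 + 1),
    ?_, ?_, ?_⟩
  · have htk : Computable₂ fun (n : ℕ) (l : List Bool) => l.take n :=
      (Primrec.list_take (α := Bool)).to_comp
    refine Computable.cond (hev.to_comp.comp Computable.fst) ?_ ?_
    · refine hgd.comp (hB.comp (Computable.pair (q1.to_comp.comp Computable.fst) ?_))
        ((Primrec.snd.comp Primrec.unpair).to_comp.comp Computable.fst)
      exact htk.comp ((hA.comp q1.to_comp).comp Computable.fst) Computable.snd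
    · refine hgd.comp (hB'.comp (Computable.pair (q2.to_comp.comp Computable.fst) ?_))
        ((Primrec.snd.comp Primrec.unpair).to_comp.comp Computable.fst)
      exact htk.comp ((hA'.comp q2.to_comp).comp Computable.fst) Computable.snd
  · have hadd : Computable₂ fun a b : ℕ => a + b := Primrec.nat_add.to_comp
    exact hadd.comp (hA.comp q1.to_comp) (hA'.comp q2.to_comp)
  · intro X p
    unfold orb
    by_cases hp : p.unpair.1 % 2 = 0
    · rw [if_pos hp]
      simp only [hp, decide_true, cond_true]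
      rw [take_pre X _ _ (Nat.le_add_right _ _), ← hAB, pre_getD _ _ _ _ (by omega)]
    · rw [if_neg hp]
      simp only [hp, decide_false, cond_false]
      rw [take_pre X _ _ (Nat.le_add_left _ _), ← hAB', pre_getD _ _ _ _ (by omega)]

/-- the theorem on pairs of truth-table reductions -/
theorem main_pair {f g : (ℕ → Bool) → ℕ → Bool} (hf : TTm f) (hg : TTm g) :
    ∃ e : ℕ, PostIndex e ∧ ∀ X Y : ℕ → Bool, Y = f X → X = g Y →
      TLe (chr (WE X e)) (chr (WE Y e)) ∧ TLe (chr (WE Y e)) (chr (WE X e)) := by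
  obtain ⟨e, he, hinv⟩ := main CH_shf
  obtain ⟨e', he', h⟩ := transfer (tt_orb hf hg) (le_orb f g) he
  refine ⟨e', he', fun X Y h1 h2 => ?_⟩
  rw [h X, h Y, orb_link h1 h2]
  have := hinv 1 (orb f g X)
  rwa [zpow_one] at this

end Pool.Agent.U35.ZA
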