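import Pool.Agent.H869R3.LF.Op

set_option autoImplicit false

/-!
A solution to Post's problem which is built from approximations to finite classes of oracles.
-/

namespace Pool.Agent.U35.ZA

open Encodable Pool.Agent.Helper227
open Pool.Agent.H548R2.Post (hlt En res jn En_iff_res res_le_of_hlt mem_WE_iff En_mono
  exists_hlt_iff)
open Nat.Partrec (Code)

/-- `Cl s n X` is the class of `X` at stage `s` and level `n` -/
structure CS (Cl : ℕ → ℕ → (ℕ → Bool) → Set (ℕ → Bool)) : Prop where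
  self : ∀ s n X, X ∈ Cl s n X
  stable : ∀ n X, ∃ (s0 : ℕ) (C : Set (ℕ → Bool)), C.Finite ∧ X ∈ C ∧ ∀ s ≥ s0, ∀ Y ∈ C,
    Cl s n Y = C

/-- the element which is treated at stage `s` -/
def el (s : ℕ) : ℕ := s.unpair.1

/-- the level which is treated at stage `s` -/
def lv (s : ℕ) : ℕ := (el s).unpair.1

/-- `z` may be put into the set for the sake of the `n`-th requirement. -/
def Good (Cl : ℕ → ℕ → (ℕ → Bool) → Set (ℕ → Bool)) (a : (ℕ → Bool) → List ℕ) (s n z : ℕ)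
    (X : ℕ → Bool) : Prop :=
  (∀ Y ∈ Cl s n X, z ∉ a Y ∧ ∀ e < n, res s e (jn Y (a Y)) ≤ z) ∧
    ∃ Y ∈ Cl s n X, En s n z Y ∧ ∀ y ∈ a Y, ¬ En s n y Y

open Classical in
/-- The elements put in before stage `s`. -/
noncomputable def A (Cl : ℕ → ℕ → (ℕ → Bool) → Set (ℕ → Bool)) : ℕ → (ℕ → Bool) → List ℕ
  | 0, _ => []
  | s + 1, X => if Good Cl (A Cl s) s (lv s) (el s) X then el s :: A Cl s X else A Cl s X

open Classical in
/-- The operator: the join of `X` with the set of all elements put in. -/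
noncomputable def WB (Cl : ℕ → ℕ → (ℕ → Bool) → Set (ℕ → Bool)) (X : ℕ → Bool) : ℕ → Bool :=
  fun m => if m % 2 = 0 then X (m / 2) else decide (∃ s, m / 2 ∈ A Cl s X)

section
variable {Cl : ℕ → ℕ → (ℕ → Bool) → Set (ℕ → Bool)}

/-- `X` acts at stage `s` -/
def Act (Cl : ℕ → ℕ → (ℕ → Bool) → Set (ℕ → Bool)) (s : ℕ) (X : ℕ → Bool) : Prop :=
  Good Cl (A Cl s) s (lv s) (el s) X

theorem mem_A_succ {s z : ℕ} {X : ℕ → Bool} :
    z ∈ A Cl (s + 1) X ↔ z ∈ A Cl s X ∨ (Act Cl s X ∧ z = el s) := by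
  classical
  show z ∈ (if Good Cl (A Cl s) s (lv s) (el s) X then el s :: A Cl s X else A Cl s X) ↔ _
  unfold Act
  split_ifs with h
  · rw [List.mem_cons]
    constructor
    · rintro (h1 | h1)
      · exact Or.inr ⟨h, h1⟩
      · exact Or.inl h1
    · rintro (h1 | ⟨_, h1⟩)
      · exact Or.inr h1
      · exact Or.inl h1
  · constructor
    · exact Or.inl
    · rintro (h1 | ⟨h1, _⟩)
      · exact h1
      · exact absurd h1 h

theorem A_mono {s s' : ℕ} (h : s ≤ s') {X : ℕ → Bool} {z : ℕ} (hz : z ∈ A Cl s X) :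
    z ∈ A Cl s' X := by
  induction h with
  | refl => exact hz
  | step _ ih => exact mem_A_succ.2 (Or.inl ih)

theorem mem_A_iff {s z : ℕ} {X : ℕ → Bool} : z ∈ A Cl s X ↔ ∃ t < s, Act Cl t X ∧ z = el t := by
  induction s with
  | zero => simp [A]
  | succ s ih =>
    rw [mem_A_succ, ih]
    constructor
    · rintro (⟨t, h1, h2⟩ | h)
      · exact ⟨t, by omega, h2⟩
      · exact ⟨s, by omega, h⟩
    · rintro ⟨t, h1, h2⟩
      rcases Nat.lt_succ_iff_lt_or_eq.1 h1 with h | h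
      · exact Or.inl ⟨t, h, h2⟩
      · rw [h] at h2
        exact Or.inr h2

theorem WB_even (X : ℕ → Bool) (m : ℕ) : WB Cl X (2 * m) = X m := by
  unfold WB
  have h1 : 2 * m % 2 = 0 := by omega
  have h2 : 2 * m / 2 = m := by omega
  simp only [h1, h2, if_true]

theorem WB_odd (X : ℕ → Bool) (m : ℕ) : WB Cl X (2 * m + 1) = true ↔ ∃ s, m ∈ A Cl s X := by
  unfold WB
  have h1 : ¬ ((2 * m + 1) % 2 = 0) := by omega
  have h2 : (2 * m + 1) / 2 = m := by omega
  rw [if_neg h1, @decide_eq_true_iff _ (Classical.propDecidable _), h2]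

theorem Good_congr {a : (ℕ → Bool) → List ℕ} {s n z : ℕ} {X Y : ℕ → Bool}
    (h : Cl s n X = Cl s n Y) : Good Cl a s n z X ↔ Good Cl a s n z Y := by
  unfold Good
  rw [h]

theorem Act_congr {s : ℕ} {X Y : ℕ → Bool} (h : Cl s (lv s) X = Cl s (lv s) Y) :
    Act Cl s X ↔ Act Cl s Y := Good_congr h

/-- each requirement acts only finitely often -/
theorem act_finite (hC : CS Cl) (X : ℕ → Bool) (n : ℕ) : {s | lv s = n ∧ Act Cl s X}.Finite := by
  classical
  obtain ⟨s0, C, hfin, hX, hst⟩ := hC.stable n X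
  have h2 : {s | s0 ≤ s ∧ lv s = n ∧ Act Cl s X}.Finite := by
    have key : ∀ s, ∃ Y, s ∈ {s | s0 ≤ s ∧ lv s = n ∧ Act Cl s X} →
        Y ∈ C ∧ En s n (el s) Y ∧ ∀ y ∈ A Cl s Y, ¬ En s n y Y := by
      intro s
      by_cases hs : s ∈ {s | s0 ≤ s ∧ lv s = n ∧ Act Cl s X}
      · obtain ⟨h1, h2, h3⟩ := hs
        obtain ⟨-, Y, hY, h4, h5⟩ := h3
        rw [h2] at hY h4 h5
        rw [hst s h1 X hX] at hY
        exact ⟨Y, fun _ => ⟨hY, h4, h5⟩⟩
      · exact ⟨X, fun h => absurd h hs⟩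
    choose f hf using key
    have hlt' : ∀ s s', s ∈ {s | s0 ≤ s ∧ lv s = n ∧ Act Cl s X} →
        s' ∈ {s | s0 ≤ s ∧ lv s = n ∧ Act Cl s X} → s < s' → f s ≠ f s' := by
      intro s s' hs hs' hss he
      obtain ⟨hk, h3, -⟩ := hf s hs
      obtain ⟨-, -, h4'⟩ := hf s' hs'
      have h5 : Act Cl s (f s) := by
        refine (Act_congr ?_).1 hs.2.2
        rw [hs.2.1, hst s hs.1 X hX, hst s hs.1 _ hk]
      have h6 : el s ∈ A Cl (s + 1) (f s) := mem_A_succ.2 (Or.inr ⟨h5, rfl⟩)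
      have h7 : el s ∈ A Cl s' (f s) := A_mono hss h6
      have h8 : En s' n (el s) (f s) := En_mono hss.le h3
      rw [he] at h7 h8
      exact h4' _ h7 h8
    have hinj : Set.InjOn f {s | s0 ≤ s ∧ lv s = n ∧ Act Cl s X} := by
      intro s hs s' hs' he
      by_contra hne
      rcases lt_or_gt_of_ne hne with h | h
      · exact hlt' s s' hs hs' h he
      · exact hlt' s' s hs' hs h he.symm
    exact Set.Finite.of_injOn (fun s hs => (hf s hs).1) hinj hfin
  refine ((Set.finite_Iio s0).union h2).subset ?_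
  rintro s ⟨h3, h4⟩
  rcases lt_or_ge s s0 with h | h
  · exact Or.inl h
  · exact Or.inr ⟨h, h3, h4⟩

theorem act_eventually (hC : CS Cl) (X : ℕ → Bool) (e : ℕ) :
    ∃ s0, ∀ s ≥ s0, lv s ≤ e → ¬ Act Cl s X := by
  have hfin : (⋃ n ∈ Finset.range (e + 1), {s | lv s = n ∧ Act Cl s X}).Finite :=
    Set.Finite.biUnion (Finset.finite_toSet _) fun n _ => act_finite hC X n
  obtain ⟨b, hb⟩ := hfin.bddAbove
  refine ⟨b + 1, fun s hs hn hA => ?_⟩
  have h3 : s ∈ ⋃ n ∈ Finset.range (e + 1), {s | lv s = n ∧ Act Cl s X} := by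
    simp only [Set.mem_iUnion]
    exact ⟨lv s, Finset.mem_range.2 (by omega), rfl, hA⟩
  have h4 := hb h3
  omega

/-- the part of the set in a column is finite -/
theorem col_finite (hC : CS Cl) (X : ℕ → Bool) (n : ℕ) :
    {z | z.unpair.1 = n ∧ ∃ s, z ∈ A Cl s X}.Finite := by
  refine ((act_finite hC X n).image el).subset ?_
  rintro z ⟨h1, s, hs⟩
  obtain ⟨t, _, h2, h3⟩ := mem_A_iff.1 hs
  refine ⟨t, ⟨?_, h2⟩, h3.symm⟩
  unfold lv
  rw [← h3, h1]

theorem jn_stable (X : ℕ → Bool) (b : ℕ) :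
    ∃ s0, ∀ s ≥ s0, ∀ i < b, jn X (A Cl s X) i = WB Cl X i := by
  induction b with
  | zero => exact ⟨0, fun s _ i hi => absurd hi (Nat.not_lt_zero _)⟩
  | succ b ih =>
    obtain ⟨s0, hs0⟩ := ih
    obtain ⟨s1, hs1⟩ : ∃ s1, ∀ s ≥ s1, jn X (A Cl s X) b = WB Cl X b := by
      unfold jn WB
      by_cases hb : b % 2 = 0
      · exact ⟨0, fun s _ => by rw [if_pos hb, if_pos hb]⟩
      · by_cases hex : ∃ s, b / 2 ∈ A Cl s X
        · obtain ⟨s1, h1⟩ := hex
          refine ⟨s1, fun s hs => ?_⟩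
          have h2 : ∃ s, b / 2 ∈ A Cl s X := ⟨s1, h1⟩
          simp only [if_neg hb, A_mono hs h1, h2, decide_true]
        · refine ⟨0, fun s _ => ?_⟩
          have h2 : ¬ b / 2 ∈ A Cl s X := fun h => hex ⟨s, h⟩
          simp only [if_neg hb, h2, hex, decide_false]
    refine ⟨max s0 s1, fun s hs i hi => ?_⟩
    rcases Nat.lt_succ_iff_lt_or_eq.1 hi with h | h
    · exact hs0 s (le_trans (le_max_left _ _) hs) i h
    · rw [h]
      exact hs1 s (le_trans (le_max_right _ _) hs)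

theorem hlt_succ {s e z : ℕ} {σ : List Bool} (h1 : hlt s e z σ = true) :
    hlt (s + 1) e z σ = true := by
  unfold hlt at h1 ⊢
  rw [Option.isSome_iff_exists] at h1 ⊢
  obtain ⟨x, hx⟩ := h1
  exact ⟨x, Code.evaln_mono (Nat.le_succ s) hx⟩

/-- once the requirements up to `e` are silent, a halting computation is preserved -/
theorem res_step (hC : CS Cl) (X : ℕ → Bool) {s e : ℕ} (h0 : lv s ≤ e → ¬ Act Cl s X)
    (h : En s e e (jn X (A Cl s X))) :
    En (s + 1) e e (jn X (A Cl (s + 1) X)) ∧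
      res (s + 1) e (jn X (A Cl (s + 1) X)) ≤ res s e (jn X (A Cl s X)) := by
  have h1 := En_iff_res.1 h
  have hr := Pool.Agent.H869R3.LF.t15_res_le s e (jn X (A Cl s X))
  have hpre : pre (jn X (A Cl (s + 1) X)) (res s e (jn X (A Cl s X))) =
      pre (jn X (A Cl s X)) (res s e (jn X (A Cl s X))) := by
    unfold pre
    apply List.map_congr_left
    intro i hi
    rw [List.mem_range] at hi
    unfold jn
    by_cases h2 : i % 2 = 0
    · rw [if_pos h2, if_pos h2]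
    · rw [if_neg h2, if_neg h2]
      apply decide_eq_decide.2
      constructor
      · intro hz
        rcases mem_A_succ.1 hz with hz | ⟨hA, hn2⟩
        · exact hz
        · exfalso
          have hne : e < lv s := by
            by_contra hcon
            exact h0 (by omega) hA
          have hg := (hA.1 X (hC.self _ _ _)).2 e hne
          omega
      · intro hz
        exact mem_A_succ.2 (Or.inl hz)
  have h3 : hlt (s + 1) e e (pre (jn X (A Cl (s + 1) X)) (res s e (jn X (A Cl s X)))) = true := by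
    rw [hpre]
    exact hlt_succ h1
  exact ⟨⟨_, by omega, h3⟩, res_le_of_hlt (by omega) h3⟩

theorem res_bounded (hC : CS Cl) (X : ℕ → Bool) (e : ℕ) :
    ∃ b, ∀ s, res s e (jn X (A Cl s X)) ≤ b := by
  obtain ⟨s0, h0⟩ := act_eventually hC X e
  by_cases hCc : ∃ s1, s0 ≤ s1 ∧ En s1 e e (jn X (A Cl s1 X))
  · obtain ⟨s1, hs1, hE⟩ := hCc
    have key : ∀ k, En (s1 + k) e e (jn X (A Cl (s1 + k) X)) ∧
        res (s1 + k) e (jn X (A Cl (s1 + k) X)) ≤ res s1 e (jn X (A Cl s1 X)) := by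
      intro k
      induction k with
      | zero => exact ⟨hE, le_rfl⟩
      | succ k ih =>
        have := res_step hC X (s := s1 + k) (e := e) (h0 (s1 + k) (by omega)) ih.1
        exact ⟨this.1, this.2.trans ih.2⟩
    refine ⟨s1, fun s => ?_⟩
    rcases le_total s1 s with h | h
    · obtain ⟨k, rfl⟩ := Nat.exists_eq_add_of_le h
      exact (key k).2.trans (Pool.Agent.H869R3.LF.t15_res_le _ _ _)
    · exact (Pool.Agent.H869R3.LF.t15_res_le _ _ _).trans h
  · refine ⟨s0, fun s => ?_⟩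
    rcases le_total s0 s with h | h
    · rw [Pool.Agent.H869R3.LF.t15_res_zero (fun hE => hCc ⟨s, h, hE⟩)]
      exact Nat.zero_le _
    · exact (Pool.Agent.H869R3.LF.t15_res_le _ _ _).trans h

theorem hlt_mono {s s' : ℕ} (h : s ≤ s') {e z : ℕ} {σ : List Bool}
    (h1 : hlt s e z σ = true) : hlt s' e z σ = true := by
  unfold hlt at h1 ⊢
  rw [Option.isSome_iff_exists] at h1 ⊢
  obtain ⟨a, ha⟩ := h1
  exact ⟨a, Code.evaln_mono h ha⟩

theorem jump_true (X : ℕ → Bool) (e : ℕ)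
    (h : jump (WB Cl X) e = true) : ∃ s0, ∀ s ≥ s0, En s e e (jn X (A Cl s X)) := by
  rw [jump_eq_true] at h
  obtain ⟨k, hk⟩ := h
  obtain ⟨s1, hs1⟩ := (exists_hlt_iff e e _).2 hk
  obtain ⟨s2, hs2⟩ := jn_stable (Cl := Cl) X k
  refine ⟨max (max s1 s2) k, fun s hs => ⟨k, (le_max_right _ _).trans hs, ?_⟩⟩
  have h1 : s1 ≤ s := ((le_max_left s1 s2).trans (le_max_left _ _)).trans hs
  have h2 : s2 ≤ s := ((le_max_right s1 s2).trans (le_max_left _ _)).trans hs
  have h3 : pre (jn X (A Cl s X)) k = (List.range k).map (WB Cl X) := by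
    unfold pre
    refine List.map_congr_left fun i hi => ?_
    exact hs2 s h2 i (List.mem_range.1 hi)
  rw [h3]
  exact hlt_mono h1 hs1

theorem jump_false (hC : CS Cl) (X : ℕ → Bool) (e : ℕ)
    (h : jump (WB Cl X) e = false) : ∃ s0, ∀ s ≥ s0, ¬ En s e e (jn X (A Cl s X)) := by
  obtain ⟨s0, hs0⟩ := act_eventually hC X e
  refine ⟨s0, ?_⟩
  intro s1 hs1 hEn
  have hind : ∀ s ≥ s1, En s e e (jn X (A Cl s X)) ∧
      res s e (jn X (A Cl s X)) ≤ res s1 e (jn X (A Cl s1 X)) := by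
    intro s hs
    induction s, hs using Nat.le_induction with
    | base => exact ⟨hEn, le_rfl⟩
    | succ s hs ih =>
      obtain ⟨h1, h2⟩ := res_step hC X (hs0 s (le_trans hs1 hs)) ih.1
      exact ⟨h1, h2.trans ih.2⟩
  obtain ⟨s2, hs2⟩ := jn_stable (Cl := Cl) X (res s1 e (jn X (A Cl s1 X)))
  obtain ⟨h1, h2⟩ := hind (max s1 s2) (le_max_left _ _)
  have h3 := En_iff_res.mp h1
  have h4 : pre (jn X (A Cl (max s1 s2) X))
      (res (max s1 s2) e (jn X (A Cl (max s1 s2) X))) =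
      pre (WB Cl X) (res (max s1 s2) e (jn X (A Cl (max s1 s2) X))) := by
    unfold pre
    apply List.map_congr_left
    intro i hi
    rw [List.mem_range] at hi
    exact hs2 _ (le_max_right _ _) i (lt_of_lt_of_le hi h2)
  rw [h4] at h3
  have h5 : jump (WB Cl X) e = true :=
    jump_eq_true.mpr ⟨_, (exists_hlt_iff e e _).mp ⟨_, h3⟩⟩
  rw [h] at h5
  exact Bool.false_ne_true h5

/-- the complement of the set is not c.e. in `X` -/
theorem not_compl (hC : CS Cl) (X : ℕ → Bool) (n : ℕ)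
    (h : WE X n = {z | ¬ ∃ s, z ∈ A Cl s X}) : False := by
  classical
  obtain ⟨s0, C, hfin, hX, hst⟩ := hC.stable n X
  have hb : ∀ (e : ℕ) (Y : ℕ → Bool), ∃ b, ∀ s, res s e (jn Y (A Cl s Y)) ≤ b :=
    fun e Y => res_bounded hC Y e
  choose b hb using hb
  obtain ⟨B, hB⟩ : ∃ B, ∀ Y ∈ C, ∀ e < n, b e Y ≤ B := by
    refine ⟨∑ Y ∈ hfin.toFinset, ∑ e ∈ Finset.range n, b e Y, fun Y hY e he => ?_⟩
    have h1 : b e Y ≤ ∑ e ∈ Finset.range n, b e Y :=
      Finset.single_le_sum (f := fun e => b e Y) (fun _ _ => Nat.zero_le _)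
        (Finset.mem_range.2 he)
    have h2 : ∑ e ∈ Finset.range n, b e Y ≤
        ∑ Y ∈ hfin.toFinset, ∑ e ∈ Finset.range n, b e Y :=
      Finset.single_le_sum (f := fun Y => ∑ e ∈ Finset.range n, b e Y)
        (fun _ _ => Nat.zero_le _) (hfin.mem_toFinset.2 hY)
    exact h1.trans h2
  have hbad : (⋃ Y ∈ C, {z | z.unpair.1 = n ∧ ∃ s, z ∈ A Cl s Y}).Finite :=
    hfin.biUnion fun Y _ => col_finite hC Y n
  obtain ⟨D, hD⟩ := hbad.bddAbove
  obtain ⟨z, hz⟩ : ∃ z, z = Nat.pair n (max B D + 1) := ⟨_, rfl⟩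
  have hz1 : z.unpair.1 = n := by rw [hz, Nat.unpair_pair]
  have hz2 : max B D + 1 ≤ z := by rw [hz]; exact Nat.right_le_pair _ _
  have hnot : ∀ Y ∈ C, ¬ ∃ s, z ∈ A Cl s Y := by
    intro Y hY hex
    have : z ∈ ⋃ Y ∈ C, {z | z.unpair.1 = n ∧ ∃ s, z ∈ A Cl s Y} := by
      simp only [Set.mem_iUnion]
      exact ⟨Y, hY, hz1, hex⟩
    have := hD this
    omega
  have hW : z ∈ WE X n := by
    rw [h]
    exact hnot X hX
  obtain ⟨s1, hs1⟩ := (mem_WE_iff X n z).1 hW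
  obtain ⟨s, hs⟩ : ∃ s, s = Nat.pair z (max s0 s1) := ⟨_, rfl⟩
  have e1 : el s = z := by unfold el; rw [hs, Nat.unpair_pair]
  have e2 : lv s = n := by unfold lv; rw [e1, hz1]
  have e3 : max s0 s1 ≤ s := by rw [hs]; exact Nat.right_le_pair _ _
  have hAct : Act Cl s X := by
    unfold Act
    rw [e1, e2]
    refine ⟨?_, X, ?_, ?_, ?_⟩
    · rw [hst s (by omega) X hX]
      intro Y hY
      refine ⟨fun hc => hnot Y hY ⟨s, hc⟩, fun e he => (hb e Y s).trans ((hB Y hY e he).trans ?_)⟩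
      omega
    · exact hC.self _ _ _
    · exact En_mono (by omega) hs1
    · intro y hy hEn
      have h3 : y ∈ WE X n := (mem_WE_iff X n y).2 ⟨s, hEn⟩
      rw [h] at h3
      exact h3 ⟨s, hy⟩
  exact hnot X hX ⟨s + 1, mem_A_succ.2 (Or.inr ⟨hAct, e1.symm⟩)⟩

theorem le_WB (X : ℕ → Bool) : TLe X (WB Cl X) := by
  have hf : Computable fun n : ℕ => 2 * n :=
    (Primrec.nat_mul.comp (Primrec.const 2) Primrec.id).to_comp
  refine tLe_of_computable hf fun n => ?_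
  rw [WB_even]

theorem not_WB_le (hC : CS Cl) (X : ℕ → Bool) : ¬ TLe (WB Cl X) X := by
  intro h
  have h1 : SI X (fun x : ℕ × Bool => WB Cl X x.1 = x.2) := tLe_iff_SI.1 h
  have hf : Primrec (fun z : ℕ => ((2 * z + 1, false) : ℕ × Bool)) := by
    refine Primrec.pair ?_ (Primrec.const false)
    exact Primrec.nat_add.comp (Primrec.nat_mul.comp (Primrec.const 2) Primrec.id) (Primrec.const 1)
  have h2 : SI X (fun z : ℕ => WB Cl X (2 * z + 1) = false) := h1.comp hf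
  have h3 : SI X (fun z : ℕ => z ∈ {z | ¬ ∃ s, z ∈ A Cl s X}) := by
    refine h2.of_eq fun z => ?_
    rw [Set.mem_ofPred_eq, ← WB_odd, Bool.not_eq_true]
  obtain ⟨n, hn⟩ := ceIn_iff_exists_WE.1 (SI.iff_ceIn.2 h3)
  exact not_compl hC X n hn.symm

/-- invariance -/
theorem WB_le (hC : CS Cl) {X Y : ℕ → Bool} (hYX : TLe Y (WB Cl X)) {N : ℕ} {M : ℕ → ℕ → Prop}
    (hM : SI (WB Cl X) fun x : ℕ × ℕ => M x.1 x.2) (hM1 : ∀ n ≥ N, ∃ m, M n m)
    (hM2 : ∀ n ≥ N, ∀ m, M n m → ∀ s ≥ m, Cl s n X = Cl s n Y)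
    (hAX : SI (WB Cl X) fun x : ℕ × ℕ => x.1 ∈ A Cl x.2 X)
    (hAX' : SI (WB Cl X) fun x : ℕ × ℕ => ¬ x.1 ∈ A Cl x.2 X)
    (hAY : SI (WB Cl X) fun x : ℕ × ℕ => x.1 ∈ A Cl x.2 Y)
    (hAY' : SI (WB Cl X) fun x : ℕ × ℕ => ¬ x.1 ∈ A Cl x.2 Y) : TLe (WB Cl Y) (WB Cl X) := by
  classical
  have hfin : (⋃ n ∈ Finset.range N, {z | z.unpair.1 = n ∧ ∃ s, z ∈ A Cl s Y}).Finite :=
    Set.Finite.biUnion (Finset.finite_toSet _) fun n _ => col_finite hC Y n
  let L : List ℕ := hfin.toFinset.toList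
  have hL : ∀ z, z.unpair.1 < N → (z ∈ L ↔ ∃ s, z ∈ A Cl s Y) := by
    intro z hz
    rw [Finset.mem_toList, hfin.mem_toFinset]
    simp only [Set.mem_iUnion]
    constructor
    · rintro ⟨n, _, _, h⟩
      exact h
    · intro h
      exact ⟨z.unpair.1, Finset.mem_range.2 hz, rfl, h⟩
  -- the oracle questions
  have qpos : SI (WB Cl X) fun z : ℕ => ∃ s, z ∈ A Cl s X := by
    have := SI.comp (f := fun z : ℕ => (2 * z + 1, true)) (SI.query (B := WB Cl X))
      (Primrec.pair (Primrec.nat_add.comp (Primrec.nat_mul.comp (Primrec.const 2) Primrec.id)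
        (Primrec.const 1)) (Primrec.const true))
    exact this.of_eq fun z => WB_odd X z
  have qneg : SI (WB Cl X) fun z : ℕ => ¬ ∃ s, z ∈ A Cl s X := by
    have := SI.comp (f := fun z : ℕ => (2 * z + 1, false)) (SI.query (B := WB Cl X))
      (Primrec.pair (Primrec.nat_add.comp (Primrec.nat_mul.comp (Primrec.const 2) Primrec.id)
        (Primrec.const 1)) (Primrec.const false))
    exact this.of_eq fun z => by rw [← WB_odd X z, Bool.not_eq_true]
  have main : ∀ z m, N ≤ z.unpair.1 → M z.unpair.1 m →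
      ((∃ s, z ∈ A Cl s Y) ↔ (z ∈ A Cl m Y ∨ (¬ z ∈ A Cl m X ∧ ∃ s, z ∈ A Cl s X))) := by
    intro z m hz hm
    have hcl : ∀ s ≥ m, el s = z → Cl s (lv s) X = Cl s (lv s) Y := by
      intro s hs he
      unfold lv
      rw [he]
      exact hM2 _ hz m hm s hs
    constructor
    · rintro ⟨s, hs⟩
      by_cases h1 : z ∈ A Cl m Y
      · exact Or.inl h1
      · right
        obtain ⟨t, _, h2, h3⟩ := mem_A_iff.1 hs
        have hmt : m ≤ t := by
          by_contra hcon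
          exact h1 (mem_A_iff.2 ⟨t, by omega, h2, h3⟩)
        have h4 : Act Cl t X := (Act_congr (hcl t hmt h3.symm)).2 h2
        refine ⟨fun h5 => ?_, t + 1, mem_A_succ.2 (Or.inr ⟨h4, h3⟩)⟩
        have h6 := (h4.1 X (hC.self _ _ _)).1
        rw [← h3] at h6
        exact h6 (A_mono hmt h5)
    · rintro (h1 | ⟨h1, s, hs⟩)
      · exact ⟨m, h1⟩
      · obtain ⟨t, _, h2, h3⟩ := mem_A_iff.1 hs
        have hmt : m ≤ t := by
          by_contra hcon
          exact h1 (mem_A_iff.2 ⟨t, by omega, h2, h3⟩)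
        have h4 : Act Cl t Y := (Act_congr (hcl t hmt h3.symm)).1 h2
        exact ⟨t + 1, mem_A_succ.2 (Or.inr ⟨h4, h3⟩)⟩
  have pcol : Primrec fun z : ℕ => z.unpair.1 := Primrec.fst.comp Primrec.unpair
  have plt : PrimrecPred fun z : ℕ => z.unpair.1 < N := Primrec.nat_lt.comp pcol (Primrec.const N)
  have pge : PrimrecPred fun z : ℕ => N ≤ z.unpair.1 := Primrec.nat_le.comp (Primrec.const N) pcol
  have pL : PrimrecPred fun z : ℕ => z ∈ L := by
    have := PP.ex_mem (α := ℕ) (β := ℕ) (f := fun _ => L) (p := fun a b => a = b)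
      (Primrec.eq.comp Primrec.fst Primrec.snd) (Primrec.const L)
    exact this.of_eq fun z => by simp
  have hi : Primrec fun x : ℕ × ℕ => (x.1.unpair.1, x.2) := (pcol.comp Primrec.fst).pair Primrec.snd
  have pos : SI (WB Cl X) fun z : ℕ => ∃ s, z ∈ A Cl s Y := by
    have h1 : SI (WB Cl X) fun z : ℕ => ∃ m, M z.unpair.1 m ∧
        (z ∈ A Cl m Y ∨ (¬ z ∈ A Cl m X ∧ ∃ s, z ∈ A Cl s X)) :=
      SI.ex (p := fun z m => M z.unpair.1 m ∧
        (z ∈ A Cl m Y ∨ (¬ z ∈ A Cl m X ∧ ∃ s, z ∈ A Cl s X)))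
        (SI.and (hM.comp hi) (SI.or hAY (SI.and hAX' (qpos.comp Primrec.fst))))
    refine (SI.or (SI.and (SI.of_prim plt) (SI.of_prim pL)) (SI.and (SI.of_prim pge) h1)).of_eq ?_
    intro z
    constructor
    · rintro (⟨h2, h3⟩ | ⟨h2, m, h3, h4⟩)
      · exact (hL z h2).1 h3
      · exact (main z m h2 h3).2 h4
    · intro h
      rcases lt_or_ge z.unpair.1 N with h2 | h2
      · exact Or.inl ⟨h2, (hL z h2).2 h⟩
      · obtain ⟨m, hm⟩ := hM1 _ h2
        exact Or.inr ⟨h2, m, hm, (main z m h2 hm).1 h⟩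
  have neg : SI (WB Cl X) fun z : ℕ => ¬ ∃ s, z ∈ A Cl s Y := by
    have h1 : SI (WB Cl X) fun z : ℕ => ∃ m, M z.unpair.1 m ∧
        (¬ z ∈ A Cl m Y ∧ (z ∈ A Cl m X ∨ ¬ ∃ s, z ∈ A Cl s X)) :=
      SI.ex (p := fun z m => M z.unpair.1 m ∧
        (¬ z ∈ A Cl m Y ∧ (z ∈ A Cl m X ∨ ¬ ∃ s, z ∈ A Cl s X)))
        (SI.and (hM.comp hi) (SI.and hAY' (SI.or hAX (qneg.comp Primrec.fst))))
    refine (SI.or (SI.and (SI.of_prim plt) (SI.of_prim (PrimrecPred.not pL)))
      (SI.and (SI.of_prim pge) h1)).of_eq ?_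
    intro z
    constructor
    · rintro (⟨h2, h3⟩ | ⟨h2, m, h3, h4, h5⟩)
      · exact fun h => h3 ((hL z h2).2 h)
      · intro h
        rcases (main z m h2 h3).1 h with h6 | ⟨h6, h7⟩
        · exact h4 h6
        · rcases h5 with h5 | h5
          · exact h6 h5
          · exact h5 h7
    · intro h
      rcases lt_or_ge z.unpair.1 N with h2 | h2
      · exact Or.inl ⟨h2, fun h3 => h ((hL z h2).1 h3)⟩
      · obtain ⟨m, hm⟩ := hM1 _ h2
        refine Or.inr ⟨h2, m, hm, fun h3 => h ⟨m, h3⟩, ?_⟩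
        by_contra hcon
        rw [not_or, not_not] at hcon
        exact h ((main z m h2 hm).2 (Or.inr hcon))
  rw [tLe_iff_SI]
  have pm : Primrec fun x : ℕ × Bool => x.1 % 2 := Primrec.nat_mod.comp Primrec.fst (Primrec.const 2)
  have pd : Primrec fun x : ℕ × Bool => x.1 / 2 := Primrec.nat_div.comp Primrec.fst (Primrec.const 2)
  have hY1 : SI (WB Cl X) fun x : ℕ × Bool => Y (x.1 / 2) = x.2 :=
    (tLe_iff_SI.1 hYX).comp (f := fun x : ℕ × Bool => (x.1 / 2, x.2)) (pd.pair Primrec.snd)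
  have f0 : SI (WB Cl X) fun x : ℕ × Bool => x.1 % 2 = 0 ∧ Y (x.1 / 2) = x.2 :=
    SI.and (SI.of_prim (Primrec.eq.comp pm (Primrec.const 0))) hY1
  have f1 : SI (WB Cl X) fun x : ℕ × Bool => (¬ x.1 % 2 = 0 ∧ x.2 = true) ∧
      ∃ s, x.1 / 2 ∈ A Cl s Y :=
    SI.and (SI.of_prim (PrimrecPred.and (PrimrecPred.not (Primrec.eq.comp pm (Primrec.const 0)))
      (Primrec.eq.comp Primrec.snd (Primrec.const true)))) (pos.comp pd)
  have f2 : SI (WB Cl X) fun x : ℕ × Bool => (¬ x.1 % 2 = 0 ∧ x.2 = false) ∧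
      ¬ ∃ s, x.1 / 2 ∈ A Cl s Y :=
    SI.and (SI.of_prim (PrimrecPred.and (PrimrecPred.not (Primrec.eq.comp pm (Primrec.const 0)))
      (Primrec.eq.comp Primrec.snd (Primrec.const false)))) (neg.comp pd)
  refine (SI.or f0 (SI.or f1 f2)).of_eq fun x => ?_
  obtain ⟨m, v⟩ := x
  unfold WB
  by_cases h1 : m % 2 = 0
  · simp [h1]
  · by_cases h2 : ∃ s, m / 2 ∈ A Cl s Y
    · cases v <;> simp [h1, h2]
    · cases v <;> simp [h1, h2]

end

end Pool.Agent.U35.ZA
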