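import Pool.Agent.U35.ZA.UA

set_option autoImplicit false

/-!
Solutions to Post's problem which are invariant under a computable homeomorphism.
-/

namespace Pool.Agent.U35.ZA

open Encodable Pool.Agent.Helper227
open Pool.Agent.H548R2.Post (En jn tLe_jump_of_limit chr not_jump_le)
open Pool.Agent.H869R3.RT (PostIndex)

section
variable {τ : Equiv.Perm (ℕ → Bool)} {F : ℕ → ℕ → (ℕ → Bool) → ℕ → ℕ → Prop}

theorem us_query : US fun X (x : ℕ × Bool) => X x.1 = x.2 := by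
  have h1 : S1 fun y : List Bool × (ℕ × Bool) => y.1.getD y.2.1 false = y.2.2 :=
    S1.of_prim (Primrec.eq.comp ((Primrec.list_getD false).comp Primrec.fst
      (Primrec.fst.comp Primrec.snd)) (Primrec.snd.comp Primrec.snd))
  have h2 := US.of_pre (V := fun x : ℕ × Bool => x.1 + 1) h1
    (Primrec.succ.comp Primrec.fst).to_comp
  refine h2.of_eq fun X x => ?_
  simp only [pre_getD X (x.1 + 1) x.1 false (by omega)]

theorem sh_le (hc : CH τ) (k l : ℕ) (X : ℕ → Bool) : TLe (sh τ k l X) X := by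
  rw [tLe_iff_SI]
  have h := US.sh' hc us_query (f := fun _ : ℕ × Bool => (k, l)) (g := fun x : ℕ × Bool => x)
    (Primrec.const (k, l)) Primrec.id
  exact h.to_si X

theorem stableCl (hF : FB τ F) : CS (Cl τ F) where
  self := fun s n X => self_mem_Cl hF s n X
  stable := fun n X => Cl_stable hF n X

theorem us_WB (hc : CH τ) (hF : FB τ F) : US fun X (m : ℕ) => WB (Cl τ F) X m = true := by
  have pm : Primrec fun x : ℕ => x % 2 := Primrec.nat_mod.comp Primrec.id (Primrec.const 2)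
  have pd : Primrec fun x : ℕ => x / 2 := Primrec.nat_div.comp Primrec.id (Primrec.const 2)
  have h1 : US fun X (m : ℕ) => m % 2 = 0 ∧ X (m / 2) = true :=
    US.and (US.of_prim (Primrec.eq.comp pm (Primrec.const 0)))
      (us_query.comp (f := fun m : ℕ => (m / 2, true)) (pd.pair (Primrec.const true)))
  have h2 : US fun X (m : ℕ) => ¬ m % 2 = 0 ∧ ∃ s, m / 2 ∈ A (Cl τ F) s X :=
    US.and (US.of_prim (PrimrecPred.not (Primrec.eq.comp pm (Primrec.const 0))))
      (US.ex (p := fun X (m : ℕ) (s : ℕ) => m / 2 ∈ A (Cl τ F) s X)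
        ((us_memA hc hF).1.comp (f := fun y : ℕ × ℕ => (y.1 / 2, y.2))
          ((pd.comp Primrec.fst).pair Primrec.snd)))
  refine (h1.or h2).of_eq fun X m => ?_
  unfold WB
  by_cases h : m % 2 = 0
  · simp [h]
  · by_cases h2 : ∃ s, m / 2 ∈ A (Cl τ F) s X
    · simp [h, h2]
    · simp [h, h2]

theorem WB_le_jump (hc : CH τ) (hF : FB τ F) (X : ℕ → Bool) : TLe (WB (Cl τ F) X) (jump X) := by
  have h0 : SI X fun m : ℕ => WB (Cl τ F) X m = true := (us_WB hc hF).to_si X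
  rw [tLe_iff_SI]
  obtain ⟨h2, h3⟩ := h0.decide_jump
  have h4 : SI (jump X) fun x : ℕ × Bool =>
      (WB (Cl τ F) X x.1 = true ∧ x.2 = true) ∨ (¬ WB (Cl τ F) X x.1 = true ∧ x.2 = false) := by
    refine SI.or (SI.and (h2.comp Primrec.fst) (SI.of_prim ?_))
      (SI.and (h3.comp (f := fun x : ℕ × Bool => x.1) Primrec.fst) (SI.of_prim ?_))
    · exact Primrec.eq.comp Primrec.snd (Primrec.const true)
    · exact Primrec.eq.comp Primrec.snd (Primrec.const false)
  refine h4.of_eq fun x => ?_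
  rcases x with ⟨n, b⟩
  cases b <;> simp

theorem low (hc : CH τ) (hF : FB τ F) (X : ℕ → Bool) :
    TLe (jump (WB (Cl τ F) X)) (jump X) := by
  have hC := stableCl hF
  have hi : Primrec fun z : (ℕ × ℕ) × List ℕ => (z.1.2, z.2) :=
    (Primrec.snd.comp Primrec.fst).pair Primrec.snd
  have h1 : US fun X (x : ℕ × ℕ) => En x.2 x.1 x.1 (jn X (A (Cl τ F) x.2 X)) := by
    refine (US.ex (p := fun X (x : ℕ × ℕ) (L : List ℕ) => A (Cl τ F) x.2 X = L ∧
      En x.2 x.1 x.1 (jn X L)) (US.and ((us_A hc hF).comp hi) us_EnJ)).of_eq fun X x => ?_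
    simp
  have h2 : US fun X (x : ℕ × ℕ) => ¬ En x.2 x.1 x.1 (jn X (A (Cl τ F) x.2 X)) := by
    refine (US.ex (p := fun X (x : ℕ × ℕ) (L : List ℕ) => A (Cl τ F) x.2 X = L ∧
      ¬ En x.2 x.1 x.1 (jn X L)) (US.and ((us_A hc hF).comp hi) us_nEnJ)).of_eq fun X x => ?_
    simp
  exact tLe_jump_of_limit (p := fun e s => En s e e (jn X (A (Cl τ F) s X))) (h1.to_si X)
    (h2.to_si X) (fun e he => jump_true X e he) (fun e he => jump_false hC X e he)

theorem WB_succ (hc : CH τ) (hF : FB τ F) (X : ℕ → Bool) :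
    TLe (WB (Cl τ F) (sh τ 1 0 X)) (WB (Cl τ F) X) ∧
      TLe (WB (Cl τ F) X) (WB (Cl τ F) (sh τ 1 0 X)) := by
  have hC := stableCl hF
  have hA := us_memA hc hF
  obtain ⟨N, M, hM, hM1, hM2⟩ := modulus hc hF X
  have e : sh τ 0 1 (sh τ 1 0 X) = X := by
    rw [sh_sh', sh_add_self (τ := τ) 1 0 0 X]
    exact sh_zero' X
  have l1 : TLe (sh τ 1 0 X) X := sh_le hc 1 0 X
  have l2 : TLe X (sh τ 1 0 X) := by
    have := sh_le hc 0 1 (sh τ 1 0 X)
    rwa [e] at this
  have w1 : TLe X (WB (Cl τ F) X) := le_WB X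
  have w2 : TLe (sh τ 1 0 X) (WB (Cl τ F) (sh τ 1 0 X)) := le_WB _
  constructor
  · have t1 : TLe (sh τ 1 0 X) (WB (Cl τ F) X) := TuringReducible.trans l1 w1
    exact WB_le hC t1 (hM.trans w1) hM1 hM2
      ((hA.1.to_si X).trans w1) ((hA.2.to_si X).trans w1)
      ((hA.1.to_si (sh τ 1 0 X)).trans t1) ((hA.2.to_si (sh τ 1 0 X)).trans t1)
  · have t2 : TLe X (WB (Cl τ F) (sh τ 1 0 X)) := TuringReducible.trans l2 w2
    exact WB_le hC t2 (hM.trans t2) hM1 (fun n hn m hm s hs => (hM2 n hn m hm s hs).symm)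
      ((hA.1.to_si (sh τ 1 0 X)).trans w2) ((hA.2.to_si (sh τ 1 0 X)).trans w2)
      ((hA.1.to_si X).trans t2) ((hA.2.to_si X).trans t2)

theorem WB_nat (hc : CH τ) (hF : FB τ F) (X : ℕ → Bool) (k : ℕ) :
    TLe (WB (Cl τ F) (sh τ k 0 X)) (WB (Cl τ F) X) ∧
      TLe (WB (Cl τ F) X) (WB (Cl τ F) (sh τ k 0 X)) := by
  induction k with
  | zero =>
    rw [sh_zero']
    exact ⟨TuringReducible.refl _, TuringReducible.refl _⟩
  | succ k ih =>
    have e : sh τ (k + 1) 0 X = sh τ 1 0 (sh τ k 0 X) := by rw [sh_sh']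
    obtain ⟨h1, h2⟩ := WB_succ hc hF (sh τ k 0 X)
    rw [e]
    exact ⟨TuringReducible.trans h1 ih.1, TuringReducible.trans ih.2 h2⟩

theorem WB_int (hc : CH τ) (hF : FB τ F) (X : ℕ → Bool) (i : ℤ) :
    TLe (WB (Cl τ F) (O τ i X)) (WB (Cl τ F) X) ∧
      TLe (WB (Cl τ F) X) (WB (Cl τ F) (O τ i X)) := by
  rcases le_total 0 i with h | h
  · obtain ⟨k, hk⟩ := Int.eq_ofNat_of_zero_le h
    have e : O τ i X = sh τ k 0 X := by
      unfold sh
      rw [hk]
      simp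
    rw [e]
    exact WB_nat hc hF X k
  · obtain ⟨k, hk⟩ := Int.eq_ofNat_of_zero_le (show 0 ≤ -i by omega)
    have e : sh τ k 0 (O τ i X) = X := by
      unfold sh
      rw [O_add]
      have : ((k : ℤ) - ((0 : ℕ) : ℤ) + i) = 0 := by
        push_cast
        omega
      rw [this]
      exact O_zero τ X
    obtain ⟨h1, h2⟩ := WB_nat hc hF (O τ i X) k
    rw [e] at h1 h2
    exact ⟨h2, h1⟩

theorem chr_WB' (X : ℕ → Bool) : chr {m | WB (Cl τ F) X m = true} = WB (Cl τ F) X := by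
  funext m
  simp [chr]

end

/-- the main theorem -/
theorem main {τ : Equiv.Perm (ℕ → Bool)} (hc : CH τ) :
    ∃ e : ℕ, PostIndex e ∧ ∀ (i : ℤ) (X : ℕ → Bool),
      TLe (chr (WE X e)) (chr (WE ((τ ^ i) X) e)) ∧
        TLe (chr (WE ((τ ^ i) X) e)) (chr (WE X e)) := by
  obtain ⟨F, hF⟩ := exists_FB hc
  obtain ⟨e, he⟩ := (us_WB hc hF).exists_index
  have hC := stableCl hF
  refine ⟨e, fun X => ?_, fun i X => ?_⟩
  · rw [he X, chr_WB']
    exact ⟨le_WB X, not_WB_le hC X, WB_le_jump hc hF X,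
      fun h => not_jump_le _ (TuringReducible.trans (low hc hF X) h), low hc hF X⟩
  · rw [he X, he ((τ ^ i) X), chr_WB', chr_WB']
    exact ⟨(WB_int hc hF X i).2, (WB_int hc hF X i).1⟩

end Pool.Agent.U35.ZA
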