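import Mathlib

set_option autoImplicit false

/-!
Markers on the integers: combinatorics.
-/

namespace Pool.Agent.U35.ZA

/-- `i` is the strict minimum of `κ` within distance `r` -/
def LM (κ : ℤ → ℕ) (r : ℕ) (i : ℤ) : Prop :=
  ∀ k < r, κ i < κ (i + ((k : ℤ) + 1)) ∧ κ i < κ (i - ((k : ℤ) + 1))

/-- a nearest local minimum to `i` is at distance `k` -/
def Nr (κ : ℤ → ℕ) (r : ℕ) (i : ℤ) (k : ℕ) : Prop :=
  (LM κ r (i + k) ∨ LM κ r (i - k)) ∧ ∀ k' < k, ¬ (LM κ r (i + k') ∨ LM κ r (i - k'))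

/-- the distance to the nearest local minimum is a multiple of `L` -/
def Mk (κ : ℤ → ℕ) (r L : ℕ) (i : ℤ) : Prop := ∃ k : ℕ, Nr κ r i k ∧ L ∣ k

section pure
variable {κ : ℤ → ℕ} {r L : ℕ}

theorem LM.lt {i : ℤ} (h : LM κ r i) (j : ℤ) (hj : j ≠ i) (h1 : j ≤ i + r) (h2 : i ≤ j + r) :
    κ i < κ j := by
  rcases lt_or_gt_of_ne hj with h3 | h3
  · obtain ⟨k, hk⟩ := Int.eq_ofNat_of_zero_le (show 0 ≤ i - j - 1 by omega)
    have := (h k (by omega)).2
    have e : i - ((k : ℤ) + 1) = j := by omega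
    rwa [e] at this
  · obtain ⟨k, hk⟩ := Int.eq_ofNat_of_zero_le (show 0 ≤ j - i - 1 by omega)
    have := (h k (by omega)).1
    have e : i + ((k : ℤ) + 1) = j := by omega
    rwa [e] at this

theorem exists_LM (hκ : ∀ i : ℤ, ∀ k < r, κ (i + ((k : ℤ) + 1)) ≠ κ i) : ∃ i, LM κ r i := by
  obtain ⟨i, hi⟩ : ∃ i : ℤ, ∀ j, κ i ≤ κ j := by
    have hne : (Set.range κ).Nonempty := ⟨κ 0, 0, rfl⟩
    obtain ⟨i, hi⟩ := Nat.sInf_mem hne
    exact ⟨i, fun j => by rw [hi]; exact Nat.sInf_le ⟨j, rfl⟩⟩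
  refine ⟨i, fun k hk => ⟨lt_of_le_of_ne (hi _) (hκ i k hk).symm, lt_of_le_of_ne (hi _) ?_⟩⟩
  have := hκ (i - ((k : ℤ) + 1)) k hk
  rwa [sub_add_cancel] at this

theorem LM.spacing {i j : ℤ} (hi : LM κ r i) (hj : LM κ r j) (h1 : i < j) : i + r < j := by
  by_contra hc
  have a := hi.lt j (by omega) (by omega) (by omega)
  have b := hj.lt i (by omega) (by omega) (by omega)
  omega

theorem exists_Nr (hκ : ∀ i : ℤ, ∀ k < r, κ (i + ((k : ℤ) + 1)) ≠ κ i) (i : ℤ) :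
    ∃ k, Nr κ r i k := by
  classical
  have hex : ∃ k : ℕ, LM κ r (i + k) ∨ LM κ r (i - k) := by
    obtain ⟨c, hc⟩ := exists_LM hκ
    rcases le_total i c with h | h
    · obtain ⟨k, hk⟩ := Int.eq_ofNat_of_zero_le (show 0 ≤ c - i by omega)
      refine ⟨k, Or.inl ?_⟩
      have : i + k = c := by omega
      rwa [this]
    · obtain ⟨k, hk⟩ := Int.eq_ofNat_of_zero_le (show 0 ≤ i - c by omega)
      refine ⟨k, Or.inr ?_⟩
      have : i - k = c := by omega
      rwa [this]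
  exact ⟨Nat.find hex, Nat.find_spec hex, fun k' hk' => Nat.find_min hex hk'⟩

theorem Nr.out {i : ℤ} {k : ℕ} (h : Nr κ r i k) {c : ℤ} (hc : LM κ r c) :
    c ≤ i - k ∨ i + k ≤ c := by
  by_contra hcon
  rw [not_or] at hcon
  rcases le_total i c with h1 | h1
  · obtain ⟨k', hk'⟩ := Int.eq_ofNat_of_zero_le (show 0 ≤ c - i by omega)
    refine h.2 k' (by omega) (Or.inl ?_)
    have : i + k' = c := by omega
    rwa [this]
  · obtain ⟨k', hk'⟩ := Int.eq_ofNat_of_zero_le (show 0 ≤ i - c by omega)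
    refine h.2 k' (by omega) (Or.inr ?_)
    have : i - k' = c := by omega
    rwa [this]

theorem Nr.of_out {i : ℤ} {k : ℕ} (h : LM κ r (i + k) ∨ LM κ r (i - k))
    (h2 : ∀ c, LM κ r c → c ≤ i - k ∨ i + k ≤ c) : Nr κ r i k := by
  refine ⟨h, fun k' hk' => ?_⟩
  rintro (h3 | h3)
  · have := h2 _ h3
    omega
  · have := h2 _ h3
    omega

theorem gap (hκ : ∀ i : ℤ, ∀ k < r, κ (i + ((k : ℤ) + 1)) ≠ κ i) (hL : 0 < L) (i : ℤ) :
    ∃ j, i ≤ j ∧ j ≤ i + 2 * L ∧ Mk κ r L j := by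
  obtain ⟨k, hk⟩ := exists_Nr hκ (i + L)
  have hL' : (0 : ℤ) < L := by omega
  rcases hk.1 with h | h
  · -- the nearest local minimum is to the right
    obtain ⟨c, hc⟩ : ∃ c, c = i + L + k := ⟨_, rfl⟩
    rw [← hc] at h
    by_cases hci : c ≤ i + 2 * L
    · refine ⟨c, by omega, hci, 0, Nr.of_out (Or.inl (by simpa using h)) (fun c' _ => ?_), by simp⟩
      push_cast
      omega
    · have e1 := Int.emod_nonneg (c - (i + L)) (show (L : ℤ) ≠ 0 by omega)
      have e2 := Int.emod_lt_of_pos (c - (i + L)) hL'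
      have e3 : (L : ℤ) ∣ (c - (i + L)) - (c - (i + L)) % L := Int.dvd_self_sub_emod
      obtain ⟨m, hm⟩ : ∃ m, m = (c - (i + L)) % L := ⟨_, rfl⟩
      rw [← hm] at e1 e2 e3
      obtain ⟨k', hk'⟩ := Int.eq_ofNat_of_zero_le (show 0 ≤ c - (i + L) - m by omega)
      refine ⟨i + L + m, by omega, by omega, k', Nr.of_out (Or.inl ?_) (fun c' hc' => ?_), ?_⟩
      · have : i + L + m + k' = c := by omega
        rwa [this]
      · have := hk.out hc'
        omega
      · rw [hk'] at e3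
        exact Int.natCast_dvd_natCast.1 e3
  · obtain ⟨c, hc⟩ : ∃ c, c = i + L - k := ⟨_, rfl⟩
    rw [← hc] at h
    by_cases hci : i ≤ c
    · refine ⟨c, by omega, by omega, 0, Nr.of_out (Or.inl (by simpa using h)) (fun c' _ => ?_),
        by simp⟩
      push_cast
      omega
    · have e1 := Int.emod_nonneg (c - i) (show (L : ℤ) ≠ 0 by omega)
      have e2 := Int.emod_lt_of_pos (c - i) hL'
      have e3 : (L : ℤ) ∣ (c - i) - (c - i) % L := Int.dvd_self_sub_emod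
      obtain ⟨m, hm⟩ : ∃ m, m = (c - i) % L := ⟨_, rfl⟩
      rw [← hm] at e1 e2 e3
      obtain ⟨k', hk'⟩ := Int.eq_ofNat_of_zero_le (show 0 ≤ i + m - c by omega)
      refine ⟨i + m, by omega, by omega, k', Nr.of_out (Or.inr ?_) (fun c' hc' => ?_), ?_⟩
      · have : i + m - k' = c := by omega
        rwa [this]
      · have := hk.out hc'
        omega
      · have e4 : (L : ℤ) ∣ i + m - c := by
          have : i + m - c = -((c - i) - m) := by ring
          rw [this]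
          exact (dvd_neg).2 e3
        rw [hk'] at e4
        exact Int.natCast_dvd_natCast.1 e4

private theorem dvd_small {k : ℕ} (h : L ∣ k) (h2 : k < L) : k = 0 := Nat.eq_zero_of_dvd_of_lt h h2

theorem same_left (hr : L ≤ r) {i j : ℤ} {k k' : ℕ} (h1 : i < j) (h2 : j - i < L)
    (hi : Nr κ r i k) (hic : LM κ r (i - k)) (hk : L ∣ k)
    (hj : Nr κ r j k') (hjc : LM κ r (j - k')) (hk' : L ∣ k') : False := by
  have a := hj.out hic
  have b := hi.out hjc
  have hle : i - k ≤ j - k' := by omega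
  rcases lt_or_eq_of_le hle with hlt | heq
  · have hs := hic.spacing hjc hlt
    have h3 : (k : ℤ) < L := by omega
    have h4 := dvd_small hk (by exact_mod_cast h3)
    subst h4
    omega
  · have h3 : (k' : ℤ) - k = j - i := by omega
    have h4 : k < k' := by omega
    have h5 : L ∣ k' - k := Nat.dvd_sub hk' hk
    have h6 := dvd_small h5 (by omega)
    omega

theorem same_right (hr : L ≤ r) {i j : ℤ} {k k' : ℕ} (h1 : i < j) (h2 : j - i < L)
    (hi : Nr κ r i k) (hic : LM κ r (i + k)) (hk : L ∣ k)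
    (hj : Nr κ r j k') (hjc : LM κ r (j + k')) (hk' : L ∣ k') : False := by
  have a := hj.out hic
  have b := hi.out hjc
  have hle : i + k ≤ j + k' := by omega
  rcases lt_or_eq_of_le hle with hlt | heq
  · have hs := hic.spacing hjc hlt
    have h3 : (k' : ℤ) < L := by omega
    have h4 := dvd_small hk' (by exact_mod_cast h3)
    subst h4
    omega
  · have h3 : (k : ℤ) - k' = j - i := by omega
    have h4 : k' < k := by omega
    have h5 : L ∣ k - k' := Nat.dvd_sub hk hk'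
    have h6 := dvd_small h5 (by omega)
    omega

theorem count (hr : L ≤ r) {i j l : ℤ} (h1 : i < j) (h2 : j < l) (h3 : l - i < L)
    (hi : Mk κ r L i) (hj : Mk κ r L j) (hl : Mk κ r L l) : False := by
  obtain ⟨k1, n1, d1⟩ := hi
  obtain ⟨k2, n2, d2⟩ := hj
  obtain ⟨k3, n3, d3⟩ := hl
  rcases n1.1 with a1 | a1 <;> rcases n2.1 with a2 | a2 <;> rcases n3.1 with a3 | a3
  · exact same_right hr h1 (by omega) n1 a1 d1 n2 a2 d2
  · exact same_right hr h1 (by omega) n1 a1 d1 n2 a2 d2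
  · exact same_right hr (h1.trans h2) (by omega) n1 a1 d1 n3 a3 d3
  · exact same_left hr h2 (by omega) n2 a2 d2 n3 a3 d3
  · exact same_right hr h2 (by omega) n2 a2 d2 n3 a3 d3
  · exact same_left hr (h1.trans h2) (by omega) n1 a1 d1 n3 a3 d3
  · exact same_left hr h1 (by omega) n1 a1 d1 n2 a2 d2
  · exact same_left hr h1 (by omega) n1 a1 d1 n2 a2 d2

end pure

/-- the intervals of length `5 ^ n` which start at the marks of level `n` -/
def Ei (M : ℕ → ℤ → Prop) (n : ℕ) (i : ℤ) : Prop := ∃ d : ℕ, d < 5 ^ n ∧ M n (i - (d : ℤ))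

/-- the boundaries of level `n` -/
def Bdi (M : ℕ → ℤ → Prop) (n : ℕ) (i : ℤ) : Prop := Ei M n i ∧ ∀ m < n, ¬ Ei M m i

theorem free {M : ℕ → ℤ → Prop} (n : ℕ)
    (hC : ∀ m < n, ∀ i j k : ℤ, i < j → j < k → k - i < ((6 * 5 ^ m : ℕ) : ℤ) → M m i → M m j →
      M m k → False) :
    ∀ i : ℤ, ∃ j, i ≤ j ∧ j < i + ((5 ^ n : ℕ) : ℤ) ∧ ∀ m < n, ¬ Ei M m j := by
  induction n with
  | zero => exact fun i => ⟨i, le_rfl, by simp, fun m hm => absurd hm (Nat.not_lt_zero _)⟩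
  | succ n ih =>
    intro i
    have ih' := ih (fun m hm => hC m (by omega))
    obtain ⟨w, hw⟩ : ∃ w : ℕ, w = 5 ^ n := ⟨_, rfl⟩
    have hw2 : 5 ^ (n + 1) = 5 * w := by rw [hw]; ring
    rw [← hw] at ih'
    have hC' := hC n (by omega)
    rw [← hw] at hC'
    rw [hw2]
    obtain ⟨j0, a0, b0, c0⟩ := ih' i
    obtain ⟨j1, a1, b1, c1⟩ := ih' (i + 2 * w)
    obtain ⟨j2, a2, b2, c2⟩ := ih' (i + 4 * w)
    have fin : ∀ j : ℤ, (∀ m < n, ¬ Ei M m j) → ¬ Ei M n j → ∀ m < n + 1, ¬ Ei M m j := by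
      intro j h1 h2 m hm
      rcases Nat.lt_succ_iff_lt_or_eq.1 hm with h | h
      · exact h1 m h
      · rw [h]; exact h2
    by_cases e0 : Ei M n j0
    · by_cases e1 : Ei M n j1
      · by_cases e2 : Ei M n j2
        · exfalso
          obtain ⟨d0, l0, m0⟩ := e0
          obtain ⟨d1, l1, m1⟩ := e1
          obtain ⟨d2, l2, m2⟩ := e2
          rw [← hw] at l0 l1 l2
          exact hC' _ _ _ (by omega) (by omega) (by push_cast; omega) m0 m1 m2
        · exact ⟨j2, by omega, by push_cast; omega, fin _ c2 e2⟩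
      · exact ⟨j1, by omega, by push_cast; omega, fin _ c1 e1⟩
    · exact ⟨j0, by omega, by push_cast; omega, fin _ c0 e0⟩

theorem exists_Bdi {M : ℕ → ℤ → Prop} (n : ℕ)
    (hC : ∀ m < n, ∀ i j k : ℤ, i < j → j < k → k - i < ((6 * 5 ^ m : ℕ) : ℤ) → M m i → M m j →
      M m k → False)
    (hG : ∀ i : ℤ, ∃ j, i ≤ j ∧ j ≤ i + 2 * ((6 * 5 ^ n : ℕ) : ℤ) ∧ M n j) (i : ℤ) :
    ∃ j, i ≤ j ∧ j ≤ i + ((13 * 5 ^ n : ℕ) : ℤ) ∧ Bdi M n j := by
  obtain ⟨p, h1, h2, h3⟩ := hG i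
  obtain ⟨j, h4, h5, h6⟩ := free n hC p
  obtain ⟨w, hw⟩ : ∃ w : ℕ, w = 5 ^ n := ⟨_, rfl⟩
  rw [← hw] at h2 h5 ⊢
  refine ⟨j, by omega, by omega, ⟨(j - p).toNat, by omega, ?_⟩, h6⟩
  · have : j - ((j - p).toNat : ℤ) = p := by omega
    rwa [this]

end Pool.Agent.U35.ZA
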