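import Pool.Agent.U35.ZA.US
import Pool.Agent.U35.ZA.Mark

set_option autoImplicit false

/-!
Orbits of a computable homeomorphism of the Cantor space and decidable markers on them.
-/

namespace Pool.Agent.U35.ZA

open Encodable Pool.Agent.Helper227

/-- a truth-table map has a computable action on initial segments -/
theorem exists_VG {T : (ℕ → Bool) → ℕ → Bool} {δ : ℕ → List Bool → Bool} {u : ℕ → ℕ}
    (hδ : Computable₂ δ) (hu : Computable u) (h : ∀ X n, T X n = δ n (pre X (u n))) :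
    ∃ (V : ℕ → ℕ) (G : ℕ × List Bool → List Bool), Computable V ∧ Computable G ∧
      ∀ X m, pre (T X) m = G (m, pre X (V m)) := by
  obtain ⟨V, hV, V0, V1⟩ : ∃ V : ℕ → ℕ, Computable V ∧ V 0 = 0 ∧ ∀ m, V (m + 1) = V m + u m := by
    refine ⟨fun m => Nat.rec (motive := fun _ => ℕ) 0 (fun j v => v + u j) m, ?_, rfl,
      fun _ => rfl⟩
    have h6 : Computable₂ fun a b : ℕ => a + b := Primrec.nat_add.to_comp
    have h1 : Computable₂ fun (_ : ℕ) (y : ℕ × ℕ) => y.2 + u y.1 :=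
      Computable₂.comp (f := fun a b : ℕ => a + b) (g := fun r : ℕ × (ℕ × ℕ) => r.2.2)
        (h := fun r : ℕ × (ℕ × ℕ) => u r.2.1) h6
        (Computable.snd.comp Computable.snd) (hu.comp (Computable.fst.comp Computable.snd))
    exact Computable.nat_rec (f := fun x : ℕ => x) (g := fun _ : ℕ => (0 : ℕ)) Computable.id
      (Computable.const 0) h1
  obtain ⟨G, hG, G0, G1⟩ : ∃ G : ℕ × List Bool → List Bool, Computable G ∧
      (∀ q, G (0, q) = []) ∧ ∀ m q, G (m + 1, q) = G (m, q) ++ [δ m (q.take (u m))] := by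
    refine ⟨fun x => Nat.rec (motive := fun _ => List Bool) []
      (fun j v => v ++ [δ j (x.2.take (u j))]) x.1, ?_, fun _ => rfl, fun _ _ => rfl⟩
    have hc : Computable₂ fun (l : List Bool) (b : Bool) => l ++ [b] :=
      (Primrec.list_concat (α := Bool)).to_comp
    have htk : Computable₂ fun (n : ℕ) (l : List Bool) => l.take n :=
      (Primrec.list_take (α := Bool)).to_comp
    have h1 : Computable₂ fun (x : ℕ × List Bool) (y : ℕ × List Bool) =>
        y.2 ++ [δ y.1 (x.2.take (u y.1))] := by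
      refine Computable₂.comp (f := fun (l : List Bool) (b : Bool) => l ++ [b])
        (g := fun r : (ℕ × List Bool) × (ℕ × List Bool) => r.2.2)
        (h := fun r : (ℕ × List Bool) × (ℕ × List Bool) => δ r.2.1 (r.1.2.take (u r.2.1))) hc
        (Computable.snd.comp Computable.snd) ?_
      refine hδ.comp (Computable.fst.comp Computable.snd) ?_
      exact htk.comp (hu.comp (Computable.fst.comp Computable.snd))
        (Computable.snd.comp Computable.fst)
    exact Computable.nat_rec (f := fun x : ℕ × List Bool => x.1)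
      (g := fun _ : ℕ × List Bool => ([] : List Bool)) Computable.fst (Computable.const []) h1
  refine ⟨V, G, hV, hG, fun X m => ?_⟩
  have key : ∀ m N, V m ≤ N → G (m, pre X N) = pre (T X) m := by
    intro m
    induction m with
    | zero => intro N _; rw [G0]; rfl
    | succ m ih =>
      intro N hN
      rw [V1] at hN
      rw [G1, ih N (by omega), take_pre X _ _ (by omega), ← h, pre_succ]
  exact (key m _ le_rfl).symm

section
variable (τ : Equiv.Perm (ℕ → Bool))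

/-- the `i`-th translate -/
def O (i : ℤ) (X : ℕ → Bool) : ℕ → Bool := (τ ^ i) X

theorem O_zero (X : ℕ → Bool) : O τ 0 X = X := by simp [O]

theorem O_add (i j : ℤ) (X : ℕ → Bool) : O τ i (O τ j X) = O τ (i + j) X := by
  simp [O, zpow_add]

theorem O_inj {i : ℤ} {X Y : ℕ → Bool} (h : O τ i X = O τ i Y) : X = Y := (τ ^ i).injective h

/-- the translate by `k - l` -/
def sh (k l : ℕ) (X : ℕ → Bool) : ℕ → Bool := O τ ((k : ℤ) - l) X

/-- all translates are uniformly computable -/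
def CH : Prop := CF fun (x : ℕ × ℕ) X => sh τ x.1 x.2 X

theorem sh_eq_iter (k l : ℕ) (X : ℕ → Bool) : sh τ k l X = τ^[k] (τ.symm^[l] X) := by
  have e1 : ∀ (σ : Equiv.Perm (ℕ → Bool)) (n : ℕ) (Y : ℕ → Bool), σ^[n] Y = (σ ^ n) Y := by
    intro σ n Y
    induction n with
    | zero => rfl
    | succ n ih => rw [Function.iterate_succ_apply', ih, pow_succ']; rfl
  rw [e1, e1]
  unfold sh O
  rw [sub_eq_add_neg, zpow_add, zpow_natCast, zpow_neg, zpow_natCast]
  have e2 : (τ.symm ^ l) = (τ ^ l)⁻¹ := by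
    rw [← inv_pow]; rfl
  rw [e2]
  rfl

theorem CH_of {δ δ' : ℕ → List Bool → Bool} {u u' : ℕ → ℕ} (hδ : Computable₂ δ)
    (hu : Computable u) (h : ∀ X n, τ X n = δ n (pre X (u n))) (hδ' : Computable₂ δ')
    (hu' : Computable u') (h' : ∀ X n, τ.symm X n = δ' n (pre X (u' n))) : CH τ := by
  obtain ⟨V, G, hV, hG, e⟩ := exists_VG (T := τ) hδ hu h
  obtain ⟨V', G', hV', hG', e'⟩ := exists_VG (T := τ.symm) hδ' hu' h'
  have c := (CF.iterate hV hG e).comp (CF.iterate hV' hG' e')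
  unfold CH
  have : (fun (x : ℕ × ℕ) X => sh τ x.1 x.2 X) = fun (x : ℕ × ℕ) X =>
      (fun (k : ℕ) X => (τ : (ℕ → Bool) → ℕ → Bool)^[k] X) x.1
        ((fun (k : ℕ) X => (τ.symm : (ℕ → Bool) → ℕ → Bool)^[k] X) x.2 X) := by
    funext x X
    exact sh_eq_iter τ x.1 x.2 X
  rw [this]
  exact c

/-- the radius of level `n` -/
def rr (n : ℕ) : ℕ := 12 * 5 ^ n

/-- no translate by at most `rr n` fixes `X` -/
def Ap (n : ℕ) (X : ℕ → Bool) : Prop := ∀ k < rr n, O τ ((k : ℤ) + 1) X ≠ X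

/-- the first `m` bits separate `X` from its near translates -/
def Sep (n : ℕ) (X : ℕ → Bool) (m : ℕ) : Prop :=
  ∀ k < rr n, ¬ pre X m = pre (sh τ (k + 1) 0 X) m ∧ ¬ pre X m = pre (sh τ 0 (k + 1) X) m

open Classical in
/-- the key of `X` at level `n` -/
noncomputable def key (n : ℕ) (X : ℕ → Bool) : ℕ :=
  if h : ∃ m, Sep τ n X m then encode (pre X (Nat.find h)) else 0

end

section
variable {τ : Equiv.Perm (ℕ → Bool)}

theorem Ap_O {n : ℕ} {X : ℕ → Bool} (i : ℤ) : Ap τ n (O τ i X) ↔ Ap τ n X := by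
  unfold Ap
  refine forall_congr' fun k => forall_congr' fun _ => not_congr ?_
  rw [O_add, add_comm, ← O_add]
  exact ⟨fun h => O_inj τ h, fun h => by rw [h]⟩

theorem Ap_sh {n k l : ℕ} {X : ℕ → Bool} : Ap τ n (sh τ k l X) ↔ Ap τ n X := Ap_O _

theorem Ap_mono {m n : ℕ} {X : ℕ → Bool} (h : m ≤ n) (hX : Ap τ n X) : Ap τ m X := by
  intro k hk
  refine hX k (lt_of_lt_of_le hk ?_)
  unfold rr
  have := Nat.pow_le_pow_right (show 0 < 5 by norm_num) h
  omega

theorem pre_ne_mono {X Y : ℕ → Bool} {m m' : ℕ} (h : m ≤ m') (hne : ¬ pre X m = pre Y m) :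
    ¬ pre X m' = pre Y m' := by
  intro h2
  apply hne
  rw [← take_pre X m' m h, ← take_pre Y m' m h, h2]

theorem exists_pre_ne {X Y : ℕ → Bool} (h : X ≠ Y) : ∃ m, ¬ pre X m = pre Y m := by
  by_contra hc
  push Not at hc
  apply h
  funext n
  have := hc (n + 1)
  have e1 := pre_getD X (n + 1) n false (by omega)
  have e2 := pre_getD Y (n + 1) n false (by omega)
  rw [this] at e1
  rw [← e1, e2]

theorem Ap_iff {n : ℕ} {X : ℕ → Bool} : Ap τ n X ↔ ∃ m, Sep τ n X m := by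
  constructor
  · intro h
    have h1 : ∀ k : ℕ, ∃ m, k < rr n → (¬ pre X m = pre (sh τ (k + 1) 0 X) m ∧
        ¬ pre X m = pre (sh τ 0 (k + 1) X) m) := by
      intro k
      by_cases hk : k < rr n
      · have e1 : X ≠ sh τ (k + 1) 0 X := by
          intro e
          apply h k hk
          unfold sh at e
          push_cast at e
          rw [sub_zero] at e
          exact e.symm
        have e2 : X ≠ sh τ 0 (k + 1) X := by
          intro e
          apply h k hk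
          unfold sh at e
          push_cast at e
          rw [zero_sub] at e
          conv_lhs => rw [e]
          rw [O_add, add_neg_cancel, O_zero]
        obtain ⟨m1, hm1⟩ := exists_pre_ne e1
        obtain ⟨m2, hm2⟩ := exists_pre_ne e2
        exact ⟨max m1 m2, fun _ => ⟨pre_ne_mono (le_max_left _ _) hm1,
          pre_ne_mono (le_max_right _ _) hm2⟩⟩
      · exact ⟨0, fun h => absurd h hk⟩
    choose f hf using h1
    refine ⟨(Finset.range (rr n)).sup f, fun k hk => ?_⟩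
    have : f k ≤ (Finset.range (rr n)).sup f := Finset.le_sup (Finset.mem_range.2 hk)
    exact ⟨pre_ne_mono this (hf k hk).1, pre_ne_mono this (hf k hk).2⟩
  · rintro ⟨m, hm⟩ k hk h
    apply (hm k hk).1
    have : sh τ (k + 1) 0 X = X := by
      unfold sh
      push_cast
      rw [sub_zero]
      exact h
    rw [this]

theorem key_eq {n : ℕ} {X : ℕ → Bool} {m : ℕ} (h1 : Sep τ n X m) (h2 : ∀ m' < m, ¬ Sep τ n X m') :
    key τ n X = encode (pre X m) := by
  classical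
  have h : ∃ m, Sep τ n X m := ⟨m, h1⟩
  unfold key
  rw [dif_pos h]
  have : Nat.find h = m := (Nat.find_eq_iff h).2 ⟨h1, h2⟩
  rw [this]

theorem exists_Sep {n : ℕ} {X : ℕ → Bool} (h : Ap τ n X) :
    ∃ m, Sep τ n X m ∧ ∀ m' < m, ¬ Sep τ n X m' := by
  classical
  have h' := Ap_iff.1 h
  exact ⟨Nat.find h', Nat.find_spec h', fun m' hm' => Nat.find_min h' hm'⟩

theorem key_ne {n : ℕ} {X : ℕ → Bool} (h : Ap τ n X) (k : ℕ) (hk : k < rr n) :
    key τ n (O τ ((k : ℤ) + 1) X) ≠ key τ n X := by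
  obtain ⟨m, h1, h2⟩ := exists_Sep h
  obtain ⟨m', h1', h2'⟩ := exists_Sep ((Ap_O ((k : ℤ) + 1)).2 h)
  rw [key_eq h1 h2, key_eq h1' h2']
  intro h3
  have h4 := encode_injective h3
  have h5 : m' = m := by
    have := congrArg List.length h4
    simpa using this
  rw [h5] at h4
  apply (h1 k hk).1
  rw [← h4]
  unfold sh
  push_cast
  rw [sub_zero]

end

section
variable (τ : Equiv.Perm (ℕ → Bool))

/-- strict local minima -/
def XL (n : ℕ) (X : ℕ → Bool) : Prop :=
  ∀ k < rr n, key τ n X < key τ n (sh τ (k + 1) 0 X) ∧ key τ n X < key τ n (sh τ 0 (k + 1) X)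

/-- there is a local minimum at distance `k` -/
def XD (n : ℕ) (X : ℕ → Bool) (k : ℕ) : Prop := XL τ n (sh τ k 0 X) ∨ XL τ n (sh τ 0 k X)

def XN (n : ℕ) (X : ℕ → Bool) (k : ℕ) : Prop := XD τ n X k ∧ ∀ k' < k, ¬ XD τ n X k'

/-- marks -/
def XM (n : ℕ) (X : ℕ → Bool) : Prop := ∃ k, XN τ n X k ∧ 6 * 5 ^ n ∣ k

def XE (n : ℕ) (X : ℕ → Bool) : Prop := ∃ d < 5 ^ n, XM τ n (sh τ 0 d X)

/-- boundaries -/
def XB (n : ℕ) (X : ℕ → Bool) : Prop := XE τ n X ∧ ∀ m < n, ¬ XE τ m X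

/-- the block of `X` at level `n` goes from `-a` to `b` -/
def BG (n : ℕ) (X : ℕ → Bool) (a b : ℕ) : Prop :=
  Ap τ n X ∧ XB τ n (sh τ 0 a X) ∧ (∀ a' < a, ¬ XB τ n (sh τ 0 a' X)) ∧
    XB τ n (sh τ (b + 1) 0 X) ∧ ∀ b' < b, ¬ XB τ n (sh τ (b' + 1) 0 X)

end

section
variable {τ : Equiv.Perm (ℕ → Bool)}

theorem XL_iff {n : ℕ} {X : ℕ → Bool} {i : ℤ} :
    XL τ n (O τ i X) ↔ LM (fun j => key τ n (O τ j X)) (rr n) i := by
  unfold XL LM sh
  refine forall_congr' fun k => forall_congr' fun _ => ?_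
  rw [O_add, O_add]
  push_cast
  rw [sub_zero, zero_sub, add_comm ((k : ℤ) + 1) i, neg_add_eq_sub]

theorem XD_iff {n : ℕ} {X : ℕ → Bool} {i : ℤ} {k : ℕ} :
    XD τ n (O τ i X) k ↔ (LM (fun j => key τ n (O τ j X)) (rr n) (i + k) ∨
      LM (fun j => key τ n (O τ j X)) (rr n) (i - k)) := by
  unfold XD sh
  rw [O_add, O_add, XL_iff, XL_iff]
  push_cast
  rw [sub_zero, zero_sub, add_comm (k : ℤ) i, neg_add_eq_sub]

theorem XM_iff {n : ℕ} {X : ℕ → Bool} {i : ℤ} :
    XM τ n (O τ i X) ↔ Mk (fun j => key τ n (O τ j X)) (rr n) (6 * 5 ^ n) i := by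
  unfold XM Mk XN Nr
  simp only [XD_iff]

theorem XE_iff {n : ℕ} {X : ℕ → Bool} {i : ℤ} :
    XE τ n (O τ i X) ↔ Ei (fun m => Mk (fun j => key τ m (O τ j X)) (rr m) (6 * 5 ^ m)) n i := by
  unfold XE Ei sh
  refine exists_congr fun d => and_congr_right fun _ => ?_
  rw [O_add, XM_iff]
  push_cast
  rw [zero_sub, neg_add_eq_sub]

theorem XB_iff {n : ℕ} {X : ℕ → Bool} {i : ℤ} :
    XB τ n (O τ i X) ↔ Bdi (fun m => Mk (fun j => key τ m (O τ j X)) (rr m) (6 * 5 ^ m)) n i := by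
  unfold XB Bdi
  simp only [XE_iff]

theorem key_orb {n : ℕ} {X : ℕ → Bool} (h : Ap τ n X) :
    ∀ i : ℤ, ∀ k < rr n, (fun j => key τ n (O τ j X)) (i + ((k : ℤ) + 1)) ≠
      (fun j => key τ n (O τ j X)) i := by
  intro i k hk
  have := key_ne ((Ap_O i).2 h) k hk
  rw [O_add, add_comm] at this
  exact this

theorem exists_XB {n : ℕ} {X : ℕ → Bool} (h : Ap τ n X) (i : ℤ) :
    ∃ j, i ≤ j ∧ j ≤ i + ((13 * 5 ^ n : ℕ) : ℤ) ∧ XB τ n (O τ j X) := by
  have hC : ∀ m < n, ∀ i j k : ℤ, i < j → j < k → k - i < ((6 * 5 ^ m : ℕ) : ℤ) →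
      (fun m => Mk (fun j => key τ m (O τ j X)) (rr m) (6 * 5 ^ m)) m i →
      (fun m => Mk (fun j => key τ m (O τ j X)) (rr m) (6 * 5 ^ m)) m j →
      (fun m => Mk (fun j => key τ m (O τ j X)) (rr m) (6 * 5 ^ m)) m k → False := by
    intro m _ i j k h1 h2 h3 a b c
    exact count (r := rr m) (L := 6 * 5 ^ m) (by unfold rr; omega) h1 h2 h3 a b c
  have hG : ∀ i : ℤ, ∃ j, i ≤ j ∧ j ≤ i + 2 * ((6 * 5 ^ n : ℕ) : ℤ) ∧
      (fun m => Mk (fun j => key τ m (O τ j X)) (rr m) (6 * 5 ^ m)) n j := fun i =>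
    gap (key_orb h) (by positivity) i
  obtain ⟨j, h1, h2, h3⟩ := exists_Bdi n hC hG i
  exact ⟨j, h1, h2, XB_iff.2 h3⟩

/-- every aperiodic point has a block -/
theorem exists_BG {n : ℕ} {X : ℕ → Bool} (h : Ap τ n X) : ∃ a b, BG τ n X a b := by
  classical
  have hb : ∃ b : ℕ, XB τ n (sh τ (b + 1) 0 X) := by
    obtain ⟨j, h1, _, h3⟩ := exists_XB h 1
    refine ⟨(j - 1).toNat, ?_⟩
    unfold sh
    have : (((j - 1).toNat + 1 : ℕ) : ℤ) - ((0 : ℕ) : ℤ) = j := by omega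
    rwa [this]
  have ha : ∃ a : ℕ, XB τ n (sh τ 0 a X) := by
    obtain ⟨j, _, h2, h3⟩ := exists_XB h (-((13 * 5 ^ n : ℕ) : ℤ))
    refine ⟨(-j).toNat, ?_⟩
    unfold sh
    have : ((0 : ℕ) : ℤ) - ((-j).toNat : ℤ) = j := by omega
    rwa [this]
  exact ⟨Nat.find ha, Nat.find hb, h, Nat.find_spec ha, fun a' h' => Nat.find_min ha h',
    Nat.find_spec hb, fun b' h' => Nat.find_min hb h'⟩

theorem BG_unique {n : ℕ} {X : ℕ → Bool} {a b a' b' : ℕ} (h : BG τ n X a b)
    (h' : BG τ n X a' b') : a = a' ∧ b = b' := by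
  obtain ⟨-, h1, h2, h3, h4⟩ := h
  obtain ⟨-, h1', h2', h3', h4'⟩ := h'
  constructor
  · by_contra hne
    rcases lt_or_gt_of_ne hne with h | h
    · exact h2' a h h1
    · exact h2 a' h h1'
  · by_contra hne
    rcases lt_or_gt_of_ne hne with h | h
    · exact h4' b h h3
    · exact h4 b' h h3'

/-- the boundary points of different levels are different -/
theorem XB_level {m n : ℕ} {X : ℕ → Bool} (h : XB τ m X) (h' : XB τ n X) : m = n := by
  by_contra hne
  rcases lt_or_gt_of_ne hne with h1 | h1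
  · exact h'.2 m h1 h.1
  · exact h.2 n h1 h'.1

/-- the block of a point in the block of `X` -/
theorem BG_shift {n : ℕ} {X : ℕ → Bool} {a b : ℕ} (h : BG τ n X a b) {i : ℕ} (hi : i ≤ a + b) :
    BG τ n (sh τ i a X) i (a + b - i) := by
  obtain ⟨h0, h1, h2, h3, h4⟩ := h
  have no : ∀ j : ℤ, -a < j → j ≤ b → ¬ XB τ n (O τ j X) := by
    intro j hj1 hj2
    rcases le_or_gt j 0 with hj | hj
    · have := h2 (-j).toNat (by omega)
      unfold sh at this
      have e : ((0 : ℕ) : ℤ) - ((-j).toNat : ℤ) = j := by omega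
      rwa [e] at this
    · have := h4 (j - 1).toNat (by omega)
      unfold sh at this
      have e : (((j - 1).toNat + 1 : ℕ) : ℤ) - ((0 : ℕ) : ℤ) = j := by omega
      rwa [e] at this
  refine ⟨Ap_sh.2 h0, ?_, ?_, ?_, ?_⟩
  · unfold sh at h1 ⊢
    rw [O_add]
    have e : ((0 : ℕ) : ℤ) - (i : ℤ) + ((i : ℤ) - a) = ((0 : ℕ) : ℤ) - a := by omega
    rwa [e]
  · intro a' ha'
    unfold sh
    rw [O_add]
    exact no _ (by omega) (by omega)
  · unfold sh at h3 ⊢
    rw [O_add]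
    have e : ((a + b - i + 1 : ℕ) : ℤ) - ((0 : ℕ) : ℤ) + ((i : ℤ) - a) =
        ((b + 1 : ℕ) : ℤ) - ((0 : ℕ) : ℤ) := by omega
    rwa [e]
  · intro b' hb'
    unfold sh
    rw [O_add]
    exact no _ (by omega) (by omega)

end

end Pool.Agent.U35.ZA
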