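import Pool.Agent.U35.ZA.UM

set_option autoImplicit false

/-!
The finite classes of a point at a stage, and their stabilisation.
-/

namespace Pool.Agent.U35.ZA

open Encodable Pool.Agent.Helper227

/-- the approximation of the blocks -/
structure FB (τ : Equiv.Perm (ℕ → Bool)) (F : ℕ → ℕ → (ℕ → Bool) → ℕ → ℕ → Prop) : Prop where
  sound : ∀ s n X a b, F s n X a b → BG τ n X a b
  mono : ∀ s s' n X a b, s ≤ s' → F s n X a b → F s' n X a b
  compl : ∀ n X a b, BG τ n X a b → ∃ s, F s n X a b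
  bd : ∀ s n X a b, F s n X a b → a < s + 1 ∧ b < s + 1
  us : US fun X (x : (ℕ × ℕ) × (ℕ × ℕ)) => F x.1.1 x.1.2 X x.2.1 x.2.2
  nus : US fun X (x : (ℕ × ℕ) × (ℕ × ℕ)) => ¬ F x.1.1 x.1.2 X x.2.1 x.2.2

theorem exists_FB {τ : Equiv.Perm (ℕ → Bool)} (hc : CH τ) : ∃ F, FB τ F := by
  obtain ⟨E, ⟨q, hq, mq, eq⟩, mE, eE⟩ := us_BG hc
  let R : List Bool × ((ℕ × ℕ) × (ℕ × ℕ)) → Prop := fun y =>
    (y.2.2.1 < y.2.1.1 + 1 ∧ y.2.2.2 < y.2.1.1 + 1) ∧
      ∃ t < y.2.1.1 + 1, q (y.1.take t, (y.2.1.2, y.2.2)) y.2.1.1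
  have hR : PrimrecPred R := by
    have p1 : Primrec fun y : List Bool × ((ℕ × ℕ) × (ℕ × ℕ)) => y.2.1.1 + 1 :=
      Primrec.succ.comp (Primrec.fst.comp (Primrec.fst.comp Primrec.snd))
    refine PrimrecPred.and (PrimrecPred.and ?_ ?_) ?_
    · exact Primrec.nat_lt.comp (Primrec.fst.comp (Primrec.snd.comp Primrec.snd)) p1
    · exact Primrec.nat_lt.comp (Primrec.snd.comp (Primrec.snd.comp Primrec.snd)) p1
    · refine PP.ex_lt (p := fun (y : List Bool × ((ℕ × ℕ) × (ℕ × ℕ))) t =>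
        q (y.1.take t, (y.2.1.2, y.2.2)) y.2.1.1) ?_ p1
      refine hq.comp (f := fun z : (List Bool × ((ℕ × ℕ) × (ℕ × ℕ))) × ℕ =>
        (z.1.1.take z.2, (z.1.2.1.2, z.1.2.2)))
        (g := fun z : (List Bool × ((ℕ × ℕ) × (ℕ × ℕ))) × ℕ => z.1.2.1.1) ?_ ?_
      · refine Primrec.pair ?_ (Primrec.pair ?_ ?_)
        · exact Primrec.list_take.comp Primrec.snd (Primrec.fst.comp Primrec.fst)
        · exact Primrec.snd.comp (Primrec.fst.comp (Primrec.snd.comp Primrec.fst))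
        · exact Primrec.snd.comp (Primrec.snd.comp Primrec.fst)
      · exact Primrec.fst.comp (Primrec.fst.comp (Primrec.snd.comp Primrec.fst))
  have hV : Computable fun x : (ℕ × ℕ) × (ℕ × ℕ) => x.1.1 := Computable.fst.comp Computable.fst
  refine ⟨fun s n X a b => R (pre X s, ((s, n), (a, b))), ?_, ?_, ?_, ?_, ?_, ?_⟩
  · rintro s n X a b ⟨_, t, ht, h⟩
    have h' : q ((pre X s).take t, (n, (a, b))) s := h
    rw [take_pre X s t (by simpa using Nat.lt_succ_iff.1 ht)] at h'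
    exact (eE X (n, (a, b))).2 ⟨t, (eq _).2 ⟨s, h'⟩⟩
  · rintro s s' n X a b hss ⟨⟨h1, h2⟩, t, ht, h⟩
    have h1' : a < s + 1 := h1
    have h2' : b < s + 1 := h2
    have ht' : t < s + 1 := ht
    have h' : q ((pre X s).take t, (n, (a, b))) s := h
    rw [take_pre X s t (by omega)] at h'
    refine ⟨⟨show a < s' + 1 by omega, show b < s' + 1 by omega⟩, t, show t < s' + 1 by omega, ?_⟩
    show q ((pre X s').take t, (n, (a, b))) s'
    rw [take_pre X s' t (by omega)]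
    exact mq _ _ _ hss h'
  · intro n X a b h
    obtain ⟨t, ht⟩ := (eE X (n, (a, b))).1 h
    obtain ⟨k, hk⟩ := (eq _).1 ht
    refine ⟨max (max a b) (max t k), ⟨⟨?_, ?_⟩, t, ?_, ?_⟩⟩
    · show a < max (max a b) (max t k) + 1
      omega
    · show b < max (max a b) (max t k) + 1
      omega
    · show t < max (max a b) (max t k) + 1
      omega
    · show q ((pre X (max (max a b) (max t k))).take t, (n, (a, b))) (max (max a b) (max t k))
      rw [take_pre X _ t (by omega)]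
      exact mq _ _ _ (by omega) hk
  · rintro s n X a b ⟨⟨h1, h2⟩, _⟩
    exact ⟨h1, h2⟩
  · exact US.of_pre (V := fun x : (ℕ × ℕ) × (ℕ × ℕ) => x.1.1) (S1.of_prim hR) hV
  · exact US.of_pre (V := fun x : (ℕ × ℕ) × (ℕ × ℕ) => x.1.1) (R := fun y => ¬ R y)
      (S1.of_prim (PrimrecPred.not hR)) hV

section
variable (τ : Equiv.Perm (ℕ → Bool)) (F : ℕ → ℕ → (ℕ → Bool) → ℕ → ℕ → Prop)

/-- the class of `X` at stage `s` and level `n` goes from `-a` to `b` -/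
def AB (s n : ℕ) (X : ℕ → Bool) (a b : ℕ) : Prop :=
  F s n X a b ∨ ((∀ a' < s + 1, ∀ b' < s + 1, ¬ F s n X a' b') ∧ a = 0 ∧
    ((b < rr n ∧ pre X s = pre (sh τ (b + 1) 0 X) s ∧
      ∀ p < b, ¬ pre X s = pre (sh τ (p + 1) 0 X) s) ∨
    (b = 0 ∧ ∀ p < rr n, ¬ pre X s = pre (sh τ (p + 1) 0 X) s)))

/-- the class -/
def Cl (s n : ℕ) (X : ℕ → Bool) : Set (ℕ → Bool) :=
  {Y | ∃ a b, AB τ F s n X a b ∧ ∃ i ≤ a + b, Y = sh τ i a X}

end

section
variable {τ : Equiv.Perm (ℕ → Bool)} {F : ℕ → ℕ → (ℕ → Bool) → ℕ → ℕ → Prop}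

theorem sh_zero' (X : ℕ → Bool) : sh τ 0 0 X = X := by unfold sh; simpa using O_zero τ X

theorem sh_self (a : ℕ) (X : ℕ → Bool) : sh τ a a X = X := by
  unfold sh
  rw [sub_self]
  exact O_zero τ X

theorem sh_sh (j i a : ℕ) (X : ℕ → Bool) : sh τ j i (sh τ i a X) = sh τ j a X := by
  unfold sh
  rw [O_add]
  congr 1
  ring

theorem AB_unique (hF : FB τ F) {s n : ℕ} {X : ℕ → Bool} {a b a' b' : ℕ} (h : AB τ F s n X a b)
    (h' : AB τ F s n X a' b') : a = a' ∧ b = b' := by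
  rcases h with h | ⟨h1, h2, h3⟩
  · rcases h' with h' | ⟨h1', _⟩
    · exact BG_unique (hF.sound _ _ _ _ _ h) (hF.sound _ _ _ _ _ h')
    · exact absurd h (h1' a (hF.bd _ _ _ _ _ h).1 b (hF.bd _ _ _ _ _ h).2)
  · rcases h' with h' | ⟨h1', h2', h3'⟩
    · exact absurd h' (h1 a' (hF.bd _ _ _ _ _ h').1 b' (hF.bd _ _ _ _ _ h').2)
    · refine ⟨by rw [h2, h2'], ?_⟩
      rcases h3 with ⟨u1, u2, u3⟩ | ⟨u1, u2⟩
      · rcases h3' with ⟨v1, v2, v3⟩ | ⟨v1, v2⟩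
        · by_contra hne
          rcases lt_or_gt_of_ne hne with g | g
          · exact v3 b g u2
          · exact u3 b' g v2
        · exact absurd u2 (v2 b u1)
      · rcases h3' with ⟨v1, v2, v3⟩ | ⟨v1, v2⟩
        · exact absurd v2 (u2 b' v1)
        · rw [u1, v1]

theorem AB_exists (s n : ℕ) (X : ℕ → Bool) : ∃ a b, AB τ F s n X a b := by
  classical
  by_cases h : ∃ a b, F s n X a b
  · obtain ⟨a, b, h⟩ := h
    exact ⟨a, b, Or.inl h⟩
  · push Not at h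
    by_cases h2 : ∃ b, b < rr n ∧ pre X s = pre (sh τ (b + 1) 0 X) s
    · refine ⟨0, Nat.find h2, Or.inr ⟨fun a' _ b' _ => h a' b', rfl, Or.inl
        ⟨(Nat.find_spec h2).1, (Nat.find_spec h2).2, fun p hp he => ?_⟩⟩⟩
      exact Nat.find_min h2 hp ⟨hp.trans (Nat.find_spec h2).1, he⟩
    · push Not at h2
      exact ⟨0, 0, Or.inr ⟨fun a' _ b' _ => h a' b', rfl, Or.inr ⟨rfl, h2⟩⟩⟩

theorem mem_Cl (hF : FB τ F) {s n : ℕ} {X Y : ℕ → Bool} {a b : ℕ} (h : AB τ F s n X a b) :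
    Y ∈ Cl τ F s n X ↔ ∃ i ≤ a + b, Y = sh τ i a X := by
  constructor
  · rintro ⟨a', b', h1, h2⟩
    obtain ⟨rfl, rfl⟩ := AB_unique hF h h1
    exact h2
  · intro h2
    exact ⟨a, b, h, h2⟩

theorem self_mem_Cl (hF : FB τ F) (s n : ℕ) (X : ℕ → Bool) : X ∈ Cl τ F s n X := by
  obtain ⟨a, b, h⟩ := AB_exists (τ := τ) (F := F) s n X
  exact (mem_Cl hF h).2 ⟨a, by omega, (sh_self a X).symm⟩

/-- in the aperiodic case -/
theorem Cl_of_F (hF : FB τ F) {s n : ℕ} {X : ℕ → Bool} {a b i : ℕ} (h : BG τ n X a b)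
    (hi : i ≤ a + b) {a' b' : ℕ} (h1 : F s n (sh τ i a X) a' b') :
    Cl τ F s n (sh τ i a X) = {Y | ∃ j ≤ a + b, Y = sh τ j a X} := by
  obtain ⟨rfl, rfl⟩ := BG_unique (hF.sound _ _ _ _ _ h1) (BG_shift h hi)
  ext Y
  rw [mem_Cl hF (Or.inl h1)]
  have e : a' + (a + b - a') = a + b := by omega
  rw [e]
  simp only [sh_sh, Set.mem_ofPred_eq]

/-- the orbit of a periodic point -/
def Or' (τ : Equiv.Perm (ℕ → Bool)) (p : ℕ) (X : ℕ → Bool) : Set (ℕ → Bool) :=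
  {Y | ∃ j ≤ p, Y = sh τ j 0 X}

theorem Or_eq {p : ℕ} {X : ℕ → Bool} (hX : O τ ((p : ℤ) + 1) X = X) {i : ℕ} (hi : i ≤ p) :
    Or' τ p (sh τ i 0 X) = Or' τ p X := by
  have per : ∀ m : ℤ, O τ (m + (p + 1)) X = O τ m X := by
    intro m
    rw [← O_add, hX]
  ext Y
  unfold Or' sh
  simp only [Set.mem_ofPred_eq, O_add]
  constructor
  · rintro ⟨j, hj, rfl⟩
    by_cases h : i + j ≤ p
    · refine ⟨i + j, h, ?_⟩
      congr 1
      push_cast
      ring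
    · refine ⟨i + j - (p + 1), by omega, ?_⟩
      rw [← per (((i + j - (p + 1) : ℕ) : ℤ) - ((0 : ℕ) : ℤ))]
      congr 1
      omega
  · rintro ⟨j, hj, rfl⟩
    by_cases h : i ≤ j
    · refine ⟨j - i, by omega, ?_⟩
      congr 1
      omega
    · refine ⟨j + (p + 1) - i, by omega, ?_⟩
      rw [← per]
      congr 1
      omega

/-- in the periodic case -/
theorem Cl_periodic (hF : FB τ F) {n p : ℕ} {X : ℕ → Bool} (hp : p < rr n)
    (hX : O τ ((p : ℤ) + 1) X = X) {s : ℕ}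
    (hs : ∀ p' < p, ¬ pre X s = pre (sh τ (p' + 1) 0 X) s) : Cl τ F s n X = Or' τ p X := by
  have hAp : ¬ Ap τ n X := fun h => h p hp hX
  have e : sh τ (p + 1) 0 X = X := by
    unfold sh
    push_cast
    rw [sub_zero]
    exact hX
  have h1 : AB τ F s n X 0 p := by
    refine Or.inr ⟨fun a' _ b' _ h => hAp (hF.sound _ _ _ _ _ h).1, rfl, Or.inl ⟨hp, ?_, hs⟩⟩
    rw [e]
  ext Y
  rw [mem_Cl hF h1, zero_add]
  rfl

/-- the stage after which a point of least period `p + 1` is recognised -/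
theorem exists_stage {p : ℕ} {X : ℕ → Bool} (hmin : ∀ p' < p, O τ ((p' : ℤ) + 1) X ≠ X) :
    ∃ s0, ∀ s ≥ s0, ∀ p' < p, ¬ pre X s = pre (sh τ (p' + 1) 0 X) s := by
  have h1 : ∀ k : ℕ, ∃ m, k < p → ¬ pre X m = pre (sh τ (k + 1) 0 X) m := by
    intro k
    by_cases hk : k < p
    · have e1 : X ≠ sh τ (k + 1) 0 X := by
        intro e
        apply hmin k hk
        unfold sh at e
        push_cast at e
        rw [sub_zero] at e
        exact e.symm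
      obtain ⟨m, hm⟩ := exists_pre_ne e1
      exact ⟨m, fun _ => hm⟩
    · exact ⟨0, fun h => absurd h hk⟩
  choose f hf using h1
  refine ⟨(Finset.range p).sup f, fun s hs k hk => ?_⟩
  have : f k ≤ (Finset.range p).sup f := Finset.le_sup (Finset.mem_range.2 hk)
  exact pre_ne_mono (this.trans hs) (hf k hk)

theorem min_O {p : ℕ} {X : ℕ → Bool} (i : ℤ) (h : O τ ((p : ℤ) + 1) X ≠ X) :
    O τ ((p : ℤ) + 1) (O τ i X) ≠ O τ i X := by
  intro h2
  apply h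
  rw [O_add, add_comm, ← O_add] at h2
  exact O_inj τ h2

theorem per_O {p : ℕ} {X : ℕ → Bool} (i : ℤ) (h : O τ ((p : ℤ) + 1) X = X) :
    O τ ((p : ℤ) + 1) (O τ i X) = O τ i X := by
  rw [O_add, add_comm, ← O_add, h]

/-- the classes are eventually constant -/
theorem Cl_stable (hF : FB τ F) (n : ℕ) (X : ℕ → Bool) :
    ∃ (s0 : ℕ) (C : Set (ℕ → Bool)), C.Finite ∧ X ∈ C ∧ ∀ s ≥ s0, ∀ Y ∈ C, Cl τ F s n Y = C := by
  classical
  by_cases hA : Ap τ n X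
  · obtain ⟨a, b, h⟩ := exists_BG hA
    have hst : ∀ i : ℕ, ∃ s, i ≤ a + b → F s n (sh τ i a X) i (a + b - i) := by
      intro i
      by_cases hi : i ≤ a + b
      · obtain ⟨s, hs⟩ := hF.compl _ _ _ _ (BG_shift h hi)
        exact ⟨s, fun _ => hs⟩
      · exact ⟨0, fun h => absurd h hi⟩
    choose f hf using hst
    refine ⟨(Finset.range (a + b + 1)).sup f, {Y | ∃ j ≤ a + b, Y = sh τ j a X}, ?_, ?_, ?_⟩
    · refine ((Finset.range (a + b + 1)).image (fun j => sh τ j a X)).finite_toSet.subset ?_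
      rintro Y ⟨j, hj, rfl⟩
      rw [Finset.mem_coe, Finset.mem_image]
      exact ⟨j, Finset.mem_range.2 (by omega), rfl⟩
    · exact ⟨a, by omega, (sh_self a X).symm⟩
    · rintro s hs Y ⟨i, hi, rfl⟩
      have : f i ≤ (Finset.range (a + b + 1)).sup f :=
        Finset.le_sup (Finset.mem_range.2 (by omega))
      exact Cl_of_F hF h hi (hF.mono _ _ _ _ _ _ (this.trans hs) (hf i hi))
  · have hex : ∃ p, p < rr n ∧ O τ ((p : ℤ) + 1) X = X := by
      unfold Ap at hA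
      push Not at hA
      exact hA
    obtain ⟨hp, hX⟩ := Nat.find_spec hex
    have hmin : ∀ p' < Nat.find hex, O τ ((p' : ℤ) + 1) X ≠ X := fun p' hp' he =>
      Nat.find_min hex hp' ⟨hp'.trans hp, he⟩
    obtain ⟨p, hpe⟩ : ∃ p, p = Nat.find hex := ⟨_, rfl⟩
    rw [← hpe] at hp hX hmin
    have hst : ∀ i : ℕ, ∃ s0, ∀ s ≥ s0, ∀ p' < p,
        ¬ pre (sh τ i 0 X) s = pre (sh τ (p' + 1) 0 (sh τ i 0 X)) s := fun i =>
      exists_stage (X := sh τ i 0 X) fun p' hp' => min_O _ (hmin p' hp')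
    choose f hf using hst
    refine ⟨(Finset.range (p + 1)).sup f, Or' τ p X, ?_, ⟨0, by omega, (sh_self 0 X).symm⟩, ?_⟩
    · refine ((Finset.range (p + 1)).image (fun j => sh τ j 0 X)).finite_toSet.subset ?_
      rintro Y ⟨j, hj, rfl⟩
      rw [Finset.mem_coe, Finset.mem_image]
      exact ⟨j, Finset.mem_range.2 (by omega), rfl⟩
    · rintro s hs Y ⟨i, hi, rfl⟩
      have : f i ≤ (Finset.range (p + 1)).sup f := Finset.le_sup (Finset.mem_range.2 (by omega))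
      rw [Cl_periodic hF (X := sh τ i 0 X) hp (per_O _ hX) (hf i s (this.trans hs)), Or_eq hX hi]

theorem lt_rr (n : ℕ) : n < rr n := by
  unfold rr
  have : n < 5 ^ n := Nat.lt_pow_self (by norm_num)
  omega

/-- for almost all levels, `X` and its first translate have the same class -/
theorem modulus (hc : CH τ) (hF : FB τ F) (X : ℕ → Bool) :
    ∃ (N : ℕ) (M : ℕ → ℕ → Prop), (SI X fun x : ℕ × ℕ => M x.1 x.2) ∧
      (∀ n ≥ N, ∃ m, M n m) ∧
      ∀ n ≥ N, ∀ m, M n m → ∀ s ≥ m, Cl τ F s n X = Cl τ F s n (sh τ 1 0 X) := by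
  classical
  by_cases hper : ∃ p : ℕ, O τ ((p : ℤ) + 1) X = X
  · have hX := Nat.find_spec hper
    have hmin : ∀ p' < Nat.find hper, O τ ((p' : ℤ) + 1) X ≠ X := fun p' hp' he =>
      Nat.find_min hper hp' he
    obtain ⟨p, hpe⟩ : ∃ p, p = Nat.find hper := ⟨_, rfl⟩
    rw [← hpe] at hX hmin
    obtain ⟨s1, hs1⟩ := exists_stage hmin
    obtain ⟨s2, hs2⟩ := exists_stage (X := sh τ 1 0 X) (p := p) fun p' hp' =>
      min_O _ (hmin p' hp')
    refine ⟨p, fun _ m => max s1 s2 ≤ m, ?_, fun n _ => ⟨max s1 s2, le_rfl⟩, ?_⟩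
    · exact SI.of_prim (Primrec.nat_le.comp (Primrec.const _) Primrec.snd)
    · intro n hn m hm s hs
      have hp : p < rr n := lt_of_le_of_lt hn (lt_rr n)
      rw [Cl_periodic hF hp hX (hs1 s (by omega)),
        Cl_periodic hF (X := sh τ 1 0 X) hp (per_O _ hX) (hs2 s (by omega))]
      by_cases h1 : 1 ≤ p
      · exact (Or_eq hX h1).symm
      · have hp0 : p = 0 := by omega
        have e : sh τ 1 0 X = X := by
          unfold sh
          rw [hp0] at hX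
          simpa using hX
        rw [e]
  · push Not at hper
    have hAp : ∀ n, Ap τ n X := fun n k _ => hper k
    obtain ⟨N, hN⟩ : ∃ N, ∀ n ≥ N, ¬ XB τ n (sh τ 1 0 X) := by
      by_cases h : ∃ n0, XB τ n0 (sh τ 1 0 X)
      · obtain ⟨n0, h0⟩ := h
        exact ⟨n0 + 1, fun n hn hB => by
          have := XB_level h0 hB
          omega⟩
      · push Not at h
        exact ⟨0, fun n _ => h n⟩
    refine ⟨N, fun n m => (∃ x : ℕ × ℕ, F m n X x.1 x.2) ∧ ∃ x : ℕ × ℕ, F m n (sh τ 1 0 X) x.1 x.2,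
      ?_, ?_, ?_⟩
    · have hi : Primrec fun z : (ℕ × ℕ) × (ℕ × ℕ) => ((z.1.2, z.1.1), z.2) :=
        ((Primrec.snd.comp Primrec.fst).pair (Primrec.fst.comp Primrec.fst)).pair Primrec.snd
      have h1 : US fun X (x : ℕ × ℕ) => ∃ y : ℕ × ℕ, F x.2 x.1 X y.1 y.2 :=
        US.ex (p := fun X (x : ℕ × ℕ) (y : ℕ × ℕ) => F x.2 x.1 X y.1 y.2) (hF.us.comp hi)
      have h2 := US.sh' hc h1 (f := fun _ : ℕ × ℕ => ((1, 0) : ℕ × ℕ))
        (g := fun x : ℕ × ℕ => x) (Primrec.const (1, 0)) Primrec.id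
      exact (h1.and h2).to_si X
    · intro n _
      obtain ⟨a, b, h⟩ := exists_BG (hAp n)
      obtain ⟨a', b', h'⟩ := exists_BG (Ap_sh (k := 1) (l := 0).2 (hAp n))
      obtain ⟨s, hs⟩ := hF.compl _ _ _ _ h
      obtain ⟨s', hs'⟩ := hF.compl _ _ _ _ h'
      exact ⟨max s s', ⟨(a, b), hF.mono _ _ _ _ _ _ (le_max_left _ _) hs⟩,
        ⟨(a', b'), hF.mono _ _ _ _ _ _ (le_max_right _ _) hs'⟩⟩
    · rintro n hn m ⟨⟨⟨a, b⟩, h1⟩, ⟨⟨a', b'⟩, h2⟩⟩ s hs
      simp only at h1 h2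
      have hB := hF.sound _ _ _ _ _ h1
      have hb : b ≠ 0 := by
        rintro rfl
        exact hN n hn hB.2.2.2.1
      have e0 : sh τ a a X = X := sh_self a X
      have e1 : sh τ (a + 1) a X = sh τ 1 0 X := by
        unfold sh
        congr 1
        push_cast
        ring
      have c1 := Cl_of_F hF (s := s) hB (i := a) (by omega)
        (a' := a) (b' := b) (by rw [e0]; exact hF.mono _ _ _ _ _ _ hs h1)
      have c2 := Cl_of_F hF (s := s) hB (i := a + 1) (by omega)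
        (a' := a') (b' := b') (by rw [e1]; exact hF.mono _ _ _ _ _ _ hs h2)
      rw [e0] at c1
      rw [e1] at c2
      rw [c1, c2]

theorem us_AB (hc : CH τ) (hF : FB τ F) :
    US fun X (x : (ℕ × ℕ) × (ℕ × ℕ)) => AB τ F x.1.1 x.1.2 X x.2.1 x.2.2 := by
  have ps : Primrec fun x : (ℕ × ℕ) × (ℕ × ℕ) => x.1.1 := Primrec.fst.comp Primrec.fst
  have pn : Primrec fun x : (ℕ × ℕ) × (ℕ × ℕ) => x.1.2 := Primrec.snd.comp Primrec.fst
  have pa : Primrec fun x : (ℕ × ℕ) × (ℕ × ℕ) => x.2.1 := Primrec.fst.comp Primrec.snd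
  have pb : Primrec fun x : (ℕ × ℕ) × (ℕ × ℕ) => x.2.2 := Primrec.snd.comp Primrec.snd
  have hE : US fun X (x : (ℕ × ℕ) × (ℕ × ℕ)) => pre X x.1.1 = pre (sh τ (x.2.2 + 1) 0 X) x.1.1 :=
    (us_eq hc).comp (f := fun x : (ℕ × ℕ) × (ℕ × ℕ) => ((x.2.2 + 1, 0), x.1.1))
      (((Primrec.succ.comp pb).pair (Primrec.const 0)).pair ps)
  have hN : US fun X (x : ((ℕ × ℕ) × (ℕ × ℕ)) × ℕ) =>
      ¬ pre X x.1.1.1 = pre (sh τ (x.2 + 1) 0 X) x.1.1.1 :=
    (us_neq hc).comp (f := fun x : ((ℕ × ℕ) × (ℕ × ℕ)) × ℕ => ((x.2 + 1, 0), x.1.1.1))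
      (((Primrec.succ.comp Primrec.snd).pair (Primrec.const 0)).pair (ps.comp Primrec.fst))
  refine US.or hF.us (US.and ?_ (US.and (US.of_prim ?_) (US.or (US.and (US.of_prim ?_)
    (US.and hE ?_)) (US.and (US.of_prim ?_) ?_))))
  · refine US.all_lt (p := fun X (x : (ℕ × ℕ) × (ℕ × ℕ)) (a' : ℕ) =>
      ∀ b' < x.1.1 + 1, ¬ F x.1.1 x.1.2 X a' b') ?_ (Primrec.succ.comp ps)
    refine US.all_lt (p := fun X (y : ((ℕ × ℕ) × (ℕ × ℕ)) × ℕ) (b' : ℕ) =>
      ¬ F y.1.1.1 y.1.1.2 X y.2 b') ?_ (Primrec.succ.comp (ps.comp Primrec.fst))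
    exact hF.nus.comp (f := fun z : (((ℕ × ℕ) × (ℕ × ℕ)) × ℕ) × ℕ => (z.1.1.1, (z.1.2, z.2)))
      ((Primrec.fst.comp (Primrec.fst.comp Primrec.fst)).pair
        ((Primrec.snd.comp Primrec.fst).pair Primrec.snd))
  · exact Primrec.eq.comp pa (Primrec.const 0)
  · exact Primrec.nat_lt.comp pb (primrec_rr.comp pn)
  · exact US.all_lt (p := fun X (x : (ℕ × ℕ) × (ℕ × ℕ)) (p : ℕ) =>
      ¬ pre X x.1.1 = pre (sh τ (p + 1) 0 X) x.1.1) hN pb
  · exact Primrec.eq.comp pb (Primrec.const 0)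
  · exact US.all_lt (p := fun X (x : (ℕ × ℕ) × (ℕ × ℕ)) (p : ℕ) =>
      ¬ pre X x.1.1 = pre (sh τ (p + 1) 0 X) x.1.1) hN (primrec_rr.comp pn)

end

end Pool.Agent.U35.ZA
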