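import Pool.Agent.U35.ZA.Stg
import Pool.Agent.U35.ZA.Cst

set_option autoImplicit false

/-!
The construction is computable, uniformly in the oracle.
-/

namespace Pool.Agent.U35.ZA

open Encodable Pool.Agent.Helper227
open Pool.Agent.H548R2.Post (hlt En res jn ext pX pJ mX enB resB primrec_En primrec_resB
  primrec_enB t29_pre t42_En_congr t42_jn t42_ext_pre t42_pre_congr)

theorem resB_eq' (s e : ℕ) (σ : List Bool) (L : List ℕ) :
    resB s e [] σ 0 L = res s e (jn (ext σ) L) := by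
  unfold resB res
  simp only [t29_pre]

theorem pX_eq' (σ : List Bool) (t : ℕ) : pX [] σ 0 t = pre (ext σ) t := by
  unfold pX pre ext
  refine List.map_congr_left fun i _ => ?_
  unfold mX
  simp

theorem enB_eq' (s n z : ℕ) (σ : List Bool) : enB s n z [] σ 0 = true ↔ En s n z (ext σ) := by
  unfold enB En
  simp only [pX_eq', List.any_eq_true, List.mem_range, Nat.lt_succ_iff]

theorem us_res : US fun Y (x : (ℕ × ℕ × ℕ) × List ℕ) => res x.1.1 x.1.2.1 (jn Y x.2) ≤ x.1.2.2 := by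
  have h1 : PrimrecPred fun y : List Bool × ((ℕ × ℕ × ℕ) × List ℕ) =>
      resB y.2.1.1 y.2.1.2.1 [] y.1 0 y.2.2 ≤ y.2.1.2.2 := by
    refine Primrec.nat_le.comp ?_ (Primrec.snd.comp (Primrec.snd.comp (Primrec.fst.comp
      Primrec.snd)))
    exact primrec_resB.comp (g := fun y : List Bool × ((ℕ × ℕ × ℕ) × List ℕ) =>
      ((([] : List Bool), y.1), ((y.2.1.1, y.2.1.2.1), ((0 : ℕ), y.2.2))))
      (((Primrec.const []).pair Primrec.fst).pair
        (((Primrec.fst.comp (Primrec.fst.comp Primrec.snd)).pair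
          (Primrec.fst.comp (Primrec.snd.comp (Primrec.fst.comp Primrec.snd)))).pair
          ((Primrec.const 0).pair (Primrec.snd.comp Primrec.snd))))
  have h2 := US.of_pre (V := fun x : (ℕ × ℕ × ℕ) × List ℕ => x.1.1) (S1.of_prim h1)
    (Computable.fst.comp Computable.fst)
  refine h2.of_eq fun Y x => ?_
  simp only [resB_eq']
  have : res x.1.1 x.1.2.1 (jn (ext (pre Y x.1.1)) x.2) = res x.1.1 x.1.2.1 (jn Y x.2) := by
    unfold res
    congr 1
    apply List.find?_congr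
    intro t ht
    rw [List.mem_range] at ht
    congr 1
    exact t42_pre_congr fun i hi => t42_jn _ (by omega)
  rw [this]

theorem us_nres :
    US fun Y (x : (ℕ × ℕ × ℕ) × List ℕ) => ¬ res x.1.1 x.1.2.1 (jn Y x.2) ≤ x.1.2.2 := by
  have h1 : PrimrecPred fun y : List Bool × ((ℕ × ℕ × ℕ) × List ℕ) =>
      resB y.2.1.1 y.2.1.2.1 [] y.1 0 y.2.2 ≤ y.2.1.2.2 := by
    refine Primrec.nat_le.comp ?_ (Primrec.snd.comp (Primrec.snd.comp (Primrec.fst.comp
      Primrec.snd)))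
    exact primrec_resB.comp (g := fun y : List Bool × ((ℕ × ℕ × ℕ) × List ℕ) =>
      ((([] : List Bool), y.1), ((y.2.1.1, y.2.1.2.1), ((0 : ℕ), y.2.2))))
      (((Primrec.const []).pair Primrec.fst).pair
        (((Primrec.fst.comp (Primrec.fst.comp Primrec.snd)).pair
          (Primrec.fst.comp (Primrec.snd.comp (Primrec.fst.comp Primrec.snd)))).pair
          ((Primrec.const 0).pair (Primrec.snd.comp Primrec.snd))))
  have h2 := US.of_pre (V := fun x : (ℕ × ℕ × ℕ) × List ℕ => x.1.1)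
    (S1.of_prim (PrimrecPred.not h1)) (Computable.fst.comp Computable.fst)
  refine h2.of_eq fun Y x => ?_
  simp only [resB_eq']
  have : res x.1.1 x.1.2.1 (jn (ext (pre Y x.1.1)) x.2) = res x.1.1 x.1.2.1 (jn Y x.2) := by
    unfold res
    congr 1
    apply List.find?_congr
    intro t ht
    rw [List.mem_range] at ht
    congr 1
    exact t42_pre_congr fun i hi => t42_jn _ (by omega)
  rw [this]

theorem primrec_En' : PrimrecPred fun y : List Bool × (ℕ × ℕ × ℕ) =>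
    En y.2.1 y.2.2.1 y.2.2.2 (ext y.1) := by
  have h1 : PrimrecPred fun y : List Bool × (ℕ × ℕ × ℕ) =>
      enB y.2.1 y.2.2.1 y.2.2.2 [] y.1 0 = true := by
    refine Primrec.eq.comp ?_ (Primrec.const true)
    exact primrec_enB.comp (g := fun y : List Bool × (ℕ × ℕ × ℕ) =>
      ((([] : List Bool), y.1), (y.2.1, (y.2.2.1, (y.2.2.2, (0 : ℕ))))))
      (((Primrec.const []).pair Primrec.fst).pair
        ((Primrec.fst.comp Primrec.snd).pair
          ((Primrec.fst.comp (Primrec.snd.comp Primrec.snd)).pair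
            ((Primrec.snd.comp (Primrec.snd.comp Primrec.snd)).pair (Primrec.const 0)))))
  exact h1.of_eq fun y => enB_eq' _ _ _ _

theorem us_En : US fun Y (x : ℕ × ℕ × ℕ) => En x.1 x.2.1 x.2.2 Y := by
  have h2 := US.of_pre (V := fun x : ℕ × ℕ × ℕ => x.1) (S1.of_prim primrec_En') Computable.fst
  exact h2.of_eq fun Y x => t42_En_congr fun i hi => t42_ext_pre hi

theorem us_nEn : US fun Y (x : ℕ × ℕ × ℕ) => ¬ En x.1 x.2.1 x.2.2 Y := by
  have h2 := US.of_pre (V := fun x : ℕ × ℕ × ℕ => x.1)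
    (S1.of_prim (PrimrecPred.not primrec_En')) Computable.fst
  exact h2.of_eq fun Y x => not_congr (t42_En_congr fun i hi => t42_ext_pre hi)

theorem us_EnJ : US fun Y (x : (ℕ × ℕ) × List ℕ) => En x.1.2 x.1.1 x.1.1 (jn Y x.2) := by
  have h1 := primrec_En.comp (f := fun y : List Bool × ((ℕ × ℕ) × List ℕ) =>
    ((y.2.1.2, (y.2.1.1, y.2.1.1)), (y.1, y.2.2)))
    (((Primrec.snd.comp (Primrec.fst.comp Primrec.snd)).pair
      ((Primrec.fst.comp (Primrec.fst.comp Primrec.snd)).pair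
        (Primrec.fst.comp (Primrec.fst.comp Primrec.snd)))).pair
      (Primrec.fst.pair (Primrec.snd.comp Primrec.snd)))
  have h2 := US.of_pre (V := fun x : (ℕ × ℕ) × List ℕ => x.1.2) (S1.of_prim h1)
    (Computable.snd.comp Computable.fst)
  exact h2.of_eq fun Y x => t42_En_congr fun i hi => t42_jn _ hi

theorem us_nEnJ : US fun Y (x : (ℕ × ℕ) × List ℕ) => ¬ En x.1.2 x.1.1 x.1.1 (jn Y x.2) := by
  have h1 := primrec_En.comp (f := fun y : List Bool × ((ℕ × ℕ) × List ℕ) =>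
    ((y.2.1.2, (y.2.1.1, y.2.1.1)), (y.1, y.2.2)))
    (((Primrec.snd.comp (Primrec.fst.comp Primrec.snd)).pair
      ((Primrec.fst.comp (Primrec.fst.comp Primrec.snd)).pair
        (Primrec.fst.comp (Primrec.fst.comp Primrec.snd)))).pair
      (Primrec.fst.pair (Primrec.snd.comp Primrec.snd)))
  have h2 := US.of_pre (V := fun x : (ℕ × ℕ) × List ℕ => x.1.2)
    (S1.of_prim (PrimrecPred.not h1)) (Computable.snd.comp Computable.fst)
  exact h2.of_eq fun Y x => not_congr (t42_En_congr fun i hi => t42_jn _ hi)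

theorem primrec_mem {α β : Type} [Primcodable α] [Primcodable β] {f : α → β} {g : α → List β}
    (hf : Primrec f) (hg : Primrec g) : PrimrecPred fun a => f a ∈ g a := by
  have := PP.ex_mem (f := g) (p := fun a b => b = f a)
    (Primrec.eq.comp Primrec.snd (hf.comp Primrec.fst)) hg
  exact this.of_eq fun a => by simp

theorem primrec_el : Primrec el := Primrec.fst.comp Primrec.unpair

theorem primrec_lv : Primrec lv := Primrec.fst.comp (Primrec.unpair.comp primrec_el)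

/-- parameters of a step: `((k, l), (a, b)), (s, Ls)` -/
abbrev PT : Type := ((ℕ × ℕ) × (ℕ × ℕ)) × (ℕ × List (List ℕ))

/-- the condition `Good` on finite data -/
def Gd (τ : Equiv.Perm (ℕ → Bool)) (X : ℕ → Bool) (x : PT) : Prop :=
  (∀ i < x.1.2.1 + x.1.2.2 + 1, ¬ el x.2.1 ∈ x.2.2.getD i [] ∧ ∀ e < lv x.2.1,
    res x.2.1 e (jn (sh τ (x.1.1.1 + i) (x.1.1.2 + x.1.2.1) X) (x.2.2.getD i [])) ≤ el x.2.1) ∧
  ∃ i < x.1.2.1 + x.1.2.2 + 1,
    En x.2.1 (lv x.2.1) (el x.2.1) (sh τ (x.1.1.1 + i) (x.1.1.2 + x.1.2.1) X) ∧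
    ∀ y ∈ x.2.2.getD i [], ¬ En x.2.1 (lv x.2.1) y (sh τ (x.1.1.1 + i) (x.1.1.2 + x.1.2.1) X)

section
variable {τ : Equiv.Perm (ℕ → Bool)} (hc : CH τ)
include hc

theorem us_Gd : (US fun X (x : PT) => Gd τ X x) ∧ US fun X (x : PT) => ¬ Gd τ X x := by
  have pk : Primrec fun x : PT => x.1.1.1 := Primrec.fst.comp (Primrec.fst.comp Primrec.fst)
  have pl : Primrec fun x : PT => x.1.1.2 := Primrec.snd.comp (Primrec.fst.comp Primrec.fst)
  have pa : Primrec fun x : PT => x.1.2.1 := Primrec.fst.comp (Primrec.snd.comp Primrec.fst)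
  have pb : Primrec fun x : PT => x.1.2.2 := Primrec.snd.comp (Primrec.snd.comp Primrec.fst)
  have ps : Primrec fun x : PT => x.2.1 := Primrec.fst.comp Primrec.snd
  have pL : Primrec fun x : PT => x.2.2 := Primrec.snd.comp Primrec.snd
  have pbd : Primrec fun x : PT => x.1.2.1 + x.1.2.2 + 1 :=
    Primrec.succ.comp (Primrec.nat_add.comp pa pb)
  have pkl : Primrec fun y : PT × ℕ => (y.1.1.1.1 + y.2, y.1.1.1.2 + y.1.1.2.1) :=
    (Primrec.nat_add.comp (pk.comp Primrec.fst) Primrec.snd).pair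
      (Primrec.nat_add.comp (pl.comp Primrec.fst) (pa.comp Primrec.fst))
  have pget : Primrec fun y : PT × ℕ => y.1.2.2.getD y.2 [] :=
    (Primrec.list_getD []).comp (pL.comp Primrec.fst) Primrec.snd
  have pel : Primrec fun y : PT × ℕ => el y.1.2.1 := primrec_el.comp (ps.comp Primrec.fst)
  have plv : Primrec fun y : PT × ℕ => lv y.1.2.1 := primrec_lv.comp (ps.comp Primrec.fst)
  have hmem : PrimrecPred fun y : PT × ℕ => el y.1.2.1 ∈ y.1.2.2.getD y.2 [] :=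
    primrec_mem pel pget
  have r1 : US fun X (w : (PT × ℕ) × ℕ) => res w.1.1.2.1 w.2
      (jn (sh τ (w.1.1.1.1.1 + w.1.2) (w.1.1.1.1.2 + w.1.1.1.2.1) X) (w.1.1.2.2.getD w.1.2 [])) ≤
        el w.1.1.2.1 :=
    US.sh' hc us_res (f := fun w : (PT × ℕ) × ℕ =>
      (w.1.1.1.1.1 + w.1.2, w.1.1.1.1.2 + w.1.1.1.2.1))
      (g := fun w : (PT × ℕ) × ℕ => ((w.1.1.2.1, (w.2, el w.1.1.2.1)), w.1.1.2.2.getD w.1.2 []))
      (pkl.comp Primrec.fst)
      (((ps.comp (Primrec.fst.comp Primrec.fst)).pair (Primrec.snd.pair (pel.comp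
        Primrec.fst))).pair (pget.comp Primrec.fst))
  have r2 : US fun X (w : (PT × ℕ) × ℕ) => ¬ res w.1.1.2.1 w.2
      (jn (sh τ (w.1.1.1.1.1 + w.1.2) (w.1.1.1.1.2 + w.1.1.1.2.1) X) (w.1.1.2.2.getD w.1.2 [])) ≤
        el w.1.1.2.1 :=
    US.sh' hc us_nres (f := fun w : (PT × ℕ) × ℕ =>
      (w.1.1.1.1.1 + w.1.2, w.1.1.1.1.2 + w.1.1.1.2.1))
      (g := fun w : (PT × ℕ) × ℕ => ((w.1.1.2.1, (w.2, el w.1.1.2.1)), w.1.1.2.2.getD w.1.2 []))
      (pkl.comp Primrec.fst)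
      (((ps.comp (Primrec.fst.comp Primrec.fst)).pair (Primrec.snd.pair (pel.comp
        Primrec.fst))).pair (pget.comp Primrec.fst))
  have e1 : US fun X (w : PT × ℕ) => En w.1.2.1 (lv w.1.2.1) (el w.1.2.1)
      (sh τ (w.1.1.1.1 + w.2) (w.1.1.1.2 + w.1.1.2.1) X) :=
    US.sh' hc us_En (f := fun w : PT × ℕ => (w.1.1.1.1 + w.2, w.1.1.1.2 + w.1.1.2.1))
      (g := fun w : PT × ℕ => (w.1.2.1, (lv w.1.2.1, el w.1.2.1))) pkl
      ((ps.comp Primrec.fst).pair (plv.pair pel))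
  have e2 : US fun X (w : PT × ℕ) => ¬ En w.1.2.1 (lv w.1.2.1) (el w.1.2.1)
      (sh τ (w.1.1.1.1 + w.2) (w.1.1.1.2 + w.1.1.2.1) X) :=
    US.sh' hc us_nEn (f := fun w : PT × ℕ => (w.1.1.1.1 + w.2, w.1.1.1.2 + w.1.1.2.1))
      (g := fun w : PT × ℕ => (w.1.2.1, (lv w.1.2.1, el w.1.2.1))) pkl
      ((ps.comp Primrec.fst).pair (plv.pair pel))
  have e3 : US fun X (w : (PT × ℕ) × ℕ) => En w.1.1.2.1 (lv w.1.1.2.1) w.2
      (sh τ (w.1.1.1.1.1 + w.1.2) (w.1.1.1.1.2 + w.1.1.1.2.1) X) :=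
    US.sh' hc us_En (f := fun w : (PT × ℕ) × ℕ =>
      (w.1.1.1.1.1 + w.1.2, w.1.1.1.1.2 + w.1.1.1.2.1))
      (g := fun w : (PT × ℕ) × ℕ => (w.1.1.2.1, (lv w.1.1.2.1, w.2))) (pkl.comp Primrec.fst)
      ((ps.comp (Primrec.fst.comp Primrec.fst)).pair ((plv.comp Primrec.fst).pair Primrec.snd))
  have e4 : US fun X (w : (PT × ℕ) × ℕ) => ¬ En w.1.1.2.1 (lv w.1.1.2.1) w.2
      (sh τ (w.1.1.1.1.1 + w.1.2) (w.1.1.1.1.2 + w.1.1.1.2.1) X) :=
    US.sh' hc us_nEn (f := fun w : (PT × ℕ) × ℕ =>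
      (w.1.1.1.1.1 + w.1.2, w.1.1.1.1.2 + w.1.1.1.2.1))
      (g := fun w : (PT × ℕ) × ℕ => (w.1.1.2.1, (lv w.1.1.2.1, w.2))) (pkl.comp Primrec.fst)
      ((ps.comp (Primrec.fst.comp Primrec.fst)).pair ((plv.comp Primrec.fst).pair Primrec.snd))
  constructor
  · refine US.and ?_ ?_
    · exact US.all_lt (p := fun X (x : PT) (i : ℕ) => ¬ el x.2.1 ∈ x.2.2.getD i [] ∧
        ∀ e < lv x.2.1, res x.2.1 e (jn (sh τ (x.1.1.1 + i) (x.1.1.2 + x.1.2.1) X)
          (x.2.2.getD i [])) ≤ el x.2.1)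
        (US.and (US.of_prim (PrimrecPred.not hmem)) (US.all_lt (p := fun X (y : PT × ℕ) (e : ℕ) =>
          res y.1.2.1 e (jn (sh τ (y.1.1.1.1 + y.2) (y.1.1.1.2 + y.1.1.2.1) X)
          (y.1.2.2.getD y.2 [])) ≤ el y.1.2.1) r1 plv)) pbd
    · exact US.ex_lt (p := fun X (x : PT) (i : ℕ) =>
        En x.2.1 (lv x.2.1) (el x.2.1) (sh τ (x.1.1.1 + i) (x.1.1.2 + x.1.2.1) X) ∧
        ∀ y ∈ x.2.2.getD i [], ¬ En x.2.1 (lv x.2.1) y
          (sh τ (x.1.1.1 + i) (x.1.1.2 + x.1.2.1) X))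
        (US.and e1 (US.all_mem (p := fun X (w : PT × ℕ) (y : ℕ) =>
          ¬ En w.1.2.1 (lv w.1.2.1) y (sh τ (w.1.1.1.1 + w.2) (w.1.1.1.2 + w.1.1.2.1) X)) e4
          pget)) pbd
  · have h1 : US fun X (x : PT) => (∃ i < x.1.2.1 + x.1.2.2 + 1, el x.2.1 ∈ x.2.2.getD i [] ∨
        ∃ e < lv x.2.1, ¬ res x.2.1 e (jn (sh τ (x.1.1.1 + i) (x.1.1.2 + x.1.2.1) X)
          (x.2.2.getD i [])) ≤ el x.2.1) :=
      US.ex_lt (p := fun X (x : PT) (i : ℕ) => el x.2.1 ∈ x.2.2.getD i [] ∨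
        ∃ e < lv x.2.1, ¬ res x.2.1 e (jn (sh τ (x.1.1.1 + i) (x.1.1.2 + x.1.2.1) X)
          (x.2.2.getD i [])) ≤ el x.2.1)
        (US.or (US.of_prim hmem) (US.ex_lt (p := fun X (y : PT × ℕ) (e : ℕ) =>
          ¬ res y.1.2.1 e (jn (sh τ (y.1.1.1.1 + y.2) (y.1.1.1.2 + y.1.1.2.1) X)
          (y.1.2.2.getD y.2 [])) ≤ el y.1.2.1) r2 plv)) pbd
    have h2 : US fun X (x : PT) => ∀ i < x.1.2.1 + x.1.2.2 + 1,
        ¬ En x.2.1 (lv x.2.1) (el x.2.1) (sh τ (x.1.1.1 + i) (x.1.1.2 + x.1.2.1) X) ∨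
        ∃ y, y ∈ x.2.2.getD i [] ∧ En x.2.1 (lv x.2.1) y
          (sh τ (x.1.1.1 + i) (x.1.1.2 + x.1.2.1) X) :=
      US.all_lt (p := fun X (x : PT) (i : ℕ) =>
        ¬ En x.2.1 (lv x.2.1) (el x.2.1) (sh τ (x.1.1.1 + i) (x.1.1.2 + x.1.2.1) X) ∨
        ∃ y, y ∈ x.2.2.getD i [] ∧ En x.2.1 (lv x.2.1) y
          (sh τ (x.1.1.1 + i) (x.1.1.2 + x.1.2.1) X))
        (US.or e2 (US.ex (p := fun X (w : PT × ℕ) (y : ℕ) => y ∈ w.1.2.2.getD w.2 [] ∧
          En w.1.2.1 (lv w.1.2.1) y (sh τ (w.1.1.1.1 + w.2) (w.1.1.1.2 + w.1.1.2.1) X))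
          (US.and (US.of_prim (primrec_mem Primrec.snd (pget.comp Primrec.fst))) e3))) pbd
    refine (h1.or h2).of_eq fun X x => ?_
    unfold Gd
    rw [not_and_or]
    apply or_congr
    · constructor
      · rintro ⟨i, hi, h | ⟨e, he, h⟩⟩ hall
        · exact (hall i hi).1 h
        · exact h ((hall i hi).2 e he)
      · intro h
        by_contra hcon
        apply h
        intro i hi
        refine ⟨fun hm => hcon ⟨i, hi, Or.inl hm⟩, fun e he => ?_⟩
        by_contra hr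
        exact hcon ⟨i, hi, Or.inr ⟨e, he, hr⟩⟩
    · constructor
      · rintro hall ⟨i, hi, h1, h2⟩
        rcases hall i hi with h | ⟨y, hy, h⟩
        · exact h h1
        · exact h2 y hy h
      · intro h i hi
        by_contra hcon
        rw [not_or, not_not] at hcon
        exact h ⟨i, hi, hcon.1, fun y hy hE => hcon.2 ⟨y, hy, hE⟩⟩

end

/-- `((k, l), (s, L))` says that `L` is the list of `sh k l X` at stage `s` -/
abbrev Fact : Type := (ℕ × ℕ) × (ℕ × List ℕ)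

/-- one step of a certificate; `y` is `((a, b), s), Ls` -/
def Step (τ : Equiv.Perm (ℕ → Bool)) (F : ℕ → ℕ → (ℕ → Bool) → ℕ → ℕ → Prop) (X : ℕ → Bool)
    (C : List Fact) (f : Fact) (y : ((ℕ × ℕ) × ℕ) × List (List ℕ)) : Prop :=
  f.2.1 = y.1.2 + 1 ∧ AB τ F y.1.2 (lv y.1.2) (sh τ f.1.1 f.1.2 X) y.1.1.1 y.1.1.2 ∧
  (∀ i < y.1.1.1 + y.1.1.2 + 1,
    (((f.1.1 + i, f.1.2 + y.1.1.1), (y.1.2, y.2.getD i [])) : Fact) ∈ C) ∧
  ((Gd τ X ((f.1, y.1.1), (y.1.2, y.2)) ∧ f.2.2 = el y.1.2 :: y.2.getD y.1.1.1 []) ∨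
    (¬ Gd τ X ((f.1, y.1.1), (y.1.2, y.2)) ∧ f.2.2 = y.2.getD y.1.1.1 []))

def Closed (τ : Equiv.Perm (ℕ → Bool)) (F : ℕ → ℕ → (ℕ → Bool) → ℕ → ℕ → Prop) (X : ℕ → Bool)
    (C : List Fact) : Prop :=
  ∀ f ∈ C, (f.2.1 = 0 ∧ f.2.2 = []) ∨ ∃ y, Step τ F X C f y

section
variable {τ : Equiv.Perm (ℕ → Bool)} {F : ℕ → ℕ → (ℕ → Bool) → ℕ → ℕ → Prop}

theorem us_Closed (hc : CH τ) (hF : FB τ F) : US fun X (C : List Fact) => Closed τ F X C := by
  have pf : Primrec fun z : (List Fact × Fact) × (((ℕ × ℕ) × ℕ) × List (List ℕ)) => z.1.2 :=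
    Primrec.snd.comp Primrec.fst
  have py : Primrec fun z : (List Fact × Fact) × (((ℕ × ℕ) × ℕ) × List (List ℕ)) => z.2 :=
    Primrec.snd
  have pC : Primrec fun z : (List Fact × Fact) × (((ℕ × ℕ) × ℕ) × List (List ℕ)) => z.1.1 :=
    Primrec.fst.comp Primrec.fst
  have ps : Primrec fun z : (List Fact × Fact) × (((ℕ × ℕ) × ℕ) × List (List ℕ)) => z.2.1.2 :=
    Primrec.snd.comp (Primrec.fst.comp Primrec.snd)
  have pab : Primrec fun z : (List Fact × Fact) × (((ℕ × ℕ) × ℕ) × List (List ℕ)) => z.2.1.1 :=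
    Primrec.fst.comp (Primrec.fst.comp Primrec.snd)
  have pa : Primrec fun z : (List Fact × Fact) × (((ℕ × ℕ) × ℕ) × List (List ℕ)) => z.2.1.1.1 :=
    Primrec.fst.comp pab
  have pb : Primrec fun z : (List Fact × Fact) × (((ℕ × ℕ) × ℕ) × List (List ℕ)) => z.2.1.1.2 :=
    Primrec.snd.comp pab
  have pLs : Primrec fun z : (List Fact × Fact) × (((ℕ × ℕ) × ℕ) × List (List ℕ)) => z.2.2 :=
    Primrec.snd.comp Primrec.snd
  have pown : Primrec fun z : (List Fact × Fact) × (((ℕ × ℕ) × ℕ) × List (List ℕ)) =>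
      z.2.2.getD z.2.1.1.1 [] := (Primrec.list_getD []).comp pLs pa
  have hG := us_Gd hc
  have pPT : Primrec fun z : (List Fact × Fact) × (((ℕ × ℕ) × ℕ) × List (List ℕ)) =>
      (((z.1.2.1, z.2.1.1), (z.2.1.2, z.2.2)) : PT) :=
    ((Primrec.fst.comp pf).pair pab).pair (ps.pair pLs)
  refine US.all_mem (f := fun C : List Fact => C) (p := fun X (C : List Fact) (f : Fact) =>
    (f.2.1 = 0 ∧ f.2.2 = []) ∨ ∃ y, Step τ F X C f y) ?_ Primrec.id
  refine US.or (US.of_prim (PrimrecPred.and ?_ ?_)) (US.ex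
    (p := fun X (x : List Fact × Fact) (y : ((ℕ × ℕ) × ℕ) × List (List ℕ)) =>
      Step τ F X x.1 x.2 y) ?_)
  · exact Primrec.eq.comp (Primrec.fst.comp (Primrec.snd.comp Primrec.snd)) (Primrec.const 0)
  · exact Primrec.eq.comp (Primrec.snd.comp (Primrec.snd.comp Primrec.snd)) (Primrec.const [])
  · refine US.and (US.of_prim ?_) (US.and ?_ (US.and ?_ (US.or (US.and ?_ (US.of_prim ?_))
      (US.and ?_ (US.of_prim ?_)))))
    · exact Primrec.eq.comp (Primrec.fst.comp (Primrec.snd.comp pf)) (Primrec.succ.comp ps)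
    · exact US.sh' hc (us_AB hc hF)
        (f := fun z : (List Fact × Fact) × (((ℕ × ℕ) × ℕ) × List (List ℕ)) => z.1.2.1)
        (g := fun z : (List Fact × Fact) × (((ℕ × ℕ) × ℕ) × List (List ℕ)) =>
          ((z.2.1.2, lv z.2.1.2), z.2.1.1))
        (Primrec.fst.comp pf) ((ps.pair (primrec_lv.comp ps)).pair pab)
    · refine US.of_prim (PP.all_lt
        (p := fun (z : (List Fact × Fact) × (((ℕ × ℕ) × ℕ) × List (List ℕ))) (i : ℕ) =>
          (((z.1.2.1.1 + i, z.1.2.1.2 + z.2.1.1.1), (z.2.1.2, z.2.2.getD i [])) : Fact) ∈ z.1.1)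
        ?_ (Primrec.succ.comp (Primrec.nat_add.comp pa pb)))
      refine primrec_mem ?_ (pC.comp Primrec.fst)
      refine Primrec.pair (Primrec.pair ?_ ?_) (Primrec.pair (ps.comp Primrec.fst) ?_)
      · exact Primrec.nat_add.comp (Primrec.fst.comp (Primrec.fst.comp (pf.comp Primrec.fst)))
          Primrec.snd
      · exact Primrec.nat_add.comp (Primrec.snd.comp (Primrec.fst.comp (pf.comp Primrec.fst)))
          (pa.comp Primrec.fst)
      · exact (Primrec.list_getD []).comp (pLs.comp Primrec.fst) Primrec.snd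
    · exact hG.1.comp pPT
    · exact Primrec.eq.comp (Primrec.snd.comp (Primrec.snd.comp pf))
        (Primrec.list_cons.comp (primrec_el.comp ps) pown)
    · exact hG.2.comp pPT
    · exact Primrec.eq.comp (Primrec.snd.comp (Primrec.snd.comp pf)) pown

theorem sh_sh' (i a k l : ℕ) (X : ℕ → Bool) : sh τ i a (sh τ k l X) = sh τ (k + i) (l + a) X := by
  unfold sh
  rw [O_add]
  congr 1
  push_cast
  ring

theorem sh_add_self (a k l : ℕ) (X : ℕ → Bool) : sh τ (k + a) (l + a) X = sh τ k l X := by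
  unfold sh
  congr 1
  push_cast
  ring

theorem Gd_iff (hF : FB τ F) {X : ℕ → Bool} {k l a b s : ℕ} {Ls : List (List ℕ)}
    (hAB : AB τ F s (lv s) (sh τ k l X) a b)
    (hL : ∀ i < a + b + 1, A (Cl τ F) s (sh τ (k + i) (l + a) X) = Ls.getD i []) :
    Gd τ X (((k, l), (a, b)), (s, Ls)) ↔ Act (Cl τ F) s (sh τ k l X) := by
  have hmem : ∀ Y, Y ∈ Cl τ F s (lv s) (sh τ k l X) ↔
      ∃ i < a + b + 1, Y = sh τ (k + i) (l + a) X := by
    intro Y
    rw [mem_Cl hF hAB]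
    simp only [sh_sh', Nat.lt_succ_iff]
  unfold Gd Act Good
  simp only
  constructor
  · rintro ⟨h1, i, hi, h2, h3⟩
    refine ⟨?_, _, (hmem _).2 ⟨i, hi, rfl⟩, h2, ?_⟩
    · intro Y hY
      obtain ⟨j, hj, rfl⟩ := (hmem _).1 hY
      rw [hL j hj]
      exact h1 j hj
    · rw [hL i hi]
      exact h3
  · rintro ⟨h1, Y, hY, h2, h3⟩
    obtain ⟨i, hi, rfl⟩ := (hmem _).1 hY
    refine ⟨?_, i, hi, h2, ?_⟩
    · intro j hj
      have := h1 _ ((hmem _).2 ⟨j, hj, rfl⟩)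
      rw [hL j hj] at this
      exact this
    · rw [hL i hi] at h3
      exact h3

theorem A_succ_pos {s : ℕ} {Y : ℕ → Bool} (h : Act (Cl τ F) s Y) :
    A (Cl τ F) (s + 1) Y = el s :: A (Cl τ F) s Y := by
  classical
  show (if Good (Cl τ F) (A (Cl τ F) s) s (lv s) (el s) Y then el s :: A (Cl τ F) s Y
    else A (Cl τ F) s Y) = _
  have h' : Good (Cl τ F) (A (Cl τ F) s) s (lv s) (el s) Y := h
  rw [if_pos h']

theorem A_succ_neg {s : ℕ} {Y : ℕ → Bool} (h : ¬ Act (Cl τ F) s Y) :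
    A (Cl τ F) (s + 1) Y = A (Cl τ F) s Y := by
  classical
  show (if Good (Cl τ F) (A (Cl τ F) s) s (lv s) (el s) Y then el s :: A (Cl τ F) s Y
    else A (Cl τ F) s Y) = _
  have h' : ¬ Good (Cl τ F) (A (Cl τ F) s) s (lv s) (el s) Y := h
  rw [if_neg h']

theorem Closed.sound (hF : FB τ F) {X : ℕ → Bool} {C : List Fact} (hC : Closed τ F X C) :
    ∀ s, ∀ f ∈ C, f.2.1 = s → A (Cl τ F) s (sh τ f.1.1 f.1.2 X) = f.2.2 := by
  intro s
  induction s with
  | zero =>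
    intro f hf hs
    rcases hC f hf with ⟨_, h2⟩ | ⟨y, h1, _⟩
    · rw [h2]; rfl
    · omega
  | succ s ih =>
    rintro ⟨⟨k, l⟩, ⟨s', L⟩⟩ hf hs
    rcases hC _ hf with ⟨h1, _⟩ | ⟨⟨⟨⟨a, b⟩, t⟩, Ls⟩, h1, h2, h3, h4⟩
    · simp only at h1 hs
      omega
    · simp only at h1 h2 h3 h4 hs ⊢
      have ht : t = s := by omega
      subst ht
      have hL : ∀ i < a + b + 1, A (Cl τ F) t (sh τ (k + i) (l + a) X) = Ls.getD i [] :=
        fun i hi => ih _ (h3 i hi) rfl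
      have hown := hL a (by omega)
      rw [sh_add_self] at hown
      have hiff := Gd_iff hF h2 hL
      rcases h4 with ⟨h5, h6⟩ | ⟨h5, h6⟩
      · rw [A_succ_pos (hiff.1 h5), hown, h6]
      · rw [A_succ_neg (fun h => h5 (hiff.2 h)), hown, h6]

theorem Step.mono {X : ℕ → Bool} {C C' : List Fact} (hCC : ∀ f ∈ C, f ∈ C') {f : Fact}
    {y : ((ℕ × ℕ) × ℕ) × List (List ℕ)} (h : Step τ F X C f y) : Step τ F X C' f y :=
  ⟨h.1, h.2.1, fun i hi => hCC _ (h.2.2.1 i hi), h.2.2.2⟩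

theorem exists_Closed (hF : FB τ F) (X : ℕ → Bool) (s : ℕ) : ∀ k l : ℕ, ∃ C, Closed τ F X C ∧
    (((k, l), (s, A (Cl τ F) s (sh τ k l X))) : Fact) ∈ C := by
  classical
  induction s with
  | zero =>
    intro k l
    refine ⟨[((k, l), (0, []))], ?_, ?_⟩
    · intro f hf
      rw [List.mem_singleton] at hf
      subst hf
      exact Or.inl ⟨rfl, rfl⟩
    · rw [List.mem_singleton]
      rfl
  | succ s ih =>
    intro k l
    obtain ⟨a, b, hAB⟩ := AB_exists (τ := τ) (F := F) s (lv s) (sh τ k l X)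
    have ih' : ∀ i : ℕ, ∃ C, Closed τ F X C ∧
      (((k + i, l + a), (s, A (Cl τ F) s (sh τ (k + i) (l + a) X))) : Fact) ∈ C :=
      fun i => ih _ _
    choose D hD1 hD2 using ih'
    obtain ⟨Ls, hLs⟩ : ∃ Ls : List (List ℕ), Ls = (List.range (a + b + 1)).map
      (fun i => A (Cl τ F) s (sh τ (k + i) (l + a) X)) := ⟨_, rfl⟩
    have hL : ∀ i < a + b + 1, A (Cl τ F) s (sh τ (k + i) (l + a) X) = Ls.getD i [] := by
      intro i hi
      rw [hLs, List.getD_eq_getElem _ _ (by simpa using hi)]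
      simp
    have hown := hL a (by omega)
    rw [sh_add_self] at hown
    have hiff := Gd_iff hF hAB hL
    obtain ⟨f, hf⟩ : ∃ f : Fact, f = ((k, l), (s + 1, A (Cl τ F) (s + 1) (sh τ k l X))) := ⟨_, rfl⟩
    refine ⟨f :: (List.range (a + b + 1)).flatMap D, ?_, ?_⟩
    · intro g hg
      rcases List.mem_cons.1 hg with rfl | hg
      · right
        refine ⟨(((a, b), s), Ls), ?_, ?_, ?_, ?_⟩
        · rw [hf]
        · rw [hf]; exact hAB
        · intro i hi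
          rw [hf]
          refine List.mem_cons_of_mem _ (List.mem_flatMap.2 ⟨i, List.mem_range.2 hi, ?_⟩)
          have := hD2 i
          rw [hL i hi] at this
          exact this
        · rw [hf]
          by_cases hA : Act (Cl τ F) s (sh τ k l X)
          · left
            refine ⟨hiff.2 hA, ?_⟩
            show A (Cl τ F) (s + 1) (sh τ k l X) = el s :: Ls.getD a []
            rw [A_succ_pos hA, hown]
          · right
            refine ⟨fun h => hA (hiff.1 h), ?_⟩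
            show A (Cl τ F) (s + 1) (sh τ k l X) = Ls.getD a []
            rw [A_succ_neg hA, hown]
      · obtain ⟨i, hi, hgi⟩ := List.mem_flatMap.1 hg
        rcases hD1 i g hgi with h | ⟨y, hy⟩
        · exact Or.inl h
        · exact Or.inr ⟨y, hy.mono fun f' hf' =>
            List.mem_cons_of_mem _ (List.mem_flatMap.2 ⟨i, hi, hf'⟩)⟩
    · rw [hf]
      exact List.mem_cons_self

theorem us_A (hc : CH τ) (hF : FB τ F) :
    US fun X (x : ℕ × List ℕ) => A (Cl τ F) x.1 X = x.2 := by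
  have h1 : US fun X (x : ℕ × List ℕ) => ∃ C : List Fact, Closed τ F X C ∧
      (((0, 0), x) : Fact) ∈ C := by
    refine US.ex (p := fun X (x : ℕ × List ℕ) (C : List Fact) => Closed τ F X C ∧
      (((0, 0), x) : Fact) ∈ C) (US.and ((us_Closed hc hF).comp Primrec.snd) (US.of_prim ?_))
    exact primrec_mem ((Primrec.const (0, 0)).pair Primrec.fst) Primrec.snd
  refine h1.of_eq fun X x => ?_
  obtain ⟨s, L⟩ := x
  constructor
  · rintro ⟨C, h2, h3⟩
    have := h2.sound hF s _ h3 rfl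
    simp only [sh_zero'] at this
    exact this
  · intro h
    simp only at h
    obtain ⟨C, h2, h3⟩ := exists_Closed hF X s 0 0
    rw [sh_zero', h] at h3
    exact ⟨C, h2, h3⟩

theorem us_memA (hc : CH τ) (hF : FB τ F) :
    (US fun X (x : ℕ × ℕ) => x.1 ∈ A (Cl τ F) x.2 X) ∧
      US fun X (x : ℕ × ℕ) => ¬ x.1 ∈ A (Cl τ F) x.2 X := by
  have hi : Primrec fun z : (ℕ × ℕ) × List ℕ => (z.1.2, z.2) :=
    (Primrec.snd.comp Primrec.fst).pair Primrec.snd
  have hm : PrimrecPred fun z : (ℕ × ℕ) × List ℕ => z.1.1 ∈ z.2 :=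
    primrec_mem (Primrec.fst.comp Primrec.fst) Primrec.snd
  constructor
  · refine (US.ex (p := fun X (x : ℕ × ℕ) (L : List ℕ) => A (Cl τ F) x.2 X = L ∧ x.1 ∈ L)
      (US.and ((us_A hc hF).comp hi) (US.of_prim hm))).of_eq fun X x => ?_
    simp
  · refine (US.ex (p := fun X (x : ℕ × ℕ) (L : List ℕ) => A (Cl τ F) x.2 X = L ∧ ¬ x.1 ∈ L)
      (US.and ((us_A hc hF).comp hi) (US.of_prim (PrimrecPred.not hm)))).of_eq fun X x => ?_
    simp

end

end Pool.Agent.U35.ZA
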