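import Pool.Agent.U35.ZA.Orb

set_option autoImplicit false

/-!
The markers are decidable, uniformly, on the points which are aperiodic at the level.
-/

namespace Pool.Agent.U35.ZA

open Encodable Pool.Agent.Helper227

theorem primrec_w : Primrec fun n : ℕ => 5 ^ n := by
  have h1 : Primrec₂ fun (_ : ℕ) (y : ℕ × ℕ) => y.2 * 5 :=
    Primrec.nat_mul.comp (Primrec.snd.comp Primrec.snd) (Primrec.const 5)
  have h2 := Primrec.nat_rec' (f := fun n : ℕ => n) (g := fun _ : ℕ => 1) Primrec.id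
    (Primrec.const 1) h1
  refine h2.of_eq fun n => ?_
  induction n with
  | zero => rfl
  | succ n ih =>
    simp only at ih ⊢
    rw [ih, pow_succ]

theorem primrec_rr : Primrec rr := Primrec.nat_mul.comp (Primrec.const 12) primrec_w

section
variable {τ : Equiv.Perm (ℕ → Bool)} (hc : CH τ)
variable {α β γ : Type} [Primcodable α] [Primcodable β] [Primcodable γ]

include hc

theorem US.sh {p : (ℕ → Bool) → α → Prop} (hp : US p) :
    US fun X (x : (ℕ × ℕ) × α) => p (sh τ x.1.1 x.1.2 X) x.2 := US.shift hp hc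

/-- substitution of a translate, general form -/
theorem US.sh' {p : (ℕ → Bool) → α → Prop} (hp : US p) {f : β → ℕ × ℕ} {g : β → α}
    (hf : Primrec f) (hg : Primrec g) : US fun X (x : β) => p (ZA.sh τ (f x).1 (f x).2 X) (g x) :=
  (US.sh hc hp).comp (f := fun x : β => (f x, g x)) (hf.pair hg)

theorem us_eq : US fun X (x : (ℕ × ℕ) × ℕ) => pre X x.2 = pre (ZA.sh τ x.1.1 x.1.2 X) x.2 := by
  have h1 : US fun X (x : (ℕ × ℕ) × ℕ) => ∃ q : List Bool,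
      pre (ZA.sh τ x.1.1 x.1.2 X) x.2 = q ∧ pre X x.2 = q := by
    refine US.ex (p := fun X (x : (ℕ × ℕ) × ℕ) (q : List Bool) =>
      pre (ZA.sh τ x.1.1 x.1.2 X) x.2 = q ∧ pre X x.2 = q) (US.and ?_ ?_)
    · exact CF.us (F := fun (x : ℕ × ℕ) X => ZA.sh τ x.1 x.2 X) hc
    · have h3 : S1 fun y : List Bool × (((ℕ × ℕ) × ℕ) × List Bool) => y.1 = y.2.2 :=
        S1.of_prim (Primrec.eq.comp Primrec.fst (Primrec.snd.comp Primrec.snd))
      exact US.of_pre (V := fun x : ((ℕ × ℕ) × ℕ) × List Bool => x.1.2) h3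
        (Computable.snd.comp Computable.fst)
  refine h1.of_eq fun X x => ⟨?_, fun h => ⟨_, rfl, h⟩⟩
  rintro ⟨q, h, h'⟩
  rw [h, h']

theorem us_neq : US fun X (x : (ℕ × ℕ) × ℕ) => ¬ pre X x.2 = pre (ZA.sh τ x.1.1 x.1.2 X) x.2 := by
  have h1 : US fun X (x : (ℕ × ℕ) × ℕ) => ∃ q : List Bool,
      pre (ZA.sh τ x.1.1 x.1.2 X) x.2 = q ∧ ¬ pre X x.2 = q := by
    refine US.ex (p := fun X (x : (ℕ × ℕ) × ℕ) (q : List Bool) =>
      pre (ZA.sh τ x.1.1 x.1.2 X) x.2 = q ∧ ¬ pre X x.2 = q) (US.and ?_ ?_)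
    · exact CF.us (F := fun (x : ℕ × ℕ) X => ZA.sh τ x.1 x.2 X) hc
    · have h3 : S1 fun y : List Bool × (((ℕ × ℕ) × ℕ) × List Bool) => ¬ y.1 = y.2.2 :=
        S1.of_prim (PrimrecPred.not (Primrec.eq.comp Primrec.fst (Primrec.snd.comp Primrec.snd)))
      exact US.of_pre (V := fun x : ((ℕ × ℕ) × ℕ) × List Bool => x.1.2) h3
        (Computable.snd.comp Computable.fst)
  refine h1.of_eq fun X x => ⟨?_, fun h => ⟨_, rfl, h⟩⟩
  rintro ⟨q, h, h'⟩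
  rw [h]; exact h'

theorem us_Sep : US fun X (x : ℕ × ℕ) => Sep τ x.1 X x.2 := by
  refine US.all_lt (p := fun X (x : ℕ × ℕ) k => ¬ pre X x.2 = pre (ZA.sh τ (k + 1) 0 X) x.2 ∧
    ¬ pre X x.2 = pre (ZA.sh τ 0 (k + 1) X) x.2) (US.and ?_ ?_) (primrec_rr.comp Primrec.fst)
  · exact (us_neq hc).comp (f := fun z : (ℕ × ℕ) × ℕ => ((z.2 + 1, 0), z.1.2))
      (((Primrec.succ.comp Primrec.snd).pair (Primrec.const 0)).pair
        (Primrec.snd.comp Primrec.fst))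
  · exact (us_neq hc).comp (f := fun z : (ℕ × ℕ) × ℕ => ((0, z.2 + 1), z.1.2))
      (((Primrec.const 0).pair (Primrec.succ.comp Primrec.snd)).pair
        (Primrec.snd.comp Primrec.fst))

theorem us_nSep : US fun X (x : ℕ × ℕ) => ¬ Sep τ x.1 X x.2 := by
  have h := US.ex_lt (α := ℕ × ℕ) (f := fun x : ℕ × ℕ => rr x.1)
    (p := fun X (x : ℕ × ℕ) k => pre X x.2 = pre (ZA.sh τ (k + 1) 0 X) x.2 ∨
    pre X x.2 = pre (ZA.sh τ 0 (k + 1) X) x.2) (US.or ?_ ?_) (primrec_rr.comp Primrec.fst)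
  · refine h.of_eq fun X x => ?_
    unfold Sep
    push Not
    simp only [← or_iff_not_imp_left]
  · exact (us_eq hc).comp (f := fun z : (ℕ × ℕ) × ℕ => ((z.2 + 1, 0), z.1.2))
      (((Primrec.succ.comp Primrec.snd).pair (Primrec.const 0)).pair
        (Primrec.snd.comp Primrec.fst))
  · exact (us_eq hc).comp (f := fun z : (ℕ × ℕ) × ℕ => ((0, z.2 + 1), z.1.2))
      (((Primrec.const 0).pair (Primrec.succ.comp Primrec.snd)).pair
        (Primrec.snd.comp Primrec.fst))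

theorem us_Ap : US fun X (n : ℕ) => Ap τ n X := by
  have h := US.ex (p := fun X (n : ℕ) (m : ℕ) => Sep τ n X m) (us_Sep hc)
  exact h.of_eq fun X n => Ap_iff.symm

theorem us_key : US fun X (x : ℕ × ℕ) => Ap τ x.1 X ∧ key τ x.1 X = x.2 := by
  have h : US fun X (x : ℕ × ℕ) => ∃ m : ℕ, (Sep τ x.1 X m ∧ ∀ m' < m, ¬ Sep τ x.1 X m') ∧
      encode (pre X m) = x.2 := by
    refine US.ex (p := fun X (x : ℕ × ℕ) (m : ℕ) => (Sep τ x.1 X m ∧ ∀ m' < m, ¬ Sep τ x.1 X m') ∧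
      encode (pre X m) = x.2) (US.and (US.and ?_ ?_) ?_)
    · exact (us_Sep hc).comp (f := fun z : (ℕ × ℕ) × ℕ => (z.1.1, z.2))
        ((Primrec.fst.comp Primrec.fst).pair Primrec.snd)
    · refine US.all_lt (p := fun X (z : (ℕ × ℕ) × ℕ) m' => ¬ Sep τ z.1.1 X m') ?_ Primrec.snd
      exact (us_nSep hc).comp (f := fun z : ((ℕ × ℕ) × ℕ) × ℕ => (z.1.1.1, z.2))
        ((Primrec.fst.comp (Primrec.fst.comp Primrec.fst)).pair Primrec.snd)
    · have h3 : S1 fun y : List Bool × ((ℕ × ℕ) × ℕ) => encode y.1 = y.2.1.2 :=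
        S1.of_prim (Primrec.eq.comp (Primrec.encode.comp Primrec.fst)
          (Primrec.snd.comp (Primrec.fst.comp Primrec.snd)))
      exact US.of_pre (V := fun x : (ℕ × ℕ) × ℕ => x.2) h3 Computable.snd
  refine h.of_eq fun X x => ?_
  constructor
  · rintro ⟨m, ⟨h1, h2⟩, h3⟩
    exact ⟨Ap_iff.2 ⟨m, h1⟩, by rw [key_eq h1 h2]; exact h3⟩
  · rintro ⟨h1, h2⟩
    obtain ⟨m, h3, h4⟩ := exists_Sep h1
    rw [key_eq h3 h4] at h2
    exact ⟨m, ⟨h3, h4⟩, h2⟩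

/-- decidable on the points which are aperiodic at the level -/
def DD (τ : Equiv.Perm (ℕ → Bool)) {β : Type} [Primcodable β] (p : (ℕ → Bool) → ℕ × β → Prop) :
    Prop :=
  US (fun X x => Ap τ x.1 X ∧ p X x) ∧ US (fun X x => Ap τ x.1 X ∧ ¬ p X x)

omit hc in
theorem DD.of_eq {p q : (ℕ → Bool) → ℕ × β → Prop} (hp : DD τ p)
    (h : ∀ X a, p X a ↔ q X a) : DD τ q :=
  (funext fun X => funext fun a => propext (h X a) : p = q) ▸ hp

omit hc in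
theorem DD.not {p : (ℕ → Bool) → ℕ × β → Prop} (hp : DD τ p) : DD τ fun X x => ¬ p X x :=
  ⟨hp.2, hp.1.of_eq fun X x => by rw [not_not]⟩

omit hc in
theorem DD.and {p q : (ℕ → Bool) → ℕ × β → Prop} (hp : DD τ p) (hq : DD τ q) :
    DD τ fun X x => p X x ∧ q X x := by
  refine ⟨(hp.1.and hq.1).of_eq fun X x => ?_, (hp.2.or hq.2).of_eq fun X x => ?_⟩
  · tauto
  · tauto

omit hc in
theorem DD.or {p q : (ℕ → Bool) → ℕ × β → Prop} (hp : DD τ p) (hq : DD τ q) :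
    DD τ fun X x => p X x ∨ q X x :=
  (hp.not.and hq.not).not.of_eq fun X x => by tauto

/-- substitution -/
theorem DD.sh {p : (ℕ → Bool) → ℕ × β → Prop} (hp : DD τ p) {f : ℕ × γ → ℕ × ℕ}
    {g : ℕ × γ → β} (hf : Primrec f) (hg : Primrec g) :
    DD τ fun X x => p (ZA.sh τ (f x).1 (f x).2 X) (x.1, g x) := by
  have hg' : Primrec fun x : ℕ × γ => (x.1, g x) := Primrec.fst.pair hg
  refine ⟨(US.sh' hc hp.1 hf hg').of_eq fun X x => ?_, (US.sh' hc hp.2 hf hg').of_eq fun X x => ?_⟩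
  · simp only [Ap_sh]
  · simp only [Ap_sh]

theorem DD.ball {p : (ℕ → Bool) → ℕ × (β × ℕ) → Prop} (hp : DD τ p) {f : ℕ × β → ℕ}
    (hf : Primrec f) : DD τ fun X x => ∀ k < f x, p X (x.1, (x.2, k)) := by
  have hi : Primrec fun z : (ℕ × β) × ℕ => (z.1.1, (z.1.2, z.2)) :=
    (Primrec.fst.comp Primrec.fst).pair ((Primrec.snd.comp Primrec.fst).pair Primrec.snd)
  constructor
  · have h1 : US fun X (x : ℕ × β) => Ap τ x.1 X := (us_Ap hc).comp Primrec.fst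
    have h2 := US.all_lt (p := fun X (x : ℕ × β) (k : ℕ) => Ap τ x.1 X ∧ p X (x.1, (x.2, k)))
      (hp.1.comp hi) hf
    refine (h1.and h2).of_eq fun X x => ?_
    constructor
    · rintro ⟨a, b⟩
      exact ⟨a, fun k hk => (b k hk).2⟩
    · rintro ⟨a, b⟩
      exact ⟨a, fun k hk => ⟨a, b k hk⟩⟩
  · have h2 := US.ex_lt (p := fun X (x : ℕ × β) (k : ℕ) => Ap τ x.1 X ∧ ¬ p X (x.1, (x.2, k)))
      (hp.2.comp hi) hf
    refine h2.of_eq fun X x => ?_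
    push Not
    constructor
    · rintro ⟨k, hk, a, b⟩
      exact ⟨a, k, hk, b⟩
    · rintro ⟨a, k, hk, b⟩
      exact ⟨k, hk, a, b⟩

theorem DD.bex {p : (ℕ → Bool) → ℕ × (β × ℕ) → Prop} (hp : DD τ p) {f : ℕ × β → ℕ}
    (hf : Primrec f) : DD τ fun X x => ∃ k < f x, p X (x.1, (x.2, k)) :=
  (DD.ball hc hp.not hf).not.of_eq fun X x => by push Not; rfl

/-- comparison of keys -/
theorem dd_lt : DD τ fun X (x : ℕ × (ℕ × ℕ)) => key τ x.1 X < key τ x.1 (ZA.sh τ x.2.1 x.2.2 X) := by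
  have hA : US fun X (z : (ℕ × (ℕ × ℕ)) × (ℕ × ℕ)) => Ap τ z.1.1 X ∧ key τ z.1.1 X = z.2.1 :=
    (us_key hc).comp (f := fun z : (ℕ × (ℕ × ℕ)) × (ℕ × ℕ) => (z.1.1, z.2.1))
      ((Primrec.fst.comp Primrec.fst).pair (Primrec.fst.comp Primrec.snd))
  have hB : US fun X (z : (ℕ × (ℕ × ℕ)) × (ℕ × ℕ)) => Ap τ z.1.1 (ZA.sh τ z.1.2.1 z.1.2.2 X) ∧
      key τ z.1.1 (ZA.sh τ z.1.2.1 z.1.2.2 X) = z.2.2 :=
    US.sh' hc (us_key hc) (f := fun z : (ℕ × (ℕ × ℕ)) × (ℕ × ℕ) => z.1.2)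
      (g := fun z : (ℕ × (ℕ × ℕ)) × (ℕ × ℕ) => (z.1.1, z.2.2))
      (Primrec.snd.comp Primrec.fst)
      ((Primrec.fst.comp Primrec.fst).pair (Primrec.snd.comp Primrec.snd))
  have hC : US fun (_ : ℕ → Bool) (z : (ℕ × (ℕ × ℕ)) × (ℕ × ℕ)) => z.2.1 < z.2.2 :=
    US.of_prim (Primrec.nat_lt.comp (Primrec.fst.comp Primrec.snd) (Primrec.snd.comp Primrec.snd))
  have hD : US fun (_ : ℕ → Bool) (z : (ℕ × (ℕ × ℕ)) × (ℕ × ℕ)) => z.2.2 ≤ z.2.1 :=
    US.of_prim (Primrec.nat_le.comp (Primrec.snd.comp Primrec.snd) (Primrec.fst.comp Primrec.snd))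
  constructor
  · refine (US.ex (p := fun X (x : ℕ × (ℕ × ℕ)) (y : ℕ × ℕ) =>
      ((Ap τ x.1 X ∧ key τ x.1 X = y.1) ∧ (Ap τ x.1 (ZA.sh τ x.2.1 x.2.2 X) ∧
        key τ x.1 (ZA.sh τ x.2.1 x.2.2 X) = y.2)) ∧ y.1 < y.2) ((hA.and hB).and hC)).of_eq ?_
    intro X x
    constructor
    · rintro ⟨y, ⟨⟨a, b⟩, ⟨_, c⟩⟩, d⟩
      refine ⟨a, ?_⟩
      show key τ x.1 X < key τ x.1 (ZA.sh τ x.2.1 x.2.2 X)
      rw [b, c]; exact d
    · rintro ⟨a, b⟩
      exact ⟨(_, _), ⟨⟨a, rfl⟩, ⟨Ap_sh.2 a, rfl⟩⟩, b⟩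
  · refine (US.ex (p := fun X (x : ℕ × (ℕ × ℕ)) (y : ℕ × ℕ) =>
      ((Ap τ x.1 X ∧ key τ x.1 X = y.1) ∧ (Ap τ x.1 (ZA.sh τ x.2.1 x.2.2 X) ∧
        key τ x.1 (ZA.sh τ x.2.1 x.2.2 X) = y.2)) ∧ y.2 ≤ y.1) ((hA.and hB).and hD)).of_eq ?_
    intro X x
    rw [not_lt]
    constructor
    · rintro ⟨y, ⟨⟨a, b⟩, ⟨_, c⟩⟩, d⟩
      exact ⟨a, by rw [b, c]; exact d⟩
    · rintro ⟨a, b⟩
      exact ⟨(_, _), ⟨⟨a, rfl⟩, ⟨Ap_sh.2 a, rfl⟩⟩, b⟩

theorem dd_XL : DD τ fun X (x : ℕ × Unit) => XL τ x.1 X := by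
  have hid : Primrec fun x : ℕ × (Unit × ℕ) => ((0, 0) : ℕ × ℕ) := Primrec.const (0, 0)
  have h1 : DD τ fun X (x : ℕ × (Unit × ℕ)) =>
      key τ x.1 X < key τ x.1 (ZA.sh τ (x.2.2 + 1) 0 X) := by
    have := DD.sh hc (dd_lt hc) (f := fun x : ℕ × (Unit × ℕ) => ((0, 0) : ℕ × ℕ))
      (g := fun x : ℕ × (Unit × ℕ) => (x.2.2 + 1, 0)) hid
      ((Primrec.succ.comp (Primrec.snd.comp Primrec.snd)).pair (Primrec.const 0))
    refine this.of_eq fun X x => ?_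
    have e : ZA.sh τ 0 0 X = X := by unfold ZA.sh; simpa using O_zero τ X
    simp only [e]
  have h2 : DD τ fun X (x : ℕ × (Unit × ℕ)) =>
      key τ x.1 X < key τ x.1 (ZA.sh τ 0 (x.2.2 + 1) X) := by
    have := DD.sh hc (dd_lt hc) (f := fun x : ℕ × (Unit × ℕ) => ((0, 0) : ℕ × ℕ))
      (g := fun x : ℕ × (Unit × ℕ) => (0, x.2.2 + 1)) hid
      ((Primrec.const 0).pair (Primrec.succ.comp (Primrec.snd.comp Primrec.snd)))
    refine this.of_eq fun X x => ?_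
    have e : ZA.sh τ 0 0 X = X := by unfold ZA.sh; simpa using O_zero τ X
    simp only [e]
  exact DD.ball hc (h1.and h2) (f := fun x : ℕ × Unit => rr x.1) (primrec_rr.comp Primrec.fst)

theorem dd_XD : DD τ fun X (x : ℕ × ℕ) => XD τ x.1 X x.2 := by
  have h1 := DD.sh hc (dd_XL hc) (f := fun x : ℕ × ℕ => (x.2, 0)) (g := fun _ : ℕ × ℕ => ())
    (Primrec.snd.pair (Primrec.const 0)) (Primrec.const ())
  have h2 := DD.sh hc (dd_XL hc) (f := fun x : ℕ × ℕ => (0, x.2)) (g := fun _ : ℕ × ℕ => ())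
    ((Primrec.const 0).pair Primrec.snd) (Primrec.const ())
  exact h1.or h2

theorem dd_XN : DD τ fun X (x : ℕ × ℕ) => XN τ x.1 X x.2 := by
  have hid : Primrec fun x : ℕ × (ℕ × ℕ) => ((0, 0) : ℕ × ℕ) := Primrec.const (0, 0)
  have h1 : DD τ fun X (x : ℕ × (ℕ × ℕ)) => ¬ XD τ x.1 X x.2.2 := by
    have := DD.sh hc (dd_XD hc).not (f := fun x : ℕ × (ℕ × ℕ) => ((0, 0) : ℕ × ℕ))
      (g := fun x : ℕ × (ℕ × ℕ) => x.2.2) hid (Primrec.snd.comp Primrec.snd)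
    refine this.of_eq fun X x => ?_
    have e : ZA.sh τ 0 0 X = X := by unfold ZA.sh; simpa using O_zero τ X
    simp only [e]
  exact (dd_XD hc).and (DD.ball hc h1 (f := fun x : ℕ × ℕ => x.2) Primrec.snd)

omit hc in
theorem primrec_dvd : PrimrecPred fun x : ℕ × ℕ => 6 * 5 ^ x.1 ∣ x.2 := by
  have h : PrimrecPred fun x : ℕ × ℕ => x.2 % (6 * 5 ^ x.1) = 0 :=
    Primrec.eq.comp (Primrec.nat_mod.comp Primrec.snd
      (Primrec.nat_mul.comp (Primrec.const 6) (primrec_w.comp Primrec.fst))) (Primrec.const 0)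
  exact h.of_eq fun x => (Nat.dvd_iff_mod_eq_zero ..).symm

theorem dd_XM : DD τ fun X (x : ℕ × Unit) => XM τ x.1 X := by
  have hi : Primrec fun z : (ℕ × Unit) × ℕ => (z.1.1, z.2) :=
    (Primrec.fst.comp Primrec.fst).pair Primrec.snd
  have h1 : US fun X (z : (ℕ × Unit) × ℕ) => Ap τ z.1.1 X ∧ XN τ z.1.1 X z.2 :=
    (dd_XN hc).1.comp hi
  have h2 : US fun (_ : ℕ → Bool) (z : (ℕ × Unit) × ℕ) => 6 * 5 ^ z.1.1 ∣ z.2 :=
    US.of_prim (primrec_dvd.comp hi)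
  have h3 : US fun (_ : ℕ → Bool) (z : (ℕ × Unit) × ℕ) => ¬ 6 * 5 ^ z.1.1 ∣ z.2 :=
    US.of_prim ((PrimrecPred.not primrec_dvd).comp hi)
  constructor
  · refine (US.ex (p := fun X (x : ℕ × Unit) (k : ℕ) => (Ap τ x.1 X ∧ XN τ x.1 X k) ∧
      6 * 5 ^ x.1 ∣ k) (h1.and h2)).of_eq fun X x => ?_
    constructor
    · rintro ⟨k, ⟨a, b⟩, c⟩
      exact ⟨a, k, b, c⟩
    · rintro ⟨a, k, b, c⟩
      exact ⟨k, ⟨a, b⟩, c⟩
  · refine (US.ex (p := fun X (x : ℕ × Unit) (k : ℕ) => (Ap τ x.1 X ∧ XN τ x.1 X k) ∧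
      ¬ 6 * 5 ^ x.1 ∣ k) (h1.and h3)).of_eq fun X x => ?_
    have huni : ∀ k k', XN τ x.1 X k → XN τ x.1 X k' → k = k' := by
      intro k k' h h'
      by_contra hne
      rcases lt_or_gt_of_ne hne with g | g
      · exact h'.2 k g h.1
      · exact h.2 k' g h'.1
    constructor
    · rintro ⟨k, ⟨a, b⟩, c⟩
      refine ⟨a, ?_⟩
      rintro ⟨k', b', c'⟩
      rw [huni k' k b' b] at c'
      exact c c'
    · rintro ⟨a, b⟩
      obtain ⟨k, hk⟩ := exists_Nr (κ := fun j => key τ x.1 (O τ j X)) (r := rr x.1) (key_orb a) 0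
      have hk' : XN τ x.1 X k := by
        have e : X = O τ 0 X := (O_zero τ X).symm
        rw [e]
        unfold XN
        simp only [XD_iff]
        exact hk
      exact ⟨k, ⟨a, hk'⟩, fun hd => b ⟨k, hk', hd⟩⟩

theorem dd_XE : DD τ fun X (x : ℕ × Unit) => XE τ x.1 X := by
  have h1 := DD.sh hc (dd_XM hc) (f := fun x : ℕ × (Unit × ℕ) => (0, x.2.2))
    (g := fun _ : ℕ × (Unit × ℕ) => ()) ((Primrec.const 0).pair (Primrec.snd.comp Primrec.snd))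
    (Primrec.const ())
  exact DD.bex hc h1 (f := fun x : ℕ × Unit => 5 ^ x.1) (primrec_w.comp Primrec.fst)

theorem dd_XB : DD τ fun X (x : ℕ × Unit) => XB τ x.1 X := by
  have h1 : DD τ fun X (x : ℕ × Unit) => ∀ m < x.1, ¬ XE τ m X := by
    have hA : US fun X (x : ℕ × Unit) => Ap τ x.1 X := (us_Ap hc).comp Primrec.fst
    have hi : Primrec fun z : (ℕ × Unit) × ℕ => (z.2, ()) := Primrec.snd.pair (Primrec.const ())
    constructor
    · have h2 := US.all_lt (p := fun X (x : ℕ × Unit) (m : ℕ) => Ap τ m X ∧ ¬ XE τ m X)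
        ((dd_XE hc).2.comp hi) Primrec.fst
      refine (hA.and h2).of_eq fun X x => ?_
      constructor
      · rintro ⟨a, b⟩
        exact ⟨a, fun m hm => (b m hm).2⟩
      · rintro ⟨a, b⟩
        exact ⟨a, fun m hm => ⟨Ap_mono hm.le a, b m hm⟩⟩
    · have h2 := US.ex_lt (p := fun X (x : ℕ × Unit) (m : ℕ) => Ap τ m X ∧ XE τ m X)
        ((dd_XE hc).1.comp hi) Primrec.fst
      refine (hA.and h2).of_eq fun X x => ?_
      push Not
      constructor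
      · rintro ⟨a, m, hm, _, b⟩
        exact ⟨a, m, hm, b⟩
      · rintro ⟨a, m, hm, b⟩
        exact ⟨a, m, hm, Ap_mono hm.le a, b⟩
  exact (dd_XE hc).and h1

theorem us_BG : US fun X (x : ℕ × (ℕ × ℕ)) => BG τ x.1 X x.2.1 x.2.2 := by
  have h0 := dd_XB hc
  have h1 := DD.sh hc h0 (f := fun x : ℕ × (ℕ × ℕ) => (0, x.2.1))
    (g := fun _ : ℕ × (ℕ × ℕ) => ()) ((Primrec.const 0).pair (Primrec.fst.comp Primrec.snd))
    (Primrec.const ())
  have h2 := DD.sh hc h0.not (f := fun x : ℕ × ((ℕ × ℕ) × ℕ) => (0, x.2.2))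
    (g := fun _ : ℕ × ((ℕ × ℕ) × ℕ) => ()) ((Primrec.const 0).pair (Primrec.snd.comp Primrec.snd))
    (Primrec.const ())
  have h3 := DD.sh hc h0 (f := fun x : ℕ × (ℕ × ℕ) => (x.2.2 + 1, 0))
    (g := fun _ : ℕ × (ℕ × ℕ) => ())
    ((Primrec.succ.comp (Primrec.snd.comp Primrec.snd)).pair (Primrec.const 0))
    (Primrec.const ())
  have h4 := DD.sh hc h0.not (f := fun x : ℕ × ((ℕ × ℕ) × ℕ) => (x.2.2 + 1, 0))
    (g := fun _ : ℕ × ((ℕ × ℕ) × ℕ) => ())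
    ((Primrec.succ.comp (Primrec.snd.comp Primrec.snd)).pair (Primrec.const 0))
    (Primrec.const ())
  have h5 := h1.and ((DD.ball hc h2 (f := fun x : ℕ × (ℕ × ℕ) => x.2.1)
    (Primrec.fst.comp Primrec.snd)).and (h3.and (DD.ball hc h4 (f := fun x : ℕ × (ℕ × ℕ) => x.2.2)
      (Primrec.snd.comp Primrec.snd))))
  exact h5.1

end

end Pool.Agent.U35.ZA
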