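import Pool.Agent.Helper227.RD.Jump

set_option autoImplicit false

/-!
Predicates which are Sigma-one uniformly in the oracle, and computable maps of the Cantor space.
-/

namespace Pool.Agent.U35.ZA

open Encodable Pool.Agent.Helper227
open Nat.Partrec (Code)

/-- `p` is uniformly Sigma-one in the oracle. -/
def US {α : Type} [Primcodable α] (p : (ℕ → Bool) → α → Prop) : Prop :=
  ∃ E : List Bool × α → Prop, S1 E ∧ (∀ σ τ a, σ <+: τ → E (σ, a) → E (τ, a)) ∧
    ∀ X a, p X a ↔ ∃ s, E (pre X s, a)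

namespace US

variable {α β γ : Type} [Primcodable α] [Primcodable β] [Primcodable γ]

theorem of_eq {p q : (ℕ → Bool) → α → Prop} (hp : US p) (h : ∀ X a, p X a ↔ q X a) : US q :=
  (funext fun X => funext fun a => propext (h X a) : p = q) ▸ hp

theorem of_s1 {p : α → Prop} (hp : S1 p) : US fun _ => p :=
  ⟨fun x => p x.2, hp.comp Primrec.snd, fun _ _ _ _ h => h, fun _ _ => by simp⟩

theorem of_prim {p : α → Prop} (hp : PrimrecPred p) : US fun _ => p := of_s1 (S1.of_prim hp)

theorem comp {p : (ℕ → Bool) → β → Prop} {f : α → β} (hp : US p) (hf : Primrec f) :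
    US fun X a => p X (f a) := by
  obtain ⟨E, hE, mE, eE⟩ := hp
  exact ⟨fun x => E (x.1, f x.2), hE.comp (Primrec.fst.pair (hf.comp Primrec.snd)),
    fun σ τ a h => mE _ _ _ h, fun X a => eE _ _⟩

theorem comp_computable {p : (ℕ → Bool) → β → Prop} {f : α → β} (hp : US p)
    (hf : Computable f) : US fun X a => p X (f a) := by
  obtain ⟨E, hE, mE, eE⟩ := hp
  exact ⟨fun x => E (x.1, f x.2), hE.comp_computable (Computable.fst.pair (hf.comp Computable.snd)),
    fun σ τ a h => mE _ _ _ h, fun X a => eE _ _⟩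

theorem and {p q : (ℕ → Bool) → α → Prop} (hp : US p) (hq : US q) :
    US fun X a => p X a ∧ q X a := by
  obtain ⟨E, hE, mE, eE⟩ := hp
  obtain ⟨F, hF, mF, eF⟩ := hq
  refine ⟨fun x => E x ∧ F x, hE.and hF, fun σ τ a h h2 => ⟨mE _ _ _ h h2.1, mF _ _ _ h h2.2⟩,
    fun X a => ?_⟩
  refine (and_congr (eE X a) (eF X a)).trans ?_
  constructor
  · rintro ⟨⟨s, hs⟩, ⟨t, ht⟩⟩
    exact ⟨max s t, mE _ _ _ (pre_prefix X (le_max_left _ _)) hs,
      mF _ _ _ (pre_prefix X (le_max_right _ _)) ht⟩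
  · rintro ⟨s, h1, h2⟩
    exact ⟨⟨s, h1⟩, ⟨s, h2⟩⟩

theorem or {p q : (ℕ → Bool) → α → Prop} (hp : US p) (hq : US q) :
    US fun X a => p X a ∨ q X a := by
  obtain ⟨E, hE, mE, eE⟩ := hp
  obtain ⟨F, hF, mF, eF⟩ := hq
  refine ⟨fun x => E x ∨ F x, hE.or hF, fun σ τ a h h2 => h2.imp (mE _ _ _ h) (mF _ _ _ h),
    fun X a => ?_⟩
  exact (or_congr (eE X a) (eF X a)).trans exists_or.symm

theorem ex {p : (ℕ → Bool) → α → β → Prop} (hp : US fun X (x : α × β) => p X x.1 x.2) :
    US fun X a => ∃ b, p X a b := by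
  obtain ⟨E, hE, mE, eE⟩ := hp
  refine ⟨fun x => ∃ b, E (x.1, (x.2, b)), S1.ex (hE.comp ?_), ?_, fun X a => ?_⟩
  · exact (Primrec.fst.comp Primrec.fst).pair ((Primrec.snd.comp Primrec.fst).pair Primrec.snd)
  · rintro σ τ a h ⟨b, hb⟩
    exact ⟨b, mE _ _ _ h hb⟩
  · constructor
    · rintro ⟨b, hb⟩
      obtain ⟨s, hs⟩ := (eE X (a, b)).1 hb
      exact ⟨s, b, hs⟩
    · rintro ⟨s, b, hs⟩
      exact ⟨b, (eE X (a, b)).2 ⟨s, hs⟩⟩

theorem all_mem {p : (ℕ → Bool) → α → β → Prop} {f : α → List β}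
    (hp : US fun X (x : α × β) => p X x.1 x.2)
    (hf : Primrec f) : US fun X a => ∀ b ∈ f a, p X a b := by
  obtain ⟨E, hE, mE, eE⟩ := hp
  refine ⟨fun x => ∀ b ∈ f x.2, E (x.1, (x.2, b)), S1.all_mem (hE.comp ?_) (hf.comp Primrec.snd),
    ?_, fun X a => ?_⟩
  · exact (Primrec.fst.comp Primrec.fst).pair ((Primrec.snd.comp Primrec.fst).pair Primrec.snd)
  · rintro σ τ a h h2 b hb
    exact mE _ _ _ h (h2 b hb)
  · have : ∀ L : List β, (∀ b ∈ L, p X a b) ↔ ∃ s, ∀ b ∈ L, E (pre X s, (a, b)) := by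
      intro L
      induction L with
      | nil => simp
      | cons c L ih =>
        simp only [List.mem_cons, forall_eq_or_imp, ih]
        have := eE X (a, c)
        simp only at this
        rw [this]
        constructor
        · rintro ⟨⟨m, hm'⟩, ⟨n, hn⟩⟩
          exact ⟨max m n, mE _ _ _ (pre_prefix X (le_max_left _ _)) hm',
            fun b hb => mE _ _ _ (pre_prefix X (le_max_right _ _)) (hn b hb)⟩
        · rintro ⟨n, h1, h2⟩
          exact ⟨⟨n, h1⟩, ⟨n, h2⟩⟩
    exact this _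

theorem all_lt {p : (ℕ → Bool) → α → ℕ → Prop} {f : α → ℕ}
    (hp : US fun X (x : α × ℕ) => p X x.1 x.2)
    (hf : Primrec f) : US fun X a => ∀ b < f a, p X a b :=
  (all_mem hp (Primrec.list_range.comp hf)).of_eq (by simp)

theorem ex_lt {p : (ℕ → Bool) → α → ℕ → Prop} {f : α → ℕ}
    (hp : US fun X (x : α × ℕ) => p X x.1 x.2)
    (hf : Primrec f) : US fun X a => ∃ b < f a, p X a b := by
  refine ex (p := fun X a b => b < f a ∧ p X a b) (and (of_prim ?_) hp)
  exact Primrec.nat_lt.comp Primrec.snd (hf.comp Primrec.fst)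

/-- a computable relation of the initial segments of computable length -/
theorem of_pre {R : List Bool × α → Prop} {V : α → ℕ} (hR : S1 R) (hV : Computable V) :
    US fun X a => R (pre X (V a), a) := by
  refine ⟨fun x => V x.2 ≤ x.1.length ∧ R (x.1.take (V x.2), x.2), S1.and ?_ ?_, ?_, fun X a => ?_⟩
  · have h3 : S1 fun y : ℕ × ℕ => y.1 ≤ y.2 :=
      S1.of_prim (Primrec.nat_le.comp Primrec.fst Primrec.snd)
    exact h3.comp_computable (f := fun x : List Bool × α => (V x.2, x.1.length))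
      ((hV.comp Computable.snd).pair (Primrec.list_length.comp Primrec.fst).to_comp)
  · have h4 : Computable fun x : List Bool × α => x.1.take (V x.2) :=
      Computable.comp (f := fun x : ℕ × List Bool => x.2.take x.1)
        (g := fun x : List Bool × α => (V x.2, x.1))
        ((Primrec.list_take.comp Primrec.fst Primrec.snd).to_comp) ((hV.comp Computable.snd).pair Computable.fst)
    exact hR.comp_computable (h4.pair Computable.snd)
  · rintro σ τ a ⟨ρ, rfl⟩ ⟨h1, h2⟩
    simp only at h1 h2 ⊢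
    rw [List.take_append_of_le_length h1]
    exact ⟨by rw [List.length_append]; omega, h2⟩
  · constructor
    · intro h
      refine ⟨V a, ?_, ?_⟩
      · simp
      · simp only
        rw [take_pre X _ _ le_rfl]
        exact h
    · rintro ⟨s, h1, h2⟩
      simp only [length_pre] at h1
      simp only at h2
      rwa [take_pre X _ _ h1] at h2

theorem to_si {p : (ℕ → Bool) → α → Prop} (hp : US p) (X : ℕ → Bool) : SI X (p X) := by
  obtain ⟨E, hE, mE, eE⟩ := hp
  exact ⟨E, hE, mE, eE X⟩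

theorem exists_index {p : (ℕ → Bool) → ℕ → Prop} (hp : US p) :
    ∃ e : ℕ, ∀ X : ℕ → Bool, WE X e = {x | p X x} := by
  obtain ⟨E, hE, mE, eE⟩ := hp
  obtain ⟨cd, hcd⟩ := Nat.Partrec.Code.exists_code.1 hE.re
  refine ⟨encode cd, fun X => ?_⟩
  ext q
  simp only [WE, Set.mem_ofPred_eq, Denumerable.ofNat_encode]
  rw [eE]
  refine exists_congr fun k => ?_
  rw [hcd]
  simp [Part.assert, pre]

end US

/-- `F b` are maps of the Cantor space, uniformly computable with computable modulus. -/
def CF {β : Type} [Primcodable β] (F : β → (ℕ → Bool) → ℕ → Bool) : Prop :=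
  ∃ (V : β × ℕ → ℕ) (G : (β × ℕ) × List Bool → List Bool), Computable V ∧ Computable G ∧
    ∀ b X m, pre (F b X) m = G ((b, m), pre X (V (b, m)))

section cf
variable {α β γ : Type} [Primcodable α] [Primcodable β] [Primcodable γ]

theorem CF.us {F : β → (ℕ → Bool) → ℕ → Bool} (hF : CF F) :
    US fun X (x : (β × ℕ) × List Bool) => pre (F x.1.1 X) x.1.2 = x.2 := by
  obtain ⟨V, G, hV, hG, h⟩ := hF
  have h1 := US.of_pre (α := (β × ℕ) × List Bool) (V := fun x => V x.1)
    (R := fun y => G (y.2.1, y.1) = y.2.2) ?_ (hV.comp Computable.fst)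
  · exact h1.of_eq fun X a => by rw [h]
  · have h3 : S1 fun y : List Bool × List Bool => y.1 = y.2 :=
      S1.of_prim (Primrec.eq.comp Primrec.fst Primrec.snd)
    refine h3.comp_computable
      (f := fun y : List Bool × ((β × ℕ) × List Bool) => (G (y.2.1, y.1), y.2.2)) ?_
    exact (hG.comp ((Computable.fst.comp Computable.snd).pair Computable.fst)).pair
      (Computable.snd.comp Computable.snd)

theorem CF.us_ne {F : β → (ℕ → Bool) → ℕ → Bool} (hF : CF F) :
    US fun X (x : (β × ℕ) × List Bool) => ¬ pre (F x.1.1 X) x.1.2 = x.2 := by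
  obtain ⟨V, G, hV, hG, h⟩ := hF
  have h1 := US.of_pre (α := (β × ℕ) × List Bool) (V := fun x => V x.1)
    (R := fun y => ¬ G (y.2.1, y.1) = y.2.2) ?_ (hV.comp Computable.fst)
  · exact h1.of_eq fun X a => by rw [h]
  · have h3 : S1 fun y : List Bool × List Bool => ¬ y.1 = y.2 :=
      S1.of_prim (PrimrecPred.not (Primrec.eq.comp Primrec.fst Primrec.snd))
    refine h3.comp_computable
      (f := fun y : List Bool × ((β × ℕ) × List Bool) => (G (y.2.1, y.1), y.2.2)) ?_
    exact (hG.comp ((Computable.fst.comp Computable.snd).pair Computable.fst)).pair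
      (Computable.snd.comp Computable.snd)

/-- substitution of a computable map -/
theorem US.shift {p : (ℕ → Bool) → α → Prop} (hp : US p) {F : β → (ℕ → Bool) → ℕ → Bool}
    (hF : CF F) : US fun X (x : β × α) => p (F x.1 X) x.2 := by
  obtain ⟨E, hE, mE, eE⟩ := hp
  have h1 : US fun X (x : β × α) => ∃ y : ℕ × List Bool,
      pre (F x.1 X) y.1 = y.2 ∧ E (y.2, x.2) := by
    refine US.ex (p := fun X (x : β × α) (y : ℕ × List Bool) =>
      pre (F x.1 X) y.1 = y.2 ∧ E (y.2, x.2)) (US.and ?_ (US.of_s1 ?_))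
    · exact hF.us.comp (f := fun z : (β × α) × ℕ × List Bool => ((z.1.1, z.2.1), z.2.2))
        (((Primrec.fst.comp Primrec.fst).pair (Primrec.fst.comp Primrec.snd)).pair
          (Primrec.snd.comp Primrec.snd))
    · exact hE.comp (f := fun z : (β × α) × ℕ × List Bool => (z.2.2, z.1.2))
        ((Primrec.snd.comp Primrec.snd).pair (Primrec.snd.comp Primrec.fst))
  refine h1.of_eq fun X x => ?_
  rw [eE]
  constructor
  · rintro ⟨⟨m, q⟩, h2, h3⟩
    simp only at h2 h3
    exact ⟨m, by rw [h2]; exact h3⟩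
  · rintro ⟨m, h2⟩
    exact ⟨(m, _), rfl, h2⟩

theorem CF.comp {F : β → (ℕ → Bool) → ℕ → Bool} {F' : γ → (ℕ → Bool) → ℕ → Bool} (hF : CF F)
    (hF' : CF F') : CF fun (x : β × γ) X => F x.1 (F' x.2 X) := by
  obtain ⟨V, G, hV, hG, h⟩ := hF
  obtain ⟨V', G', hV', hG', h'⟩ := hF'
  refine ⟨fun x => V' (x.1.2, V (x.1.1, x.2)),
    fun x => G ((x.1.1.1, x.1.2), G' ((x.1.1.2, V (x.1.1.1, x.1.2)), x.2)), ?_, ?_, ?_⟩
  · exact hV'.comp ((Computable.snd.comp Computable.fst).pair
      (hV.comp ((Computable.fst.comp Computable.fst).pair Computable.snd)))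
  · have a1 : Computable fun x : ((β × γ) × ℕ) × List Bool => (x.1.1.1, x.1.2) :=
      (Computable.fst.comp (Computable.fst.comp Computable.fst)).pair
        (Computable.snd.comp Computable.fst)
    refine hG.comp (a1.pair (hG'.comp (Computable.pair (Computable.pair ?_ ?_) Computable.snd)))
    · exact Computable.snd.comp (Computable.fst.comp Computable.fst)
    · exact hV.comp a1
  · intro b X m
    rw [h, h']

theorem CF.comp_idx {F : β → (ℕ → Bool) → ℕ → Bool} (hF : CF F) {f : γ → β}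
    (hf : Computable f) : CF fun (c : γ) X => F (f c) X := by
  obtain ⟨V, G, hV, hG, h⟩ := hF
  refine ⟨fun x => V (f x.1, x.2), fun x => G ((f x.1.1, x.1.2), x.2), ?_, ?_, fun b X m => h _ _ _⟩
  · exact hV.comp ((hf.comp Computable.fst).pair Computable.snd)
  · exact hG.comp (((hf.comp (Computable.fst.comp Computable.fst)).pair
      (Computable.snd.comp Computable.fst)).pair Computable.snd)

/-- the iterates of a computable function -/
theorem exists_it {V : ℕ → ℕ} (hV : Computable V) :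
    ∃ it : ℕ × ℕ → ℕ, Computable it ∧ ∀ k m, it (k, m) = V^[k] m := by
  refine ⟨fun x => V^[x.1] x.2, ?_, fun _ _ => rfl⟩
  have h1 : Computable₂ fun (_ : ℕ × ℕ) (y : ℕ × ℕ) => V y.2 :=
    hV.comp (Computable.snd.comp Computable.snd)
  have h2 := Computable.nat_rec (f := fun x : ℕ × ℕ => x.1) (g := fun x : ℕ × ℕ => x.2)
    Computable.fst Computable.snd h1
  refine h2.of_eq fun x => ?_
  obtain ⟨k, m⟩ := x
  induction k with
  | zero => rfl
  | succ k ih =>
    simp only at ih ⊢
    rw [ih, Function.iterate_succ_apply']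

theorem exists_st {W : ℕ × ℕ → ℕ} {G : ℕ × List Bool → List Bool} (hW : Computable W)
    (hG : Computable G) :
    ∃ st : (ℕ × ℕ) × List Bool → ℕ → List Bool, (Computable fun x => st x x.1.1) ∧
      (∀ x, st x 0 = x.2) ∧ ∀ x j, st x (j + 1) = G (W (x.1.1 - (j + 1), x.1.2), st x j) := by
  refine ⟨fun x j => Nat.rec (motive := fun _ => List Bool) x.2
    (fun j q => G (W (x.1.1 - (j + 1), x.1.2), q)) j, ?_, fun _ => rfl, fun _ _ => rfl⟩
  have h1 : Computable₂ fun (x : (ℕ × ℕ) × List Bool) (y : ℕ × List Bool) =>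
      G (W (x.1.1 - (y.1 + 1), x.1.2), y.2) := by
    refine hG.comp (Computable.pair (hW.comp ?_) (Computable.snd.comp Computable.snd))
    refine Primrec.to_comp (Primrec.pair ?_ ?_)
    · exact Primrec.nat_sub.comp (Primrec.fst.comp (Primrec.fst.comp Primrec.fst))
        (Primrec.succ.comp (Primrec.fst.comp Primrec.snd))
    · exact Primrec.snd.comp (Primrec.fst.comp Primrec.fst)
  exact Computable.nat_rec (f := fun x : (ℕ × ℕ) × List Bool => x.1.1)
    (g := fun x : (ℕ × ℕ) × List Bool => x.2)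
    (Computable.fst.comp Computable.fst) Computable.snd h1

/-- the iterates of a computable map -/
theorem CF.iterate {T : (ℕ → Bool) → ℕ → Bool} {V : ℕ → ℕ} {G : ℕ × List Bool → List Bool}
    (hV : Computable V) (hG : Computable G) (h : ∀ X m, pre (T X) m = G (m, pre X (V m))) :
    CF fun (k : ℕ) X => T^[k] X := by
  obtain ⟨it, hit, hit2⟩ := exists_it hV
  obtain ⟨st, hst, st0, st1⟩ := exists_st hit hG
  refine ⟨it, fun x => st x x.1.1, hit, hst, fun k X m => ?_⟩
  have key : ∀ j ≤ k, st ((k, m), pre X (it (k, m))) j = pre (T^[j] X) (it (k - j, m)) := by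
    intro j
    induction j with
    | zero => intro _; rw [st0]; rfl
    | succ j ih =>
      intro hj
      have e2 : k - j = (k - (j + 1)) + 1 := by omega
      have e3 : it (k - j, m) = V (it (k - (j + 1), m)) := by
        rw [e2, hit2, hit2, Function.iterate_succ_apply']
      rw [st1, ih (by omega), Function.iterate_succ_apply', h, e3]
  have := key k le_rfl
  rw [Nat.sub_self, hit2 0 m] at this
  exact this.symm

end cf

end Pool.Agent.U35.ZA
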